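import Pool.Agent.Helper386.D5V.Helper386_FF_RR

/-!
The degree of a generic section on a curve.
-/

set_option autoImplicit false

open FF Module

namespace Run7.h612.AB

variable {F M : Type} [Field F] [Field M] [Algebra F M] [CharZero F] [IsFF F M]

theorem exists_pole {f : M} (hf : Transcendental F f) : ∃ P : Place F M, P.ord f < 0 := by
  obtain ⟨S, hS, hS2⟩ := poles (k := F) (f := f) hf
  have := IsFF.finite hf
  have h1 : 0 < finrank (IntermediateField.adjoin F {f}) M := finrank_pos
  by_contra hc
  push Not at hc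
  have h2 : S = ∅ := by
    rw [Finset.eq_empty_iff_forall_notMem]
    intro w hw
    have := hc w
    rw [hS] at hw
    omega
  rw [h2, Finset.sum_empty] at hS2
  omega

theorem ell_zero_le (hF : ∀ x : M, IsAlgebraic F x → ∃ a, algebraMap F M a = x) :
    ell (0 : Place F M →₀ ℤ) ≤ 1 := by
  unfold ell
  have h1 : LL (0 : Place F M →₀ ℤ) ≤ Submodule.span F {(1 : M)} := by
    intro f hf
    rw [Submodule.mem_span_singleton]
    have h2 : IsAlgebraic F f := by
      by_contra hcon
      obtain ⟨P, hP⟩ := exists_pole (F := F) hcon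
      rcases hf with hf | hf
      · rw [hf, P.ord_zero] at hP
        exact lt_irrefl _ hP
      · have := hf P
        rw [Finsupp.coe_zero, Pi.zero_apply] at this
        omega
    obtain ⟨a, ha⟩ := hF f h2
    exact ⟨a, by rw [← ha, Algebra.smul_def, mul_one]⟩
  have h2 := (Submodule.finrank_mono h1).trans (finrank_span_le_card _)
  rw [Set.toFinset_singleton, Finset.card_singleton] at h2
  exact_mod_cast h2

/-- **The degree of a generic section on a curve.** -/
theorem curve_bound (hF : ∀ x : M, IsAlgebraic F x → ∃ a, algebraMap F M a = x) {k : Type} [Field k]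
    [Infinite k] [Algebra k M] (hk : ∀ c : k, ∃ a : F, algebraMap F M a = algebraMap k M c)
    {ι : Type} [Fintype ι] {v : ι → M} {o : ι} (ho : v o = 1) {l0 : ι}
    (hl0 : ¬ ∃ a, algebraMap F M a = v l0) :
    ∃ c : ι → k, Transcendental F (∑ l, c l • v l) ∧
      finrank F (Submodule.span F (Set.range v)) ≤
        finrank (IntermediateField.adjoin F {∑ l, c l • v l}) M + 1 := by
  classical
  have hconst : ∀ (P : Place F M) (c : k), c ≠ 0 → P.ord (algebraMap k M c) = 0 := by
    intro P c hc
    obtain ⟨a, ha⟩ := hk c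
    rw [← ha]
    refine P.ord_const fun h0 => ?_
    rw [h0, map_zero] at ha
    exact hc ((map_eq_zero _).1 ha.symm)
  -- the places with poles
  obtain ⟨S, hS⟩ : ∃ S : Set (Place F M), S = {P | ∃ l, P.ord (v l) < 0} := ⟨_, rfl⟩
  have hSfin : S.Finite := by
    have h1 : S ⊆ ⋃ l, {P : Place F M | P.ord (v l) ≠ 0} := by
      rw [hS]
      rintro P ⟨l, hl⟩
      exact Set.mem_iUnion.2 ⟨l, ne_of_lt hl⟩
    exact (Set.finite_iUnion fun l => finite_support (v l)).subset h1
  have hne : S.Nonempty := by
    have h1 : Transcendental F (v l0) := fun h => hl0 (hF _ h)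
    obtain ⟨P, hP⟩ := exists_pole (F := F) h1
    exact ⟨P, by rw [hS]; exact ⟨l0, hP⟩⟩
  -- the maximal pole orders
  have hmin : ∀ P : Place F M, ∃ l, v l ≠ 0 ∧ ∀ l', v l' ≠ 0 → P.ord (v l) ≤ P.ord (v l') := by
    intro P
    obtain ⟨l, hl, hl'⟩ := Finset.exists_min_image (Finset.univ.filter fun l => v l ≠ 0)
      (fun l => P.ord (v l)) ⟨o, by
        rw [Finset.mem_filter, ho]
        exact ⟨Finset.mem_univ _, one_ne_zero⟩⟩
    rw [Finset.mem_filter] at hl
    exact ⟨l, hl.2, fun l' h => hl' l' (Finset.mem_filter.2 ⟨Finset.mem_univ _, h⟩)⟩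
  choose lm hlm0 hlm using hmin
  have hle : ∀ (P : Place F M) (c : ι → k), ∑ l, c l • v l = 0 ∨
      P.ord (v (lm P)) ≤ P.ord (∑ l, c l • v l) := by
    intro P c
    have h1 : ∀ s : Finset ι, ∑ l ∈ s, c l • v l = 0 ∨
        P.ord (v (lm P)) ≤ P.ord (∑ l ∈ s, c l • v l) := by
      intro s
      induction s using Finset.induction_on with
      | empty => left; rw [Finset.sum_empty]
      | insert a s ha ih =>
        rw [Finset.sum_insert ha]
        by_cases h0 : c a • v a = 0
        · rw [h0, zero_add]; exact ih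
        have h2 : P.ord (v (lm P)) ≤ P.ord (c a • v a) := by
          rw [Algebra.smul_def] at h0 ⊢
          rw [P.ord_mul (left_ne_zero_of_mul h0) (right_ne_zero_of_mul h0),
            hconst P (c a) (fun h => h0 (by rw [h, map_zero, zero_mul])), zero_add]
          exact hlm P a (right_ne_zero_of_mul h0)
        rcases ih with ih | ih
        · right; rw [ih, add_zero]; exact h2
        by_cases h3 : ∑ l ∈ s, c l • v l = 0
        · right; rw [h3, add_zero]; exact h2
        by_cases h4 : c a • v a + ∑ l ∈ s, c l • v l = 0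
        · left; exact h4
        right
        have h5 := P.ord_add h0 h3 h4
        exact (le_min h2 ih).trans h5
    exact h1 Finset.univ
  -- the subspaces to be avoided
  let V : Place F M → Submodule k (ι → k) := fun P =>
    { carrier := {c | ∑ l, c l • v l = 0 ∨ P.ord (v (lm P)) < P.ord (∑ l, c l • v l)}
      zero_mem' := by
        left
        exact Finset.sum_eq_zero fun l _ => by rw [Pi.zero_apply, zero_smul]
      add_mem' := by
        intro c d hc hd
        have h1 : ∑ l, (c + d) l • v l = ∑ l, c l • v l + ∑ l, d l • v l := by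
          rw [← Finset.sum_add_distrib]
          exact Finset.sum_congr rfl fun l _ => by rw [Pi.add_apply, add_smul]
        simp only [Set.mem_setOf_eq] at hc hd ⊢
        rw [h1]
        by_cases h2 : ∑ l, c l • v l = 0
        · rw [h2, zero_add]; exact hd
        by_cases h3 : ∑ l, d l • v l = 0
        · rw [h3, add_zero]; exact hc
        by_cases h4 : ∑ l, c l • v l + ∑ l, d l • v l = 0
        · left; exact h4
        right
        exact lt_of_lt_of_le (lt_min (hc.resolve_left h2) (hd.resolve_left h3))
          (P.ord_add h2 h3 h4)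
      smul_mem' := by
        intro a c hc
        have h1 : ∑ l, (a • c) l • v l = algebraMap k M a * ∑ l, c l • v l := by
          rw [Finset.mul_sum]
          exact Finset.sum_congr rfl fun l _ => by
            rw [Pi.smul_apply, smul_eq_mul, mul_smul, Algebra.smul_def a]
        simp only [Set.mem_setOf_eq] at hc ⊢
        rw [h1]
        by_cases ha : a = 0
        · left; rw [ha, map_zero, zero_mul]
        rcases hc with hc | hc
        · left; rw [hc, mul_zero]
        by_cases h0 : ∑ l, c l • v l = 0
        · left; rw [h0, mul_zero]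
        right
        rw [P.ord_mul (by rwa [Ne, map_eq_zero]) h0, hconst P a ha, zero_add]
        exact hc }
  have hVtop : ∀ P, V P ≠ ⊤ := by
    intro P h
    have h1 : Pi.single (lm P) (1 : k) ∈ V P := by rw [h]; exact Submodule.mem_top
    have h2 : ∑ l, (Pi.single (lm P) (1 : k) : ι → k) l • v l = v (lm P) := by
      rw [Finset.sum_eq_single (lm P)]
      · rw [Pi.single_eq_same, one_smul]
      · intro l _ hl
        rw [Pi.single_eq_of_ne hl, zero_smul]
      · intro h; exact absurd (Finset.mem_univ _) h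
    rcases h1 with h1 | h1
    · rw [h2] at h1
      exact hlm0 P h1
    · rw [h2] at h1
      exact lt_irrefl _ h1
  obtain ⟨c, hc⟩ : ∃ c : ι → k, ∀ P ∈ S, c ∉ V P := by
    by_contra hcon
    push Not at hcon
    obtain ⟨T, hT⟩ : ∃ T : Finset (Submodule k (ι → k)), T = hSfin.toFinset.image V := ⟨_, rfl⟩
    have h1 : (⊤ : Submodule k (ι → k)) ∉ T := by
      rw [hT, Finset.mem_image]
      rintro ⟨P, -, hP⟩
      exact hVtop P hP
    apply Subspace.biUnion_ne_univ_of_top_notMem h1
    rw [Set.eq_univ_iff_forall]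
    intro c
    obtain ⟨P, hP, hcP⟩ := hcon c
    refine Set.mem_iUnion₂.2 ⟨V P, ?_, hcP⟩
    rw [hT]
    exact Finset.mem_image_of_mem _ (hSfin.mem_toFinset.2 hP)
  obtain ⟨f, hf⟩ : ∃ f, f = ∑ l, c l • v l := ⟨_, rfl⟩
  have hfP : ∀ P ∈ S, f ≠ 0 ∧ P.ord f = P.ord (v (lm P)) := by
    intro P hP
    have h1 : ¬ (∑ l, c l • v l = 0 ∨ P.ord (v (lm P)) < P.ord (∑ l, c l • v l)) := hc P hP
    push Not at h1
    rw [← hf] at h1
    refine ⟨h1.1, le_antisymm h1.2 ?_⟩
    have h2 := (hle P c).resolve_left (by rw [← hf]; exact h1.1)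
    rwa [← hf] at h2
  have hneg : ∀ P ∈ S, P.ord (v (lm P)) < 0 := by
    intro P hP
    rw [hS] at hP
    obtain ⟨l, hl⟩ := hP
    refine lt_of_le_of_lt (hlm P l fun h => ?_) hl
    rw [h, P.ord_zero] at hl
    exact lt_irrefl _ hl
  have htr : Transcendental F f := by
    obtain ⟨P, hP⟩ := hne
    exact P.transcendental_of_ord_ne (by rw [(hfP P hP).2]; exact (hneg P hP).ne)
  refine ⟨c, by rw [← hf]; exact htr, ?_⟩
  rw [← hf]
  have hLL : Submodule.span F (Set.range v) ≤ LL (polar (k := F) f) := by
    rw [Submodule.span_le]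
    rintro _ ⟨l, rfl⟩
    by_cases h0 : v l = 0
    · exact Or.inl h0
    right
    intro P
    rw [polar_apply]
    by_cases hP : P ∈ S
    · have h1 := (hfP P hP).2
      have h2 := hlm P l h0
      have h3 : -P.ord f ≤ max (-P.ord f) 0 := le_max_left _ _
      omega
    · have h1 : 0 ≤ P.ord (v l) := by
        by_contra h2
        push Not at h2
        exact hP (by rw [hS]; exact ⟨l, h2⟩)
      have h3 : 0 ≤ max (-P.ord f) 0 := le_max_right _ _
      omega
  have h1 := Submodule.finrank_mono hLL
  have h2 := ell_le (polar_nonneg (k := F) f)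
  have h3 := ell_zero_le hF
  rw [ddeg_zero, ddeg_polar htr] at h2
  unfold ell at h2 h3
  zify
  zify at h1
  omega

end Run7.h612.AB
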