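import Pool.Agent.Run7.h612.AB.Gen
import Pool.Agent.Run7.h612.AB.Curve

/-!
**Varieties of minimal degree**: a function field of transcendence degree `j` which is generated by
`p` linearly independent functions has degree at least `p - j` over the field of `j` of their linear
combinations.
-/

set_option autoImplicit false

open Polynomial Set Module

namespace Run7.h612.AB

section

variable {M : Type} [Field M]

theorem finrank_le_of_le {A B : Subfield M} (h : A ≤ B) (hfin : FiniteDimensional A M) :
    finrank B M ≤ finrank A M := by
  let _ : Algebra A B := (Subfield.inclusion h).toAlgebra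
  have hst : IsScalarTower A B M := IsScalarTower.of_algebraMap_eq fun x => rfl
  have h1 := finrank_mul_finrank A B M
  have h2 : FiniteDimensional A B := FiniteDimensional.left A B M
  have h3 : 0 < finrank A B := finrank_pos
  rw [← h1]
  exact Nat.le_mul_of_pos_left _ h3

end

variable {M : Type} [Field M] [Algebra ℂ M]

/-- the algebraic closure of `ℂ (s)` -/
def clC (s : Set M) : Subfield M := acl (Subfield.closure (Set.range (algebraMap ℂ M) ∪ s))

theorem mem_clC {s : Set M} {x : M} : x ∈ clC s ↔ IsAlgebraic (IntermediateField.adjoin ℂ s) x := by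
  unfold clC
  rw [mem_acl]
  exact Iff.rfl

open scoped IntermediateField.algebraAdjoinAdjoin in
theorem mem_clC' {s : Set M} {x : M} : x ∈ clC s ↔ x ∈ (AlgebraicIndependent.matroid ℂ M).closure s := by
  rw [AlgebraicIndependent.matroid_closure_eq, SetLike.mem_coe, Subalgebra.mem_algebraicClosure,
    mem_clC, IsFractionRing.isAlgebraic_iff (Algebra.adjoin ℂ s) (IntermediateField.adjoin ℂ s) M]

theorem range_le_clC (s : Set M) (c : ℂ) : algebraMap ℂ M c ∈ clC s :=
  le_acl _ (Subfield.subset_closure (Set.mem_union_left _ ⟨c, rfl⟩))

theorem subset_clC (s : Set M) {x : M} (hx : x ∈ s) : x ∈ clC s :=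
  le_acl _ (Subfield.subset_closure (Set.mem_union_right _ hx))

theorem clC_le {s : Set M} {T : Subfield M} (hT : ∀ a, IsAlgebraic T a → a ∈ T)
    (hC : ∀ c, algebraMap ℂ M c ∈ T) (hs : s ⊆ T) : clC s ≤ T := by
  intro a ha
  refine hT a (alg_mono (Subfield.closure_le.2 ?_) (mem_acl.1 ha))
  rintro x (⟨c, rfl⟩ | hx)
  · exact hC c
  · exact hs hx

theorem clC_closed {s : Set M} {a : M} (ha : IsAlgebraic (clC s) a) : a ∈ clC s := acl_acl ha

theorem clC_mono {s t : Set M} (h : s ⊆ t) : clC s ≤ clC t :=
  clC_le (fun _ => clC_closed) (range_le_clC t) fun _ hx => subset_clC t (h hx)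

/-- algebraic independence of sequences -/
theorem indep_of_notMem {j : ℕ} (f : Fin j → M) (h : ∀ a, f a ∉ clC (f '' {b | b < a})) :
    AlgebraicIndependent ℂ f := by
  classical
  have h1 : ∀ k : ℕ, AlgebraicIndepOn ℂ id (f '' {b | (b : ℕ) < k}) := by
    intro k
    induction k with
    | zero =>
      have h2 : f '' {b | (b : ℕ) < 0} = ∅ := by
        rw [Set.image_eq_empty]
        ext b
        simp
      rw [h2, ← AlgebraicIndependent.matroid_indep_iff]
      exact Matroid.empty_indep _
    | succ k ih =>
      by_cases hk : k < j
      · have h2 : f '' {b | (b : ℕ) < k + 1} = insert (f ⟨k, hk⟩) (f '' {b | (b : ℕ) < k}) := by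
          rw [← Set.image_insert_eq]
          congr 1
          ext b
          simp only [Set.mem_insert_iff]
          constructor
          · intro hb
            have hb' : (b : ℕ) < k + 1 := hb
            rcases Nat.lt_succ_iff_lt_or_eq.1 hb' with h | h
            · exact Or.inr h
            · exact Or.inl (Fin.ext h)
          · rintro (rfl | hb)
            · exact Nat.lt_succ_self k
            · exact Nat.lt_succ_of_lt hb
        rw [h2, ← AlgebraicIndependent.matroid_indep_iff]
        rw [← AlgebraicIndependent.matroid_indep_iff] at ih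
        have h3 := h ⟨k, hk⟩
        rw [mem_clC'] at h3
        have h4 : f '' {b | b < ⟨k, hk⟩} = f '' {b | (b : ℕ) < k} := rfl
        rw [h4] at h3
        exact (ih.notMem_closure_iff_of_notMem (fun h5 => h3
          (Matroid.mem_closure_of_mem _ h5 (Set.subset_univ _))) (Set.mem_univ _)).1 h3
      · have h2 : f '' {b | (b : ℕ) < k + 1} = f '' {b | (b : ℕ) < k} := by
          congr 1
          ext b
          have := b.2
          constructor
          · intro _
            exact (show (b : ℕ) < k by omega)
          · intro _
            exact (show (b : ℕ) < k + 1 by omega)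
        rw [h2]
        exact ih
  have hinj : Function.Injective f := by
    intro a b hab
    by_contra hne
    rcases lt_or_gt_of_ne hne with h2 | h2
    · exact h b (subset_clC _ ⟨a, h2, hab⟩)
    · exact h a (subset_clC _ ⟨b, h2, hab.symm⟩)
  have h2 := h1 j
  have h3 : f '' {b | (b : ℕ) < j} = Set.range f := by
    rw [← Set.image_univ]
    congr 1
    ext b
    simp [b.2]
  rw [h3] at h2
  have h4 : AlgebraicIndependent ℂ (fun x : Set.range f => (x : M)) := h2
  exact h4.comp (fun a => ⟨f a, a, rfl⟩) fun a b hab => hinj (congrArg Subtype.val hab)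

end Run7.h612.AB
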