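import Pool.Agent.R887.PsE
import Pool.Agent.N110.Geo

/-!
The degrees of the maps given by the sections on a covering.
-/

set_option autoImplicit false
set_option linter.overlappingInstances false
set_option linter.unusedSectionVars false

open FF Module MvPolynomial Pool.Agent.W602.GT Pool.Agent.W603.LV Pool.Agent.W619.PQ
open Pool.Agent.Y172 Pool.Agent.Y191 Pool.Agent.R887
open Pool.Agent.N110 (affS)

namespace Run7.h612.AB

variable {K L : Type} [Field K] [Algebra ℂ K] [Field L] [Algebra ℂ L]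
  [Algebra K L] [IsScalarTower ℂ K L] [FiniteDimensional K L] {N : ℕ} {y : Fin (N + 1) → K} {n : ℕ}

/-- the function `h` is a section of `m π^* T` on the covering -/
def CSec (y : Fin (N + 1) → K) (T : Place ℂ K → ℚ) (m : ℕ) (h : L) : Prop :=
  ∀ (Q : Place ℂ L) (P : Place ℂ K) (e : ℕ), Over Q P e → IsPrimeDivisor y P →
    0 ≤ (Q.ord h : ℚ) + e * (m * T P)

theorem CSec.pow {T : Place ℂ K → ℚ} {m : ℕ} {h : L} (hh : CSec y T m h) (q : ℕ) :
    CSec y T (q * m) (h ^ q) := by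
  intro Q P e hov hP
  have h1 := hh Q P e hov hP
  rw [Q.ord_pow]
  push_cast
  have h2 : (0 : ℚ) ≤ q * ((Q.ord h : ℚ) + e * (m * T P)) := mul_nonneg (Nat.cast_nonneg _) h1
  linarith

theorem affL_eq (i : Fin (N + 1)) : affL L y i = (IsScalarTower.toAlgHom ℂ K L).toLinearMap ''
    (affS y i) := by
  unfold affL affS
  rw [← Set.range_comp]
  rfl

/-- **The degrees of the maps given by functions which are dominated by hyperplane sections.** -/
theorem deg_dom (hy : NormalModel y) (hn : Algebra.trdeg ℂ K = n) {i : Fin (N + 1)} (hi : y i ≠ 0)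
    {A T : Place ℂ K → ℚ} (hAP : ∀ P l, IsPrimeDivisor y P → Centred y l P → A P = P.ord (y i / y l))
    {δ : ℕ} (hδ : ∀ v : Fin n → K, (∀ a, v a ∈ Submodule.span ℂ (affS y i)) → dg ℂ v ≤ δ)
    {s a : ℕ} (hs1 : 1 ≤ s) {θ : K} (hθ0 : θ ≠ 0) {κ : Place ℂ K → ℝ}
    (hθ : ∀ P, IsPrimeDivisor y P → (P.ord θ : ℝ) ≤ -(s * (T P : ℝ)) + s * κ P +
        a * (A P : ℝ)) {m : ℕ} {j : ℕ}
    (hj : j ≤ n) {u : Fin (n - j) → K} (hu : ∀ a, u a ∈ Submodule.span ℂ (affS y i))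
    {h : Fin (j + 1) → L} (h0 : ∀ i, h i ≠ 0)
    (hord : ∀ i (Q : Place ℂ L) (P : Place ℂ K) (e : ℕ), Over Q P e → IsPrimeDivisor y P →
        (e : ℝ) * (m * κ P) ≤ (Q.ord (h i) : ℝ) + e * (m * (T P : ℝ))) :
    s ^ j * dg ℂ (Sum.elim (fun a => algebraMap K L (u a)) fun i : Fin j => h i.succ / h 0) ≤
      (m * a) ^ j * (δ * finrank K L) := by
  classical
  have hess := hy.ess
  have hnL : Algebra.trdeg ℂ L = n := trdeg_up (K := K) hn
  obtain ⟨w, hw⟩ : ∃ w : Fin (n - j) ⊕ Fin j → L, w = Sum.elim (fun a => algebraMap K L (u a))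
    fun i : Fin j => h i.succ / h 0 := ⟨_, rfl⟩
  rw [← hw]
  by_cases hdg0 : dg ℂ w = 0
  · rw [hdg0, mul_zero]
    exact Nat.zero_le _
  have hcard : Nat.card (Fin (n - j) ⊕ Fin j) = n := by
    rw [Nat.card_eq_fintype_card, Fintype.card_sum, Fintype.card_fin, Fintype.card_fin]
    omega
  have hs0 : (0 : ℝ) < s := by exact_mod_cast hs1
  have hθL : algebraMap K L θ ≠ 0 := by rwa [Ne, map_eq_zero]
  obtain ⟨B, hB⟩ : ∃ B : ℕ, B = m * a := ⟨_, rfl⟩
  obtain ⟨F, hF⟩ : ∃ F : Fin (j + 1) → L, F = fun i => h i ^ s / algebraMap K L θ ^ m := ⟨_, rfl⟩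
  have hF0 : ∀ i, F i ≠ 0 := fun i => by
    rw [hF]
    exact div_ne_zero (pow_ne_zero _ (h0 i)) (pow_ne_zero _ hθL)
  have hFbnd : ∀ b, Bnd ℂ (affL L y i) B (F b) := by
    intro b
    refine bnd_of_prime hy hi (hF0 b) fun Q P e hov hP l hl => ?_
    have h4 := hord b Q P e hov hP
    have h5 := hθ P hP
    have h6 : (A P : ℝ) = ((P.ord (y i / y l) : ℤ) : ℝ) := by
      rw [hAP P l hP hl]
      norm_cast
    rw [hF]
    simp only []
    rw [Q.ord_div (pow_ne_zero _ (h0 b)) (pow_ne_zero _ hθL), Q.ord_pow, Q.ord_pow, hov.2,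
      hov.2]
    have h7 : (0 : ℝ) ≤ ((s * Q.ord (h b) -
        m * (e * P.ord θ) + B * (e * P.ord (y i / y l)) : ℤ) : ℝ) := by
      push_cast
      rw [← h6, hB]
      push_cast
      have h8 := mul_le_mul_of_nonneg_left h4 hs0.le
      have h9 := mul_le_mul_of_nonneg_left h5 (show (0 : ℝ) ≤ m * e by positivity)
      linarith
    exact_mod_cast h7
  -- the powers
  obtain ⟨w', hw'⟩ : ∃ w' : Fin (n - j) ⊕ Fin j → L, w' = fun i =>
    if i ∈ Finset.univ.image (Sum.inr : Fin j → Fin (n - j) ⊕ Fin j) then w i ^ s else w i :=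
    ⟨_, rfl⟩
  have hpow := dg_pow_all (k := ℂ) (by rw [hnL, hcard]) w (Finset.univ.image Sum.inr) (q := s)
    hs1 hdg0
  rw [Finset.card_image_of_injective _ Sum.inr_injective, Finset.card_univ, Fintype.card_fin,
    ← hw'] at hpow
  have hw'r : ∀ b, w' (Sum.inr b) = F b.succ / F 0 := by
    intro b
    rw [hw', hF]
    simp only [Finset.mem_image, Finset.mem_univ, true_and, Sum.inr.injEq, exists_eq, if_true]
    rw [div_div_div_cancel_right₀ (pow_ne_zero _ hθL), ← div_pow, hw, Sum.elim_inr]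
  have hw'l : ∀ b, w' (Sum.inl b) = algebraMap K L (u b) := by
    intro b
    rw [hw', hw]
    simp
  obtain ⟨v, hv1, hv2, hv3⟩ := replace_all (k := ℂ) (K := L) (ι := Fin (n - j) ⊕ Fin j)
    (by rw [hnL, hcard]) (S := affL L y i) (Set.finite_range _)
    ⟨i, by simp only []; rw [div_self hi, map_one]⟩ (B := B)
    (f₀ := F 0) (hF0 0) (hFbnd 0)
    (Finset.univ.image Sum.inr) w'
    (Sum.elim (fun _ => 1) fun b => F b.succ) (by
      intro b hb
      obtain ⟨a, -, rfl⟩ := Finset.mem_image.1 hb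
      exact hF0 _) (by
      intro b hb
      obtain ⟨a, -, rfl⟩ := Finset.mem_image.1 hb
      exact hFbnd _) (by
      intro b hb
      obtain ⟨a, -, rfl⟩ := Finset.mem_image.1 hb
      exact hw'r a)
  have hvK : ∀ k, ∃ v' ∈ Submodule.span ℂ (affS y i), algebraMap K L v' = v (Sum.inr k) := by
    intro k
    have h1 := hv1 (Sum.inr k) (Finset.mem_image_of_mem _ (Finset.mem_univ k))
    rw [affL_eq, Submodule.span_image] at h1
    obtain ⟨v', hv', h2⟩ := h1
    exact ⟨v', hv', h2⟩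
  choose v' hv'1 hv'2 using hvK
  obtain ⟨z, hz⟩ : ∃ z : Fin (n - j) ⊕ Fin j → K, z = Sum.elim u v' := ⟨_, rfl⟩
  have hzp : ∀ b, z b ∈ Submodule.span ℂ (affS y i) := by
    intro b
    rw [hz]
    rcases b with b | b
    · exact hu b
    · exact hv'1 b
  have hvz : v = fun b => algebraMap K L (z b) := by
    funext b
    rw [hz]
    rcases b with b | b
    · rw [hv2 (Sum.inl b) (by simp), hw'l]
      rfl
    · exact (hv'2 b).symm
  have hdz : dg ℂ z ≤ δ := by
    let e : Fin (n - j) ⊕ Fin j ≃ Fin n := finSumFinEquiv.trans (finCongr (by omega))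
    have h1 := hδ (z ∘ e.symm) fun a => hzp _
    have h2 : dg ℂ (z ∘ e.symm) = dg ℂ z := by
      unfold dg
      rw [e.symm.surjective.range_comp]
    rwa [h2] at h1
  rw [hvz, dg_tower, Finset.card_image_of_injective _ Sum.inr_injective, Finset.card_univ,
    Fintype.card_fin, hpow, hB] at hv3
  exact hv3.trans (Nat.mul_le_mul_left _ (Nat.mul_le_mul_right _ hdz))

/-- the degrees, with some constant -/
theorem cover_deg0 (hy : NormalModel y) (hn : Algebra.trdeg ℂ K = n) {i : Fin (N + 1)}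
    (hi : y i ≠ 0) {A T : Place ℂ K → ℚ}
    (hAP : ∀ P l, IsPrimeDivisor y P → Centred y l P → A P = P.ord (y i / y l))
    {δ : ℕ} (hδ : ∀ v : Fin n → K, (∀ a, v a ∈ Submodule.span ℂ (affS y i)) → dg ℂ v ≤ δ)
    {f : K} (hf : f ≠ 0) {β : ℕ} (hfβ : ∀ P, IsPrimeDivisor y P → T P ≤ P.ord f + β * A P)
    {m : ℕ} {j : ℕ}
    (hj : j ≤ n) {u : Fin (n - j) → K} (hu : ∀ a, u a ∈ Submodule.span ℂ (affS y i))
    {h : Fin (j + 1) → L} (h0 : ∀ i, h i ≠ 0) (hh : ∀ i, CSec y T m (h i)) :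
    dg ℂ (Sum.elim (fun a => algebraMap K L (u a)) fun i : Fin j => h i.succ / h 0) ≤
      (m * β) ^ j * (δ * finrank K L) := by
  have h1 := deg_dom (L := L) hy hn hi hAP hδ (s := 1) (a := β) le_rfl (θ := f⁻¹) (inv_ne_zero hf)
    (κ := fun _ => 0) (T := T) (m := m) (fun P hP => by
      rw [P.ord_inv]
      have h2 := hfβ P hP
      have h3 : (T P : ℝ) ≤ (P.ord f : ℝ) + β * (A P : ℝ) := by exact_mod_cast h2
      push_cast
      linarith) hj hu h0 (fun b Q P e hov hP => by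
      have h2 := hh b Q P e hov hP
      have h3 : (0 : ℝ) ≤ (Q.ord (h b) : ℝ) + e * (m * (T P : ℝ)) := by exact_mod_cast h2
      rw [mul_zero, mul_zero]
      exact h3)
  rw [one_pow, one_mul] at h1
  exact h1

/-- **The degrees of the maps given by the sections on a covering.** -/
theorem cover_deg (hy : NormalModel y) (hn : Algebra.trdeg ℂ K = n) (hn0 : 0 < n)
    {Δ : Place ℂ K → ℚ} (hΔ : Effective y Δ) {μ : ℝ} (hμ : 0 ≤ μ)
    (hpp : PositiveProductLe y n Δ 1 μ) {x : Fin n → K} {E : Fin n → Derivation ℂ K K}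
    (hE : ∀ i j, E i (x j) = if i = j then 1 else 0)
    {c : Place ℂ K → ℤ} (hcfin : {P | IsPrimeDivisor y P ∧ c P ≠ 0}.Finite)
    (hc : ∀ P, IsPrimeDivisor y P → ∀ (m : ℕ)
      (ω : (Fin n → Derivation ℂ K K) → K), IsPluri m ω → ∀ r : ℚ, OrdGe P ω r ↔
        (ω E = 0 ∨ r ≤ m * c P + P.ord (ω E))) {i : Fin (N + 1)} (hi : y i ≠ 0) {δ : ℕ}
    (hδ : ∀ v : Fin n → K, (∀ a, v a ∈ Submodule.span ℂ (affS y i)) → dg ℂ v ≤ δ) {m : ℕ}
    (hm : 1 ≤ m) {j : ℕ} (hj : j ≤ n) {u : Fin (n - j) → K}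
    (hu : ∀ a, u a ∈ Submodule.span ℂ (affS y i)) {h : Fin (j + 1) → L}
    (h0 : ∀ i, h i ≠ 0) (hh : ∀ i, CSec y (fun P => c P + Δ P) m (h i)) :
    (dg ℂ (Sum.elim (fun a => algebraMap K L (u a)) fun i : Fin j => h i.succ / h 0) : ℝ) ≤
      finrank K L * δ * (m * μ) ^ j := by
  classical
  have hess := hy.ess
  obtain ⟨A, hA, hAP⟩ := exists_hyp hy hi
  obtain ⟨T, hT⟩ : ∃ T : Place ℂ K → ℚ, T = fun P => c P + Δ P := ⟨_, rfl⟩
  rw [← hT] at hh
  have hTfin : {P | IsPrimeDivisor y P ∧ T P ≠ 0}.Finite := by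
    refine (hcfin.union hΔ.2).subset ?_
    rintro P ⟨hP, h0⟩
    by_cases h1 : c P = 0
    · right
      refine ⟨hP, fun h2 => h0 ?_⟩
      rw [hT]
      simp only []
      rw [h1, h2, Int.cast_zero, zero_add]
    · exact Or.inl ⟨hP, h1⟩
  have hmr : (0 : ℝ) < m := by exact_mod_cast hm
  -- the descent of the powers
  have hdesc : ∀ (q : ℕ) (i : Fin (j + 1)) (Q : Place ℂ L) (P : Place ℂ K) (e : ℕ), Over Q P e →
      ∃ (M : ℕ) (k : K), 1 ≤ M ∧ k ≠ 0 ∧ Sec y T A (M * (q * m)) 0 k ∧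
        (e : ℤ) * P.ord k ≤ M * Q.ord (h i ^ q) := by
    intro q i Q P e hov
    obtain ⟨M, k, hM, hk0, hk, hk1⟩ := descend (T := T) (A := A) (m := q * m) (b := 0)
      (pow_ne_zero q (h0 i)) (fun Q P e hov hP => by
        have h1 := (hh i).pow q Q P e hov hP
        push_cast at h1 ⊢
        rw [zero_mul, add_zero]
        exact h1) hov
    rw [mul_zero] at hk
    exact ⟨M, k, hM, hk0, hk, hk1⟩
  have hps : PsT y T A := by
    intro t ht m0
    obtain ⟨P0, hP0⟩ := exists_prime hy hn hn0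
    obtain ⟨Q0, e0, hQ0⟩ := exists_above (k := ℂ) (K := K) (L := L) P0
    obtain ⟨M, k, hM, hk0, hk, -⟩ := hdesc (m0 + 1) 0 Q0 P0 e0 hQ0
    refine ⟨M * ((m0 + 1) * m), 0, k, ?_, ?_, hk0, hk⟩
    · calc m0 ≤ (m0 + 1) * 1 := by omega
        _ ≤ (m0 + 1) * m := Nat.mul_le_mul_left _ hm
        _ ≤ M * ((m0 + 1) * m) := Nat.le_mul_of_pos_left _ hM
    · rw [Nat.cast_zero]
      positivity
  obtain ⟨d, hd⟩ : ∃ d, d = finrank K L := ⟨_, rfl⟩
  rw [← hd]
  obtain ⟨w, hw⟩ : ∃ w : Fin (n - j) ⊕ Fin j → L, w = Sum.elim (fun a => algebraMap K L (u a))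
    fun i : Fin j => h i.succ / h 0 := ⟨_, rfl⟩
  rw [← hw]
  -- the bound for all `ε`
  have hmain : ∀ ε : ℝ, 0 < ε → (dg ℂ w : ℝ) ≤ d * δ * (m * (μ + 2 * ε)) ^ j := by
    intro ε hε
    obtain ⟨s, a, M, θ, κ, t, m0, hs1, hM1, hθ0, ht, has, hθ, hlow⟩ :=
      exists_theta hy hn hn0 hi hTfin hA hAP hμ (by
        rw [hT]
        exact sec_deg hA hE hc hpp) hps hε
    have hs0 : (0 : ℝ) < s := by exact_mod_cast hs1
    have h1 := deg_dom (L := L) hy hn hi hAP hδ hs1 hθ0 (κ := fun P => (κ P : ℝ) / M) (T := T)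
      (m := m) hθ hj hu h0 (fun b Q P e hov hP => by
        obtain ⟨M', k, hM', hk0, hk, hk1⟩ := hdesc (m0 + 1) b Q P e hov
        have h4 := hlow (M' * ((m0 + 1) * m)) 0 (by
          calc m0 ≤ (m0 + 1) * 1 := by omega
            _ ≤ (m0 + 1) * m := Nat.mul_le_mul_left _ hm
            _ ≤ M' * ((m0 + 1) * m) := Nat.le_mul_of_pos_left _ hM') (by
          rw [Nat.cast_zero]
          positivity) k hk0 hk P hP
        have h5 : (e : ℝ) * (P.ord k : ℝ) ≤ M' * (((m0 + 1 : ℕ) : ℝ) * (Q.ord (h b) : ℝ)) := by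
          have h6 := hk1
          rw [Q.ord_pow] at h6
          exact_mod_cast h6
        have h6 := mul_le_mul_of_nonneg_left h4 (show (0 : ℝ) ≤ e from Nat.cast_nonneg _)
        have hpos : (0 : ℝ) < M' * ((m0 + 1 : ℕ) : ℝ) := by
          have : (0 : ℝ) < M' := by exact_mod_cast hM'
          positivity
        have h7 : (M' * ((m0 + 1 : ℕ) : ℝ)) * ((e : ℝ) * (m * ((κ P : ℝ) / M))) ≤
            (M' * ((m0 + 1 : ℕ) : ℝ)) * ((Q.ord (h b) : ℝ) + e * (m * (T P : ℝ))) := by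
          push_cast at h6 h5 ⊢
          linarith
        exact le_of_mul_le_mul_left h7 hpos)
    rw [← hw, ← hd] at h1
    have h3 : (s : ℝ) ^ j * dg ℂ w ≤ ((m : ℝ) * a) ^ j * (δ * d) := by exact_mod_cast h1
    have h4 : (m : ℝ) * a ≤ s * (m * (μ + 2 * ε)) := by
      have := mul_le_mul_of_nonneg_left has hmr.le
      linarith
    have h5 : ((m : ℝ) * a) ^ j ≤ (s * (m * (μ + 2 * ε))) ^ j :=
      pow_le_pow_left₀ (by positivity) h4 j
    have h6 : (s : ℝ) ^ j * dg ℂ w ≤ s ^ j * (d * δ * (m * (μ + 2 * ε)) ^ j) := by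
      refine h3.trans ?_
      have h7 := mul_le_mul_of_nonneg_right h5 (show (0 : ℝ) ≤ δ * d by positivity)
      refine h7.trans (le_of_eq ?_)
      rw [mul_pow]
      ring
    exact le_of_mul_le_mul_left h6 (by positivity)
  -- the limit
  have hlim : Filter.Tendsto (fun ε : ℝ => (d : ℝ) * δ * (m * (μ + 2 * ε)) ^ j)
      (nhdsWithin 0 (Set.Ioi 0)) (nhds (d * δ * (m * (μ + 2 * 0)) ^ j)) := by
    refine Filter.Tendsto.mono_left ?_ nhdsWithin_le_nhds
    exact ((((Filter.tendsto_id.const_mul 2).const_add _).const_mul _).pow j).const_mul _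
  rw [mul_zero, add_zero] at hlim
  exact ge_of_tendsto hlim (Filter.eventually_of_mem self_mem_nhdsWithin fun ε hε => hmain ε hε)

end Run7.h612.AB
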