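import Pool.Agent.N110.RK.Stat

/-!
Definitions: the sections of the pull back of `K_X + Δ` to a covering of `X`, the fields of the
fibrations of `X`, and the degrees of their fibres.
-/

set_option autoImplicit false

open FF Pool.Agent.W602.GT Pool.Agent.Y172 Pool.Agent.R887 Pool.Agent.N110

namespace Run7.h612.AB

section

variable {K : Type} [Field K] [Algebra ℂ K] {N : ℕ}

/-- Let `π : X' → X` be the normalization of `X` in the finite extension `L` of the function field
`K`, and let `Δ'` be the divisor on `X'` with `K_X' + Δ' = π^* (K_X + Δ)`: its coefficient along a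
prime divisor `Q` of `X'` over the prime divisor `P` of `X`, with ramification index `e`, is
`e Δ P - (e - 1)`. The form `ω` is a section of `m (K_X' + Δ')`: it is an `m`-canonical form with
order at least `- m (e Δ P - (e - 1))` along all these `Q`. -/
def IsCoverSection {L : Type} [Field L] [Algebra ℂ L] [Algebra K L] [IsScalarTower ℂ K L]
    (y : Fin (N + 1) → K) (n : ℕ) (Δ : Place ℂ K → ℚ) (m : ℕ)
    (ω : (Fin n → Derivation ℂ L L) → L) : Prop :=
  IsPluri m ω ∧ ∀ (Q : Place ℂ L) (P : Place ℂ K) (e : ℕ), IsPrimeDivisor y P →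
    LiesOver (IsScalarTower.toAlgHom ℂ K L) Q P e → OrdGe Q ω (-(m * (e * Δ P - (e - 1))))

/-- The plurigenus `P_m (X', Δ')`: the dimension of the space of the sections of
`m (K_X' + Δ') = m π^* (K_X + Δ)` on the normalization `π : X' → X` of `X` in `L`. -/
noncomputable def coverPlurigenus (L : Type) [Field L] [Algebra ℂ L] [Algebra K L]
    [IsScalarTower ℂ K L] (y : Fin (N + 1) → K) (n : ℕ) (Δ : Place ℂ K → ℚ) (m : ℕ) : ℕ :=
  Module.finrank ℂ (Submodule.span ℂ
    {ω : (Fin n → Derivation ℂ L L) → L | IsCoverSection y n Δ m ω})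

/-- The covering `X' → X` is étale in codimension one: it is unramified over all prime divisors of
`X`. -/
def EtaleInCodimOne (L : Type) [Field L] [Algebra ℂ L] [Algebra K L] [IsScalarTower ℂ K L]
    (y : Fin (N + 1) → K) : Prop :=
  ∀ (Q : Place ℂ L) (P : Place ℂ K) (e : ℕ), IsPrimeDivisor y P →
    LiesOver (IsScalarTower.toAlgHom ℂ K L) Q P e → e = 1

/-- The subfield `E` of the function field `K` is algebraically closed in `K`: `E` is the function
field of the base `B` of a fibration `X ⇢ B`, a dominant rational map with connected fibres. -/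
def IsFibration (E : IntermediateField ℂ K) : Prop := ∀ x : K, IsAlgebraic E x → x ∈ E

/-- Let `X' → X` be the covering with the function field `L`, and let `X' ⇢ B' → B` be the Stein
factorization of the composition of `X' → X` and of the fibration `X ⇢ B` with the field `E`: the
field of `B'` is the algebraic closure `E'` of `E` in `L`. This is the degree of `B'` over `B`: the
degree over `K` of the compositum of `K` and `E'`, which is equal to the degree of `E'` over `E`
because `E` is algebraically closed in `K`. If `X' → X` is an étale Galois covering with group `G`, a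
quotient of the fundamental group of `X`, then it is the index in `G` of the image of the
fundamental group of a general fibre of `X ⇢ B`. -/
noncomputable def baseDegree (L : Type) [Field L] [Algebra ℂ L] [Algebra K L]
    [IsScalarTower ℂ K L] (E : IntermediateField ℂ K) : ℕ :=
  Module.finrank K (IntermediateField.adjoin K {z : L | IsAlgebraic E z})

/-- The degree of `X`, in the projective space of the coordinates `y`, is at most `δ`, `n` being the
dimension of `X`: `n` pencils of hyperplane sections define a rational map of degree at most `δ`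
from `X` to the `n`-dimensional affine space, whenever they define a generically finite one. -/
def DegreeLe (y : Fin (N + 1) → K) (n : ℕ) (δ : ℕ) : Prop :=
  ∀ v : Fin n → K, (∀ a, IsPencil y (v a)) →
    Module.finrank (IntermediateField.adjoin ℂ (Set.range v)) K ≤ δ

/-- The plurigenera `P_m (X', Δ')` of all coverings `X' → X` are finite for all `m ≥ 1`, and zero if
the Kodaira dimension of `K_X + Δ` is `-∞`. -/
def FinitePlurigenera (y : Fin (N + 1) → K) (n : ℕ) (Δ : Place ℂ K → ℚ) : Prop :=
  ∀ (L : Type) [Field L] [Algebra ℂ L] [Algebra K L] [IsScalarTower ℂ K L]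
    [FiniteDimensional K L] (m : ℕ), 1 ≤ m →
    Module.Finite ℂ (Submodule.span ℂ
      {ω : (Fin n → Derivation ℂ L L) → L | IsCoverSection y n Δ m ω}) ∧
    (¬ KappaGe y n Δ 0 → coverPlurigenus L y n Δ m = 0)

/-- The Kodaira dimension of `K_X + Δ` is `k ≥ 0`, and `E` is the function field of the base `B` of the
Iitaka fibration `X ⇢ B`: it is algebraically closed in `K`, has transcendence degree `k`, and
contains the quotients of the sections of `m (K_X + Δ)` for all `m ≥ 1`. -/
def IsIitaka (y : Fin (N + 1) → K) (n : ℕ) (Δ : Place ℂ K → ℚ) (k : ℕ)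
    (E : IntermediateField ℂ K) : Prop :=
  KappaGe y n Δ k ∧ ¬ KappaGe y n Δ (k + 1) ∧ IsFibration E ∧ Algebra.trdeg ℂ E = k ∧
    ∀ (m : ℕ) (ω ω' : (Fin n → Derivation ℂ K K) → K) (D : Fin n → Derivation ℂ K K), 1 ≤ m →
      IsSection y n m (m • Δ) ω → IsSection y n m (m • Δ) ω' → ω D ≠ 0 → ω' D / ω D ∈ E

/-- The upper bound for the plurigenera of the coverings: `P_m (X', Δ')` is at most
`deg (B' / B) (k + δ max (1, m μ) ^ k)` for all coverings `X' → X` and all `m ≥ 1`, where
`X' ⇢ B' → B` is the Stein factorization of `X' ⇢ B`. -/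
def CoverPlurigeneraLe (y : Fin (N + 1) → K) (n : ℕ) (Δ : Place ℂ K → ℚ)
    (E : IntermediateField ℂ K) (k δ : ℕ) (μ : ℝ) : Prop :=
  ∀ (L : Type) [Field L] [Algebra ℂ L] [Algebra K L] [IsScalarTower ℂ K L]
    [FiniteDimensional K L] (m : ℕ), 1 ≤ m →
    (coverPlurigenus L y n Δ m : ℝ) ≤ baseDegree L E * (k + δ * max 1 (m * μ) ^ k)

/-- The plurigenera of the coverings grow as if the Kodaira dimension of `K_X + Δ` were at least
`ν`: for all fibrations `X ⇢ B` with `dim B < ν` and all real numbers `C` there are a covering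
`X' → X` and `m ≥ 1` such that `P_m (X', Δ')` is larger than `C deg (B' / B) m ^ dim B`, where
`X' ⇢ B' → B` is the Stein factorization of `X' ⇢ B`. -/
def CoverGrowth (y : Fin (N + 1) → K) (n : ℕ) (Δ : Place ℂ K → ℚ) (ν : ℕ) : Prop :=
  ∀ (E : IntermediateField ℂ K) (j : ℕ) (C : ℝ), IsFibration E → Algebra.trdeg ℂ E = j → j < ν →
    ∃ (L : Type) (_ : Field L) (_ : Algebra ℂ L) (_ : Algebra K L) (_ : IsScalarTower ℂ K L)
      (_ : FiniteDimensional K L) (m : ℕ), 1 ≤ m ∧
      C * (baseDegree L E * (m : ℝ) ^ j) < coverPlurigenus L y n Δ m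

/-- The same, with coverings which are étale in codimension one. -/
def EtaleCoverGrowth (y : Fin (N + 1) → K) (n : ℕ) (Δ : Place ℂ K → ℚ) (ν : ℕ) : Prop :=
  ∀ (E : IntermediateField ℂ K) (j : ℕ) (C : ℝ), IsFibration E → Algebra.trdeg ℂ E = j → j < ν →
    ∃ (L : Type) (_ : Field L) (_ : Algebra ℂ L) (_ : Algebra K L) (_ : IsScalarTower ℂ K L)
      (_ : FiniteDimensional K L) (m : ℕ), EtaleInCodimOne L y ∧ 1 ≤ m ∧
      C * (baseDegree L E * (m : ℝ) ^ j) < coverPlurigenus L y n Δ m

end

end Run7.h612.AB
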