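import Pool.Agent.Run7.h612.AB.Ineq
import Pool.Agent.Run7.h612.AB.Defs
import Pool.Agent.Y172.Dim2

/-!
Pluricanonical forms on coverings as functions.
-/

set_option autoImplicit false
set_option linter.overlappingInstances false
set_option linter.unusedSectionVars false

open FF Module Pool.Agent.W602.GT Pool.Agent.W603.LV Pool.Agent.W619.PQ
open Pool.Agent.Y172 Pool.Agent.Y191 Pool.Agent.R887
open Pool.Agent.N110 (affS)

namespace Run7.h612.AB

variable {K L : Type} [Field K] [Algebra ℂ K] [Field L] [Algebra ℂ L]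
  [Algebra K L] [IsScalarTower ℂ K L] [FiniteDimensional K L] {N : ℕ} {y : Fin (N + 1) → K} {n : ℕ}

theorem liesOver_iff {Q : Place ℂ L} {P : Place ℂ K} {e : ℕ} :
    LiesOver (IsScalarTower.toAlgHom ℂ K L) Q P e ↔ Over Q P e := Iff.rfl

/-- the function of a section on the covering -/
theorem cover_form (hy : NormalModel y) (hn : Algebra.trdeg ℂ K = n) {Δ : Place ℂ K → ℚ}
    {x : Fin n → K} {E : Fin n → Derivation ℂ K K} (hx : IsTranscendenceBasis ℂ x)
    (hE : ∀ i j, E i (x j) = if i = j then 1 else 0) {c : Place ℂ K → ℤ}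
    (hc : ∀ P, IsPrimeDivisor y P → ∀ (m : ℕ)
      (ω : (Fin n → Derivation ℂ K K) → K), IsPluri m ω → ∀ r : ℚ, OrdGe P ω r ↔
        (ω E = 0 ∨ r ≤ m * c P + P.ord (ω E))) {D : Fin n → Derivation ℂ L L}
    (hD : ∀ i f, D i (algebraMap K L f) = algebraMap K L (E i f)) {m : ℕ}
    {ω : (Fin n → Derivation ℂ L L) → L} (hω : IsCoverSection y n Δ m ω) (h0 : ω D ≠ 0) :
    CSec y (fun P => c P + Δ P) m (ω D) := by
  classical
  have hess := hy.ess
  have hessL : Algebra.EssFiniteType ℂ L := by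
    have h1 : Algebra.EssFiniteType K L := inferInstance
    exact Algebra.EssFiniteType.comp ℂ K L
  have hnL : Algebra.trdeg ℂ L = n := trdeg_up (K := K) hn
  intro Q P e hov hP
  have hPd : Divisorial n P := hP.divisorial hy hn
  have hQd : Divisorial n Q := divisorial_up hov hPd
  obtain ⟨w, G, i0, hl⟩ := exists_loc hn hPd
  obtain ⟨A, hA⟩ : ∃ A : Matrix (Fin n) (Fin n) K, A = Matrix.of fun i j => G i (x j) := ⟨_, rfl⟩
  have hG : G = fun i => ∑ j, A i j • E j := by
    funext i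
    rw [hA]
    exact (Pool.Agent.W73.PG.PULL.expand x hx E hE (G i)).symm
  obtain ⟨GG, hGG⟩ : ∃ GG : Fin n → Derivation ℂ L L,
      GG = fun i => ∑ j, (algebraMap K L).mapMatrix A i j • D j := ⟨_, rfl⟩
  have hGGl : ∀ i f, GG i (algebraMap K L f) = algebraMap K L (G i f) := by
    intro i f
    rw [hGG, hG]
    simp only []
    rw [sum_smul_apply, sum_smul_apply, map_sum]
    refine Finset.sum_congr rfl fun j _ => ?_
    rw [map_mul, hD, RingHom.mapMatrix_apply, Matrix.map_apply]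
  have hAd : A.det ≠ 0 := by
    have h2 := pluri_coord hx hE (frm_pluri w 1 1) G
    rw [frm_self hl.dual] at h2
    rw [hA]
    intro h0
    rw [h0, pow_one, zero_mul] at h2
    exact one_ne_zero h2
  have hAL : algebraMap K L A.det ≠ 0 := by rwa [Ne, map_eq_zero]
  -- the order of the determinant
  have hcP : P.ord A.det = c P := by
    have h1 : frm x 1 (1 : K) G = A.det := by
      unfold frm
      rw [mul_one, pow_one, hA]
    have h3 : ∀ r : ℚ, (r ≤ (P.ord A.det : ℚ)) ↔ r ≤ (c P : ℚ) := by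
      intro r
      have h4 := hc P hP 1 (frm x 1 (1 : K)) (frm_pluri x 1 1) r
      rw [ordGe_iff hl (frm_pluri x 1 1), frm_self hE, h1, P.ord_one] at h4
      simp only [hAd, one_ne_zero, false_or, Nat.cast_one, one_mul, Int.cast_zero, add_zero] at h4
      exact h4
    have h4 : (P.ord A.det : ℚ) = (c P : ℚ) :=
      le_antisymm ((h3 _).1 le_rfl) ((h3 _).2 le_rfl)
    exact_mod_cast h4
  have h2 : ω GG = algebraMap K L A.det ^ m * ω D := by
    conv_lhs => rw [hGG]
    have h3 := hω.1 ((algebraMap K L).mapMatrix A) D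
    rw [h3, RingHom.map_det]
  have h3 : ω GG ≠ 0 := by
    rw [h2]
    exact mul_ne_zero (pow_ne_zero _ hAL) h0
  have h4 := down_ge hnL hov hQd hl hGGl hω.1 (c := ((-(m * (e * Δ P - (e - 1))) : ℚ) : ℝ))
    (fun F hF => by
      rcases hω.2 Q P e hP (liesOver_iff.2 hov) F hF with h5 | h5
      · exact Or.inl h5
      · right
        exact_mod_cast h5)
  have h5 := h4.resolve_left h3
  rw [h2, Q.ord_mul (pow_ne_zero _ hAL) h0, Q.ord_pow, hov.2, hcP] at h5
  have h6 : (0 : ℝ) ≤ (((Q.ord (ω D) : ℚ) + e * (m * ((c P : ℚ) + Δ P)) : ℚ) : ℝ) := by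
    push_cast at h5 ⊢
    linarith
  have h7 : (0 : ℚ) ≤ (Q.ord (ω D) : ℚ) + e * (m * ((c P : ℚ) + Δ P)) := by exact_mod_cast h6
  exact h7

/-- sections of `m (K_X + Δ)` are sections on the trivial covering -/
theorem isCoverSection_self {Δ : Place ℂ K → ℚ} {m : ℕ} {ω : (Fin n → Derivation ℂ K K) → K}
    (hω : IsSection y n m (m • Δ) ω) : IsCoverSection (L := K) y n Δ m ω := by
  refine ⟨hω.1, fun Q P e hP hov => ?_⟩
  obtain ⟨t, ht0, ht⟩ := P.surj
  obtain ⟨s, hs0, hs⟩ := Q.surj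
  have h1 := hov.2
  have he : e = 1 := by
    have h2 : Q.ord s = e * P.ord s := h1 s
    rw [hs] at h2
    have h3 : (e : ℤ) ∣ 1 := ⟨_, h2⟩
    have h4 := Int.natCast_dvd_natCast.1 (by exact_mod_cast h3 : ((e : ℤ) ∣ ((1 : ℕ) : ℤ)))
    exact Nat.dvd_one.1 h4
  have hQP : Q = P := by
    apply Place.ext
    funext f
    have h2 : Q.ord f = e * P.ord f := h1 f
    rw [h2, he, Nat.cast_one, one_mul]
  rw [hQP, he]
  have h2 := hω.2 P hP
  rw [Pi.smul_apply, nsmul_eq_mul] at h2
  have h3 : (-(m * ((1 : ℕ) * Δ P - ((1 : ℕ) - 1))) : ℚ) = -(m * Δ P) := by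
    push_cast
    ring
  rw [h3]
  exact h2

end Run7.h612.AB
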