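import Mathlib

/-!
Derivations and algebraic elements.
-/

set_option autoImplicit false

open Polynomial

namespace Run7.h612.AB

variable {M : Type} [Field M]

/-- the derivative of an algebraic element -/
theorem der_alg [CharZero M] (D : Derivation ℤ M M) (S : Subfield M) (hS : ∀ x ∈ S, D x ∈ S) {a : M}
    (ha : IsAlgebraic S a) : D a ∈ Subfield.closure ((S : Set M) ∪ {a}) := by
  classical
  have hS1 : ∀ x ∈ S, x ∈ Subfield.closure ((S : Set M) ∪ {a}) := fun x hx =>
    Subfield.subset_closure (Set.mem_union_left _ hx)
  have ha1 : a ∈ Subfield.closure ((S : Set M) ∪ {a}) :=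
    Subfield.subset_closure (Set.mem_union_right _ (Set.mem_singleton a))
  have hint : IsIntegral S a := ha.isIntegral
  obtain ⟨P, hP⟩ : ∃ P : S[X], P = minpoly S a := ⟨_, rfl⟩
  have h0 : aeval a P = 0 := by rw [hP]; exact minpoly.aeval _ _
  have hd : aeval a (derivative P) ≠ 0 := by
    rw [hP]
    have : CharZero S := inferInstance
    exact (minpoly.irreducible hint).separable.aeval_derivative_ne_zero (minpoly.aeval _ _)
  have hmem : ∀ Q : S[X], aeval a Q ∈ Subfield.closure ((S : Set M) ∪ {a}) := by
    intro Q
    rw [aeval_eq_sum_range]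
    refine sum_mem fun i _ => ?_
    rw [Algebra.smul_def]
    exact mul_mem (hS1 _ (Q.coeff i).2) (pow_mem ha1 _)
  -- the derivative of a polynomial in `a`
  have key : ∀ Q : S[X], D (aeval a Q) - aeval a (derivative Q) * D a ∈
      Subfield.closure ((S : Set M) ∪ {a}) := by
    intro Q
    induction Q using Polynomial.induction_on' with
    | add p q hp hq =>
      rw [map_add, map_add, map_add, map_add]
      have : D (aeval a p) + D (aeval a q) - (aeval a (derivative p) + aeval a (derivative q)) * D a =
        (D (aeval a p) - aeval a (derivative p) * D a) +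
          (D (aeval a q) - aeval a (derivative q) * D a) := by ring
      rw [this]
      exact add_mem hp hq
    | monomial n c =>
      rw [aeval_monomial, derivative_monomial, aeval_monomial, Derivation.leibniz,
        Derivation.leibniz_pow]
      have hc : (algebraMap S M) c = (c : M) := rfl
      have hc' : (algebraMap S M) (c * (n : S)) = (c : M) * n := by
        rw [map_mul, map_natCast]; rfl
      rw [hc, hc', smul_eq_mul, smul_eq_mul, smul_eq_mul, nsmul_eq_mul]
      have : (c : M) * (n * (a ^ (n - 1) * D a)) + a ^ n * D (c : M) -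
          (c : M) * n * a ^ (n - 1) * D a = a ^ n * D (c : M) := by ring
      rw [this]
      exact mul_mem (pow_mem ha1 _) (hS1 _ (hS _ c.2))
  have h1 := key P
  rw [h0, map_zero, zero_sub] at h1
  have h2 := neg_mem h1
  rw [neg_neg] at h2
  have h3 : D a = (aeval a (derivative P) * D a) * (aeval a (derivative P))⁻¹ := by
    field_simp
  rw [h3]
  exact mul_mem h2 (inv_mem (hmem _))

theorem alg_mono {S T : Subfield M} (h : S ≤ T) {a : M} (ha : IsAlgebraic S a) :
    IsAlgebraic T a := by
  obtain ⟨P, hP, hPa⟩ := ha
  refine ⟨P.map (Subfield.inclusion h), ?_, ?_⟩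
  · rwa [Ne, Polynomial.map_eq_zero_iff (Subfield.inclusion h).injective]
  · rw [aeval_def, eval₂_map]
    exact hPa

/-- the algebraic closure of a subfield -/
def acl (S : Subfield M) : Subfield M := (algebraicClosure S M).toSubfield

theorem mem_acl {S : Subfield M} {a : M} : a ∈ acl S ↔ IsAlgebraic S a :=
  mem_algebraicClosure_iff

theorem le_acl (S : Subfield M) : S ≤ acl S := fun x hx =>
  mem_acl.2 (isAlgebraic_algebraMap (⟨x, hx⟩ : S))

theorem acl_mono {S T : Subfield M} (h : S ≤ T) : acl S ≤ acl T := fun _ hx =>
  mem_acl.2 (alg_mono h (mem_acl.1 hx))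

theorem acl_acl {S : Subfield M} {a : M} (ha : IsAlgebraic (acl S) a) : a ∈ acl S := by
  have h1 : IsAlgebraic (algebraicClosure S M) a := ha
  rw [mem_acl]
  exact h1.restrictScalars S

/-- the algebraic closure is stable under derivations -/
theorem der_acl [CharZero M] (D : Derivation ℤ M M) (S : Subfield M) (hS : ∀ x ∈ S, D x ∈ S)
    {a : M} (ha : a ∈ acl S) : D a ∈ acl S := by
  have h1 := der_alg D S hS (mem_acl.1 ha)
  refine (Subfield.closure_le.2 ?_) h1
  rintro x (hx | hx)
  · exact le_acl S hx
  · rw [Set.mem_singleton_iff] at hx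
    rw [hx]
    exact ha

/-- the derivative is zero on elements which are algebraic over constants -/
theorem der_alg_zero [CharZero M] (D : Derivation ℤ M M) (S : Subfield M)
    (hS : ∀ x ∈ S, D x = 0) {a : M} (ha : IsAlgebraic S a) : D a = 0 := by
  classical
  have hint : IsIntegral S a := ha.isIntegral
  obtain ⟨P, hP⟩ : ∃ P : S[X], P = minpoly S a := ⟨_, rfl⟩
  have h0 : aeval a P = 0 := by rw [hP]; exact minpoly.aeval _ _
  have hd : aeval a (derivative P) ≠ 0 := by
    rw [hP]
    have : CharZero S := inferInstance
    exact (minpoly.irreducible hint).separable.aeval_derivative_ne_zero (minpoly.aeval _ _)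
  have key : ∀ Q : S[X], D (aeval a Q) = aeval a (derivative Q) * D a := by
    intro Q
    induction Q using Polynomial.induction_on' with
    | add p q hp hq =>
      rw [map_add, map_add, map_add, map_add, hp, hq]
      ring
    | monomial n c =>
      rw [aeval_monomial, derivative_monomial, aeval_monomial, Derivation.leibniz,
        Derivation.leibniz_pow]
      have hc : (algebraMap S M) c = (c : M) := rfl
      have hc' : (algebraMap S M) (c * (n : S)) = (c : M) * n := by
        rw [map_mul, map_natCast]; rfl
      rw [hc, hc', smul_eq_mul, smul_eq_mul, smul_eq_mul, nsmul_eq_mul, hS _ c.2]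
      ring
  have h1 := key P
  rw [h0, map_zero] at h1
  exact (mul_eq_zero.1 h1.symm).resolve_left hd

end Run7.h612.AB
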