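import Pool.Agent.Run7.h612.AB.MinDeg
import Pool.Agent.R887.Kap

/-!
Linear disjointness and the degrees over the fields of sections and pencils.
-/

set_option autoImplicit false

open Module MvPolynomial Pool.Agent.R887

namespace Run7.h612.AB

section

variable {F L : Type} [Field F] [Field L] [Algebra F L]

open scoped IntermediateField.algebraAdjoinAdjoin in
/-- linear disjointness -/
theorem disj_alg (G : IntermediateField F L) {a : Type} {u : a → L}
    (hu : AlgebraicIndependent G u) {κ : Type} [Fintype κ] {β : κ → L} (hβG : ∀ i, β i ∈ G)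
    (hβ : LinearIndependent F β) :
    LinearIndependent (IntermediateField.adjoin F (Set.range u)) β := by
  classical
  rw [← LinearIndependent.iff_fractionRing (Algebra.adjoin F (Set.range u))
    (IntermediateField.adjoin F (Set.range u)), Fintype.linearIndependent_iff]
  intro g hg
  have h1 : ∀ i, ∃ P : MvPolynomial a F, aeval u P = (g i : L) := by
    intro i
    have h0 : ∀ x, x ∈ Algebra.adjoin F (Set.range u) → ∃ P : MvPolynomial a F, aeval u P = x := by
      intro x hx
      rw [Algebra.adjoin_range_eq_range_aeval] at hx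
      exact hx
    exact h0 _ (g i).2
  choose P hP using h1
  obtain ⟨Q, hQ⟩ : ∃ Q : MvPolynomial a G, Q = ∑ i, C (⟨β i, hβG i⟩ : G) *
    MvPolynomial.map (algebraMap F G) (P i) := ⟨_, rfl⟩
  have hQ0 : aeval u Q = 0 := by
    rw [hQ, map_sum, ← hg]
    refine Finset.sum_congr rfl fun i _ => ?_
    rw [map_mul, aeval_C, aeval_map_algebraMap, hP, Algebra.smul_def]
    exact mul_comm _ _
  have hQ1 : Q = 0 := (injective_iff_map_eq_zero _).1 hu Q hQ0
  intro i
  have h3 : P i = 0 := by
    ext s
    have h4 := congrArg (coeff s) hQ1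
    rw [hQ, coeff_sum, coeff_zero] at h4
    have h5 : ∑ i, coeff s (P i) • β i = 0 := by
      have h6 := congrArg (algebraMap G L) h4
      rw [map_sum, map_zero] at h6
      rw [← h6]
      refine Finset.sum_congr rfl fun i _ => ?_
      rw [coeff_C_mul, coeff_map, map_mul, Algebra.smul_def]
      exact mul_comm _ _
    rw [coeff_zero]
    exact Fintype.linearIndependent_iff.1 hβ _ h5 i
  refine Subtype.ext ?_
  rw [← hP, h3, map_zero]
  rfl

end

theorem finrank_tower {L : Type} [Field L] {A R : Subfield L} (h : A ≤ R) (hfin : FiniteDimensional A L) {κ : Type}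
    [Fintype κ] {β : κ → L} (hβR : ∀ i, β i ∈ R) (hβ : LinearIndependent A β) :
    Fintype.card κ * finrank R L ≤ finrank A L := by
  let _ : Algebra A R := (Subfield.inclusion h).toAlgebra
  have hst : IsScalarTower A R L := IsScalarTower.of_algebraMap_eq fun x => rfl
  have h1 := finrank_mul_finrank A R L
  have h2 : FiniteDimensional A R := FiniteDimensional.left A R L
  rw [← h1]
  refine Nat.mul_le_mul_right _ ?_
  have h3 : LinearIndependent A (fun i => (⟨β i, hβR i⟩ : R)) := by
    rw [Fintype.linearIndependent_iff] at hβ ⊢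
    intro g hg
    refine hβ g ?_
    have h4 := congrArg (Subtype.val : R → L) hg
    rw [AddSubmonoidClass.coe_finsetSum] at h4
    exact h4
  exact h3.fintype_card_le_finrank

variable {L : Type} [Field L] [Algebra ℂ L]

open scoped IntermediateField.algebraAdjoinAdjoin in
/-- **The degree over the field of sections and pencils.** -/
theorem disj_bound {R : Subfield L} {j q r : ℕ} {f : Fin j → L} {u : Fin q → L}
    (hfR : ∀ a, f a ∈ R) (huR : ∀ a, u a ∈ R) (hC : ∀ c, algebraMap ℂ L c ∈ R)
    (hind : AlgebraicIndependent ℂ (Sum.elim u f)) {β : Fin r → L} (hβR : ∀ i, β i ∈ R)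
    (hβf : ∀ i, IsAlgebraic (IntermediateField.adjoin ℂ (Set.range f)) (β i))
    (hβ : LinearIndependent (IntermediateField.adjoin ℂ (Set.range f)) β)
    (hdg : dg ℂ (Sum.elim u f) ≠ 0) :
    r * finrank R L ≤ dg ℂ (Sum.elim u f) := by
  have h1 := AlgebraicIndependent.sumElim_iff.1 hind
  have h2 : AlgebraicIndependent (IntermediateField.adjoin ℂ (Set.range f)) u :=
    h1.2.extendScalars _
  have h3 := h2.algebraicClosure
  have h4 := disj_alg _ h3 (fun i => mem_algebraicClosure_iff.2 (hβf i)) hβ
  have hfin := finite_of_dg hdg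
  have h5 : (IntermediateField.adjoin ℂ (Set.range (Sum.elim u f))).toSubfield =
      (IntermediateField.adjoin (IntermediateField.adjoin ℂ (Set.range f))
        (Set.range u)).toSubfield := by
    have h6 := IntermediateField.adjoin_adjoin_left ℂ (Set.range f) (Set.range u)
    rw [Set.Sum.elim_range, Set.union_comm, ← h6]
    rfl
  have h6 := finrank_tower (A := (IntermediateField.adjoin (IntermediateField.adjoin ℂ (Set.range f))
      (Set.range u)).toSubfield) (R := R) (β := β) (by
    rw [← h5]
    refine Subfield.closure_le.2 ?_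
    rintro x (⟨c, rfl⟩ | ⟨a, rfl⟩)
    · exact hC c
    · rcases a with a | a
      · exact huR a
      · exact hfR a) (by
    rw [← h5]
    exact hfin) hβR h4
  rw [Fintype.card_fin, ← h5] at h6
  exact h6

/-- the lemma on minimal degrees in a bigger field -/
theorem min_deg_up {ι : Type} [Fintype ι] {v : ι → L} {o : ι} (ho : v o = 1) {j : ℕ} (hj : 1 ≤ j)
    (htr : Algebra.trdeg ℂ (IntermediateField.adjoin ℂ (Set.range v)) = j)
    (hli : LinearIndependent ℂ v) :
    ∃ (f : Fin j → L) (c : Fin j → ι → ℂ) (β : Fin (Fintype.card ι - j) → L),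
      (∀ a, f a = ∑ l, c a l • v l) ∧ AlgebraicIndependent ℂ f ∧
      (∀ i, β i ∈ IntermediateField.adjoin ℂ (Set.range v)) ∧
      (∀ i, IsAlgebraic (IntermediateField.adjoin ℂ (Set.range f)) (β i)) ∧
      LinearIndependent (IntermediateField.adjoin ℂ (Set.range f)) β := by
  classical
  obtain ⟨M, hM⟩ : ∃ M : IntermediateField ℂ L, M = IntermediateField.adjoin ℂ (Set.range v) :=
    ⟨_, rfl⟩
  rw [← hM] at htr ⊢
  have hvM : ∀ l, v l ∈ M := fun l => by
    rw [hM]
    exact IntermediateField.subset_adjoin _ _ ⟨l, rfl⟩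
  obtain ⟨v', hv'⟩ : ∃ v' : ι → M, v' = fun l => ⟨v l, hvM l⟩ := ⟨_, rfl⟩
  have hvv : ∀ l, (v' l : L) = v l := fun l => by rw [hv']
  have hgen : IntermediateField.adjoin ℂ (Set.range v') = ⊤ := by
    apply IntermediateField.map_injective M.val
    rw [IntermediateField.adjoin_map, ← Set.range_comp]
    have h1 : (M.val ∘ v') = v := by
      funext l
      exact hvv l
    rw [h1, ← AlgHom.fieldRange_eq_map, IntermediateField.fieldRange_val, hM]
  have hli' : LinearIndependent ℂ v' := by
    rw [Fintype.linearIndependent_iff] at hli ⊢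
    intro g hg
    refine hli g ?_
    have h4 := congrArg (Subtype.val : M → L) hg
    rw [AddSubmonoidClass.coe_finsetSum] at h4
    rw [← ZeroMemClass.coe_zero M, ← h4]
    refine Finset.sum_congr rfl fun i _ => ?_
    rw [← hvv i]
    rfl
  obtain ⟨f, hf, hfi, hfc⟩ := min_deg (M := M) (v := v') (o := o) (by
    rw [hv']
    exact Subtype.ext ho) hgen hj htr hli'
  choose c hc using hf
  have hfin : ∀ a, IsAlgebraic (IntermediateField.adjoin ℂ (Set.range f)) (a : M) := by
    have hbasf : IsTranscendenceBasis ℂ f :=
      hfi.isTranscendenceBasis_of_trdeg_le_of_finite (by rw [htr, Cardinal.mk_fin])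
    exact fun a => hbasf.isAlgebraic_field.isAlgebraic a
  obtain ⟨β, hβ⟩ := exists_linearIndependent_of_le_finrank
    (R := IntermediateField.adjoin ℂ (Set.range f)) (M := M) (n := Fintype.card ι - j) (by omega)
  have hmap : ∀ g : L, g ∈ IntermediateField.adjoin ℂ (Set.range fun a => (f a : L)) →
      ∃ g' : M, g' ∈ IntermediateField.adjoin ℂ (Set.range f) ∧ (g' : L) = g := by
    intro g hg
    have h1 : IntermediateField.adjoin ℂ (Set.range fun a => (f a : L)) =
        (IntermediateField.adjoin ℂ (Set.range f)).map M.val := by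
      rw [IntermediateField.adjoin_map, ← Set.range_comp]
      rfl
    rw [h1] at hg
    obtain ⟨g', hg', rfl⟩ := hg
    exact ⟨g', hg', rfl⟩
  have hmap' : ∀ g : M, g ∈ IntermediateField.adjoin ℂ (Set.range f) →
      (g : L) ∈ IntermediateField.adjoin ℂ (Set.range fun a => (f a : L)) := by
    intro g hg
    have h1 : IntermediateField.adjoin ℂ (Set.range fun a => (f a : L)) =
        (IntermediateField.adjoin ℂ (Set.range f)).map M.val := by
      rw [IntermediateField.adjoin_map, ← Set.range_comp]
      rfl
    rw [h1]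
    exact ⟨g, hg, rfl⟩
  refine ⟨fun a => f a, c, fun i => β i, fun a => ?_, ?_, fun i => (β i).2, fun i => ?_, ?_⟩
  · change (f a : L) = _
    rw [hc a, AddSubmonoidClass.coe_finsetSum]
    refine Finset.sum_congr rfl fun l _ => ?_
    rw [← hvv l]
    rfl
  · exact hfi.map' (f := M.val) M.val.injective
  · obtain ⟨P, hP, hPb⟩ := hfin (β i)
    let φ : IntermediateField.adjoin ℂ (Set.range f) →+*
        IntermediateField.adjoin ℂ (Set.range fun a => (f a : L)) :=
      (M.val.toRingHom.comp (IntermediateField.adjoin ℂ (Set.range f)).val.toRingHom).codRestrict _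
        fun g => hmap' g.1 g.2
    refine ⟨P.map φ, ?_, ?_⟩
    · rwa [Ne, Polynomial.map_eq_zero_iff φ.injective]
    · rw [Polynomial.aeval_def, Polynomial.eval₂_map]
      have h2 : (algebraMap (IntermediateField.adjoin ℂ (Set.range fun a => (f a : L))) L).comp φ =
        (M.val.toRingHom).comp (algebraMap (IntermediateField.adjoin ℂ (Set.range f)) M) := rfl
      rw [h2]
      have h3 := Polynomial.hom_eval₂ P (algebraMap (IntermediateField.adjoin ℂ (Set.range f)) M)
        M.val.toRingHom (β i)
      rw [Polynomial.aeval_def] at hPb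
      rw [hPb, map_zero] at h3
      exact h3.symm
  · rw [Fintype.linearIndependent_iff] at hβ ⊢
    intro g hg
    choose g' hg' hgg using fun i => hmap (g i) (g i).2
    have h1 := hβ (fun i => ⟨g' i, hg' i⟩) (by
      apply Subtype.val_injective
      rw [AddSubmonoidClass.coe_finsetSum, ZeroMemClass.coe_zero, ← hg]
      refine Finset.sum_congr rfl fun i _ => ?_
      rw [Algebra.smul_def (g i)]
      change (g' i : L) * (β i : L) = _
      rw [hgg]
      rfl)
    intro i
    refine Subtype.ext ?_
    rw [← hgg i]
    have h2 := congrArg (Subtype.val) (h1 i)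
    simp only [] at h2
    rw [h2]
    rfl

end Run7.h612.AB
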