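import Pool.Agent.Run7.h612.AB.Step
import Pool.Agent.W602.GT.Der

/-!
The field of a hyperplane: the algebraic closure of `F (f)`.
-/

set_option autoImplicit false

open Polynomial

namespace Run7.h612.AB

variable {M : Type} [Field M]

/-- the algebraic closure of `F (f)` in `M` -/
def ext (F : Subfield M) (f : M) : Subfield M := acl (Subfield.closure ((F : Set M) ∪ {f}))

theorem adjoin_eq (F : Subfield M) (f : M) :
    (IntermediateField.adjoin F {f}).toSubfield = Subfield.closure ((F : Set M) ∪ {f}) := by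
  have h1 : (IntermediateField.adjoin F {f}).toSubfield =
    Subfield.closure (Set.range (algebraMap F M) ∪ {f}) := rfl
  rw [h1]
  congr 2
  exact Subtype.range_coe

theorem mem_ext {F : Subfield M} {f a : M} :
    a ∈ ext F f ↔ IsAlgebraic (IntermediateField.adjoin F {f}) a := by
  unfold ext
  rw [mem_acl, ← adjoin_eq]
  rfl

open scoped IntermediateField.algebraAdjoinAdjoin in
theorem mem_ext' {F : Subfield M} {f a : M} :
    a ∈ ext F f ↔ IsAlgebraic (Algebra.adjoin F {f}) a := by
  rw [mem_ext]
  exact (IsFractionRing.isAlgebraic_iff (Algebra.adjoin F {f}) (IntermediateField.adjoin F {f})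
    M).symm

theorem mem_ext_iff {F : Subfield M} {f a : M} :
    a ∈ ext F f ↔ a ∈ (AlgebraicIndependent.matroid F M).closure {f} := by
  rw [mem_ext', AlgebraicIndependent.matroid_closure_eq]
  exact Iff.rfl

theorem mem_iff {F : Subfield M} (hF : ∀ a, IsAlgebraic F a → a ∈ F) {a : M} :
    a ∈ F ↔ a ∈ (AlgebraicIndependent.matroid F M).closure ∅ := by
  rw [AlgebraicIndependent.matroid_closure_eq]
  have h0 : Algebra.IsAlgebraic F (Algebra.adjoin F (∅ : Set M)) := ⟨fun x => by
    obtain ⟨x, hx⟩ := x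
    rw [Algebra.adjoin_empty, Algebra.mem_bot] at hx
    obtain ⟨c, rfl⟩ := hx
    exact isAlgebraic_algebraMap c⟩
  have h1 : IsAlgebraic (Algebra.adjoin F (∅ : Set M)) a ↔ IsAlgebraic F a :=
    ⟨fun h => h.restrictScalars F, fun h => h.extendScalars
      (FaithfulSMul.algebraMap_injective F (Algebra.adjoin F (∅ : Set M)))⟩
  rw [SetLike.mem_coe, Subalgebra.mem_algebraicClosure, h1]
  exact ⟨fun h => isAlgebraic_algebraMap (⟨a, h⟩ : F), hF a⟩

theorem exchange {F : Subfield M} (hF : ∀ a, IsAlgebraic F a → a ∈ F) {f a : M}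
    (ha : a ∈ ext F f) (haF : a ∉ F) : f ∈ ext F a := by
  rw [mem_ext_iff] at ha ⊢
  rw [mem_iff hF] at haF
  have h1 := Matroid.closure_exchange (M := AlgebraicIndependent.matroid F M) (X := ∅) (e := a)
    (f := f) (by rw [insert_empty_eq]; exact ⟨ha, haF⟩)
  rw [insert_empty_eq] at h1
  exact h1.1

theorem le_ext (F : Subfield M) (f : M) : F ≤ ext F f := fun _ hx =>
  le_acl _ (Subfield.subset_closure (Set.mem_union_left _ hx))

theorem self_mem_ext (F : Subfield M) (f : M) : f ∈ ext F f :=
  le_acl _ (Subfield.subset_closure (Set.mem_union_right _ (Set.mem_singleton f)))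

theorem ext_closed {F : Subfield M} {f a : M} (ha : IsAlgebraic (ext F f) a) : a ∈ ext F f :=
  acl_acl ha

theorem ext_le {F T : Subfield M} {f : M} (hT : ∀ a, IsAlgebraic T a → a ∈ T) (hF : F ≤ T)
    (hf : f ∈ T) : ext F f ≤ T := by
  intro a ha
  refine hT a (alg_mono (Subfield.closure_le.2 ?_) (mem_acl.1 ha))
  rintro x (hx | hx)
  · exact hF hx
  · rw [Set.mem_singleton_iff] at hx
    rw [hx]
    exact hf

theorem der_closure (D : Derivation ℤ M M) (s : Set M)
    (hs : ∀ x ∈ s, D x ∈ Subfield.closure s) : ∀ x ∈ Subfield.closure s, D x ∈ Subfield.closure s := by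
  intro x hx
  induction hx using Subfield.closure_induction with
  | mem x hx => exact hs x hx
  | one => rw [Derivation.map_one_eq_zero]; exact zero_mem _
  | add x y _ _ hx hy => rw [map_add]; exact add_mem hx hy
  | neg x _ hx => rw [map_neg]; exact neg_mem hx
  | inv x hx' hx =>
    rw [Derivation.leibniz_inv, smul_eq_mul]
    exact mul_mem (neg_mem (pow_mem (inv_mem hx') _)) hx
  | mul x y hx' hy' hx hy =>
    rw [Derivation.leibniz, smul_eq_mul, smul_eq_mul]
    exact add_mem (mul_mem hx' hy) (mul_mem hy' hx)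

theorem der_closure_zero (D : Derivation ℤ M M) (s : Set M)
    (hs : ∀ x ∈ s, D x = 0) : ∀ x ∈ Subfield.closure s, D x = 0 := by
  intro x hx
  induction hx using Subfield.closure_induction with
  | mem x hx => exact hs x hx
  | one => exact Derivation.map_one_eq_zero D
  | add x y _ _ hx hy => rw [map_add, hx, hy, add_zero]
  | neg x _ hx => rw [map_neg, hx, neg_zero]
  | inv x hx' hx => rw [Derivation.leibniz_inv, hx, smul_zero]
  | mul x y hx' hy' hx hy => rw [Derivation.leibniz, hx, hy, smul_zero, smul_zero, add_zero]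

variable [CharZero M]

theorem ext_stable (D : Derivation ℤ M M) {F : Subfield M} {f : M} (hF : ∀ x ∈ F, D x ∈ F)
    (hf : D f ∈ F) {a : M} (ha : a ∈ ext F f) : D a ∈ ext F f := by
  refine der_acl D _ (der_closure D _ ?_) ha
  rintro x (hx | hx)
  · exact Subfield.subset_closure (Set.mem_union_left _ (hF x hx))
  · rw [Set.mem_singleton_iff] at hx
    rw [hx]
    exact Subfield.subset_closure (Set.mem_union_left _ hf)

theorem ext_zero (D : Derivation ℤ M M) {F : Subfield M} {f : M} (hF : ∀ x ∈ F, D x = 0)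
    (hf : D f = 0) {a : M} (ha : a ∈ ext F f) : D a = 0 := by
  refine der_alg_zero D _ (der_closure_zero D _ ?_) (mem_acl.1 ha)
  rintro x (hx | hx)
  · exact hF x hx
  · rw [Set.mem_singleton_iff] at hx
    rw [hx]
    exact hf

/-- the derivation in the direction of `f` -/
theorem exists_D {F : Subfield M} (hF : ∀ a, IsAlgebraic F a → a ∈ F) {f : M} (hf : f ∉ F) :
    ∃ D : Derivation ℤ M M, (∀ x ∈ F, D x = 0) ∧ D f = 1 := by
  have hch : CharZero F := inferInstance
  have h1 : AlgebraicIndependent F (fun _ : Fin 1 => f) := by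
    rw [algebraicIndependent_unique_type_iff]
    intro h
    exact hf (hF f h)
  obtain ⟨t, hst, ht⟩ := exists_isTranscendenceBasis_superset (R := F)
    (s := Set.range fun _ : Fin 1 => f) h1.coe_range
  obtain ⟨D, hD⟩ := Pool.Agent.W602.GT.exists_der (fun a : t => (a : M)) ht fun a => 1
  refine ⟨D.restrictScalars ℤ, fun x hx => ?_, ?_⟩
  · exact D.map_algebraMap (⟨x, hx⟩ : F)
  · exact hD ⟨f, hst ⟨0, rfl⟩⟩

end Run7.h612.AB
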