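import Pool.Agent.Run7.h612.AB.Ext

/-!
The dimension of the space of the sections over the field of a generic hyperplane.
-/

set_option autoImplicit false

open Polynomial

namespace Run7.h612.AB

variable {M : Type} [Field M]

theorem exists_coeff {F : Subfield M} {κ : Type} [Fintype κ] {w : κ → M} {x : M}
    (hx : x ∈ Submodule.span F (Set.range w)) : ∃ c : κ → M, (∀ i, c i ∈ F) ∧ ∑ i, c i * w i = x := by
  rw [Submodule.mem_span_range_iff_exists_fun] at hx
  obtain ⟨c, hc⟩ := hx
  exact ⟨fun i => (c i : M), fun i => (c i).2, hc⟩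

/-- **One section less over the field of a generic hyperplane.** -/
theorem step_finrank [CharZero M] {F : Subfield M} (hF : ∀ a, IsAlgebraic F a → a ∈ F) {f : M}
    (hfF : f ∉ F) {ι : Type} [Fintype ι] {v ξ : ι → M} (hξ : ∀ l, ξ l ∈ F)
    (hf : f = ∑ l, ξ l * v l) {o : ι} (ho : v o = 1) (P : ι → Derivation ℤ M M)
    (hPv : ∀ l i, P l (v i) = 0) (hPF : ∀ l, ∀ a ∈ F, P l a ∈ F) (hPf : ∀ l, P l f = v l) {l0 : ι}
    (hl0 : v l0 ∉ ext F f) :
    Module.finrank F (Submodule.span F (Set.range v)) ≤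
      Module.finrank (ext F f) (Submodule.span (ext F f) (Set.range v)) + 1 := by
  classical
  obtain ⟨D, hDF, hDf⟩ := exists_D hF hfF
  obtain ⟨κ, a, ha, hspan, hli⟩ := exists_linearIndependent' F v
  have : Fintype κ := Fintype.ofInjective a ha
  obtain ⟨w, hw⟩ : ∃ w : κ → M, w = v ∘ a := ⟨_, rfl⟩
  rw [← hw] at hspan hli
  have hwi : ∀ i, w i = v (a i) := fun i => by rw [hw]; rfl
  have hmem : ∀ l, v l ∈ Submodule.span F (Set.range w) := fun l => by
    rw [hspan]
    exact Submodule.subset_span ⟨l, rfl⟩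
  choose C hCF hC using fun l => exists_coeff (hmem l)
  -- the difference of the derivations
  obtain ⟨δ, hδ⟩ : ∃ δ : ι → Derivation ℤ M M, ∀ l x, δ l x = P l x - v l * D x :=
    ⟨fun l => P l - v l • D, fun l x => rfl⟩
  have hδF : ∀ l, ∀ x ∈ F, δ l x ∈ F := by
    intro l x hx
    rw [hδ, hDF x hx, mul_zero, sub_zero]
    exact hPF l x hx
  have hδf : ∀ l, δ l f = 0 := by
    intro l
    rw [hδ, hPf, hDf, mul_one, sub_self]
  obtain ⟨τ, hτ⟩ : ∃ τ : κ → M, τ = fun i => f * C o i - ∑ l, ξ l * C l i := ⟨_, rfl⟩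
  have hτF : ∀ i, ∑ l, ξ l * C l i ∈ F := fun i => sum_mem fun l _ => mul_mem (hξ l) (hCF l i)
  have hτk : ∀ i, τ i ∈ ext F f := by
    intro i
    rw [hτ]
    exact sub_mem (mul_mem (self_mem_ext F f) (le_ext F f (hCF o i))) (le_ext F f (hτF i))
  have hτ0 : ∑ i, τ i * w i = 0 := by
    have h1 : ∀ i ∈ Finset.univ, τ i * w i = f * (C o i * w i) - ∑ l, ξ l * (C l i * w i) := by
      intro i _
      rw [hτ]
      simp only []
      rw [sub_mul, Finset.sum_mul]
      congr 1
      · ring
      · exact Finset.sum_congr rfl fun l _ => by ring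
    rw [Finset.sum_congr rfl h1, Finset.sum_sub_distrib, ← Finset.mul_sum, hC, ho, mul_one,
      Finset.sum_comm]
    have h2 : ∀ l ∈ Finset.univ, ∑ i, ξ l * (C l i * w i) = ξ l * v l := by
      intro l _
      rw [← Finset.mul_sum, hC]
    rw [Finset.sum_congr rfl h2, ← hf, sub_self]
  have hτD : ∑ i, D (τ i) * w i = 1 := by
    rw [← ho, ← hC o]
    refine Finset.sum_congr rfl fun i _ => ?_
    congr 1
    rw [hτ]
    simp only []
    rw [map_sub, hDF _ (hτF i), sub_zero, Derivation.leibniz, hDF _ (hCF o i), hDf, smul_zero,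
      zero_add, smul_eq_mul, mul_one]
  have hwF : ∀ c : κ → M, (∀ i, c i ∈ F) → ∑ i, c i * w i = 0 → c = 0 := by
    intro c hc h0
    have h1 := Fintype.linearIndependent_iff.1 hli (fun i => (⟨c i, hc i⟩ : F)) h0
    funext i
    exact congrArg Subtype.val (h1 i)
  have hrel : ∀ A : κ → M, (∀ i, A i ∈ ext F f) → ∑ i, A i * w i = 0 →
      ∃ c ∈ ext F f, A = fun i => c * τ i := by
    intro A hAk hA
    refine step_core (F := F) (k := ext F f) (fun a ha => ext_closed ha) a hwi hwF D
      (fun x hx => ext_stable D (fun y hy => by rw [hDF y hy]; exact zero_mem _)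
        (by rw [hDf]; exact one_mem _) hx) (fun x hx hx0 => ?_) P
      (fun l i => by rw [hwi]; exact hPv l _) (fun l x hx => ?_) (fun l x hx => ?_) hτk hτ0 hτD hl0
      hAk hA
    · by_contra hxF
      have h1 := ext_zero D hDF hx0 (exchange hF hx hxF)
      rw [hDf] at h1
      exact one_ne_zero h1
    · rw [← hδ]
      exact ext_stable (δ l) (hδF l) (by rw [hδf]; exact zero_mem _) hx
    · rw [← hδ, ← hδ]
      have h1 : ⁅D, δ l⁆ x = 0 := by
        refine ext_zero ⁅D, δ l⁆ (fun y hy => ?_) ?_ hx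
        · rw [Derivation.commutator_apply, hDF _ (hδF l y hy), hDF y hy, map_zero, sub_self]
        · rw [Derivation.commutator_apply, hδf, hDf, map_zero, Derivation.map_one_eq_zero, sub_self]
      rw [Derivation.commutator_apply] at h1
      exact sub_eq_zero.1 h1
  -- the dimensions
  have h1 : Module.finrank F (Submodule.span F (Set.range v)) = Fintype.card κ := by
    rw [← hspan]
    exact finrank_span_eq_card hli
  obtain ⟨φ, hφ⟩ : ∃ φ : (κ → ext F f) →ₗ[ext F f] M, φ = Fintype.linearCombination (ext F f) w :=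
    ⟨_, rfl⟩
  have hφA : ∀ A : κ → ext F f, φ A = ∑ i, (A i : M) * w i := by
    intro A
    rw [hφ, Fintype.linearCombination_apply]
    rfl
  have h2 : LinearMap.range φ ≤ Submodule.span (ext F f) (Set.range v) := by
    rw [hφ, Fintype.range_linearCombination]
    refine Submodule.span_mono ?_
    rintro _ ⟨i, rfl⟩
    exact ⟨a i, (hwi i).symm⟩
  have h3 : LinearMap.ker φ ≤ Submodule.span (ext F f) {fun i => (⟨τ i, hτk i⟩ : ext F f)} := by
    intro A hA
    rw [LinearMap.mem_ker, hφA] at hA
    obtain ⟨c, hc, hAc⟩ := hrel (fun i => (A i : M)) (fun i => (A i).2) hA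
    rw [Submodule.mem_span_singleton]
    refine ⟨⟨c, hc⟩, ?_⟩
    funext i
    exact Subtype.ext (congrFun hAc i).symm
  have h4 := LinearMap.finrank_range_add_finrank_ker φ
  rw [Module.finrank_pi] at h4
  have hfin : FiniteDimensional (ext F f) (Submodule.span (ext F f) (Set.range v)) :=
    FiniteDimensional.span_of_finite _ (Set.finite_range v)
  have h5 := Submodule.finrank_mono h2
  have h6 := (Submodule.finrank_mono h3).trans (finrank_span_le_card _)
  rw [Set.toFinset_singleton, Finset.card_singleton] at h6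
  omega

end Run7.h612.AB
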