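import Pool.Agent.Run7.h612.AB.Fin

/-!
Generic coefficients: derivations of `M` which map `ℂ` to `ℂ` and kill given elements.
-/

set_option autoImplicit false

open Polynomial Set

namespace Run7.h612.AB

variable {M : Type} [Field M]

open scoped IntermediateField.algebraAdjoinAdjoin in
theorem mem_cl [CharZero M] {X : Set M} {x : M} :
    x ∈ acl (Subfield.closure X) ↔ x ∈ (AlgebraicIndependent.matroid ℚ M).closure X := by
  rw [AlgebraicIndependent.matroid_closure_eq, SetLike.mem_coe, Subalgebra.mem_algebraicClosure,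
    mem_acl, IsFractionRing.isAlgebraic_iff (Algebra.adjoin ℚ X) (IntermediateField.adjoin ℚ X) M]
  have h1 : (IntermediateField.adjoin ℚ X).toSubfield = Subfield.closure X := by
    have h2 : (IntermediateField.adjoin ℚ X).toSubfield =
      Subfield.closure (Set.range (algebraMap ℚ M) ∪ X) := rfl
    rw [h2]
    refine le_antisymm (Subfield.closure_le.2 ?_) (Subfield.closure_mono Set.subset_union_right)
    rintro y (⟨q, rfl⟩ | hy)
    · rw [eq_ratCast]
      exact SubfieldClass.ratCast_mem _ q
    · exact Subfield.subset_closure hy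
  rw [← h1]
  rfl

theorem alg_map {L : Type} [Field L] [Algebra L M] {X : Set L} {c : L}
    (hc : IsAlgebraic (Subfield.closure X) c) :
    IsAlgebraic (Subfield.closure (algebraMap L M '' X)) (algebraMap L M c) := by
  obtain ⟨P, hP, hPc⟩ := hc
  have h1 : ∀ x : Subfield.closure X, algebraMap L M x ∈ Subfield.closure (algebraMap L M '' X) := by
    rintro ⟨x, hx⟩
    rw [← RingHom.map_field_closure]
    exact ⟨x, hx, rfl⟩
  let φ : Subfield.closure X →+* Subfield.closure (algebraMap L M '' X) :=
    ((algebraMap L M).comp (Subfield.closure X).subtype).codRestrict _ h1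
  refine ⟨P.map φ, ?_, ?_⟩
  · rwa [Ne, Polynomial.map_eq_zero_iff φ.injective]
  · rw [aeval_def, eval₂_map]
    have h2 : (algebraMap (Subfield.closure (algebraMap L M '' X)) M).comp φ =
      (algebraMap L M).comp (algebraMap (Subfield.closure X) L) := rfl
    rw [h2, ← Polynomial.hom_eval₂]
    rw [aeval_def] at hPc
    rw [hPc, map_zero]

/-- **Generic coefficients.** -/
theorem gen [Algebra ℂ M] {ι : Type} [Finite ι] (v : ι → M) (J : Type) [Finite J] [DecidableEq J] :
    ∃ (ξ : J → ℂ) (P : J → Derivation ℤ M M), (∀ a i, P a (v i) = 0) ∧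
      (∀ a c, ∃ c', P a (algebraMap ℂ M c) = algebraMap ℂ M c') ∧
      ∀ a b, P a (algebraMap ℂ M (ξ b)) = if a = b then 1 else 0 := by
  classical
  have hch : CharZero M := charZero_of_injective_algebraMap (algebraMap ℂ M).injective
  obtain ⟨s, hs⟩ := exists_isTranscendenceBasis ℚ ℂ
  have hsinf : Infinite s := by
    by_contra hcon
    rw [not_infinite_iff_finite] at hcon
    have h1 := IsAlgClosed.cardinal_le_max_transcendence_basis' _ hs
    have h2 : Cardinal.mk s < Cardinal.aleph0 := Cardinal.lt_aleph0_of_finite s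
    rw [Cardinal.mkRat, max_eq_left h2.le, max_self, Cardinal.mk_complex] at h1
    exact absurd h1 (not_le.2 Cardinal.aleph0_lt_continuum)
  have hscl : ∀ c : ℂ, IsAlgebraic (Subfield.closure s) c := by
    intro c
    rw [← mem_acl, mem_cl]
    have h1 := (AlgebraicIndependent.matroid_isBase_iff.2 hs).closure_eq
    rw [h1]
    exact Set.mem_univ c
  have hscl' : ∀ c : ℂ, IsAlgebraic (Subfield.closure (algebraMap ℂ M '' s)) (algebraMap ℂ M c) :=
    fun c => alg_map (hscl c)
  obtain ⟨t, ht⟩ := (AlgebraicIndependent.matroid ℂ M).exists_isBasis (Set.range v)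
  rw [AlgebraicIndependent.matroid_isBasis_iff] at ht
  obtain ⟨ht1, ht2, ht3⟩ := ht
  obtain ⟨S', hS'⟩ : ∃ S' : Set M, S' = algebraMap ℂ M '' s ∪ t := ⟨_, rfl⟩
  have hv : ∀ i, v i ∈ acl (Subfield.closure S') := by
    intro i
    obtain ⟨Q, hQ, hQv⟩ := ht3 (v i) ⟨i, rfl⟩
    refine acl_acl ?_
    have h1 : ∀ x : Algebra.adjoin ℂ t, (x : M) ∈ acl (Subfield.closure S') := by
      rintro ⟨x, hx⟩
      induction hx using Algebra.adjoin_induction with
      | mem x hx =>
        exact le_acl _ (Subfield.subset_closure (by rw [hS']; exact Or.inr hx))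
      | algebraMap c =>
        refine acl_mono (Subfield.closure_mono ?_) (mem_acl.2 (hscl' c))
        rw [hS']
        exact Set.subset_union_left
      | add x y _ _ hx hy => exact add_mem hx hy
      | mul x y _ _ hx hy => exact mul_mem hx hy
    let φ : Algebra.adjoin ℂ t →+* acl (Subfield.closure S') :=
      ((Algebra.adjoin ℂ t).val.toRingHom).codRestrict _ h1
    have hφ : Function.Injective φ := fun x y hxy =>
      Subtype.ext (congrArg (Subtype.val : acl (Subfield.closure S') → M) hxy)
    refine ⟨Q.map φ, ?_, ?_⟩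
    · rwa [Ne, Polynomial.map_eq_zero_iff hφ]
    · rw [aeval_def, eval₂_map]
      exact hQv
  -- finitely many elements suffice
  obtain ⟨Y, hYS, hYfin, -, hYv⟩ :=
    (AlgebraicIndependent.matroid ℚ M).exists_subset_finite_closure_of_subset_closure
      (X := Set.range v) (Y := S') (Set.finite_range v) (by
        rintro _ ⟨i, rfl⟩
        exact mem_cl.1 (hv i))
  have hS'ind : AlgebraicIndepOn ℚ id S' := by
    have h1 : AlgebraicIndependent ℚ (Sum.elim (fun x : t => (x : M))
        (algebraMap ℂ M ∘ fun x : s => (x : ℂ))) := AlgebraicIndependent.sumElim_comp hs.1 ht1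
    have h2 := h1.coe_range
    have h3 : Set.range (Sum.elim (fun x : t => (x : M))
        (algebraMap ℂ M ∘ fun x : s => (x : ℂ))) = S' := by
      rw [Set.Sum.elim_range, hS', Set.range_comp, Subtype.range_coe, Subtype.range_coe,
        Set.union_comm]
    rw [h3] at h2
    exact h2
  obtain ⟨T, hST, hT⟩ := exists_isTranscendenceBasis_superset (R := ℚ) (s := S') hS'ind
  -- the coefficients
  have hZ : {c : s | algebraMap ℂ M c ∉ Y}.Infinite := by
    have h1 : {c : s | algebraMap ℂ M c ∈ Y}.Finite := by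
      refine Set.Finite.preimage ?_ hYfin
      exact (((algebraMap ℂ M).injective).comp Subtype.val_injective).injOn
    exact h1.infinite_compl
  have hZ' : Infinite {c : s | algebraMap ℂ M c ∉ Y} := hZ.to_subtype
  obtain ⟨n, ⟨eJ⟩⟩ := Finite.exists_equiv_fin J
  obtain ⟨ξ, hξ⟩ : ∃ ξ : J → {c : s | algebraMap ℂ M c ∉ Y}, Function.Injective ξ :=
    ⟨fun a => Infinite.natEmbedding _ (eJ a : ℕ), fun a b hab => by
      have h1 := (Infinite.natEmbedding _).injective hab
      exact eJ.injective (Fin.ext h1)⟩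
  have hD : ∀ a : J, ∃ D : Derivation ℚ M M, ∀ x : T, D (x : M) =
      if (x : M) = algebraMap ℂ M (ξ a).1.1 then 1 else 0 := fun a =>
    Pool.Agent.W602.GT.exists_der (fun x : T => (x : M)) hT fun x =>
      if (x : M) = algebraMap ℂ M (ξ a).1.1 then 1 else 0
  choose D hD using hD
  have hsT : ∀ c ∈ s, algebraMap ℂ M c ∈ T := fun c hc => hST (by
    rw [hS']
    exact Or.inl ⟨c, hc, rfl⟩)
  refine ⟨fun a => (ξ a).1.1, fun a => (D a).restrictScalars ℤ, fun a i => ?_, fun a c => ?_,
    fun a b => ?_⟩
  · refine der_alg_zero _ (Subfield.closure Y) (der_closure_zero _ _ fun y hy => ?_)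
      (mem_acl.1 (mem_cl.2 (hYv ⟨i, rfl⟩)))
    have h1 := hD a ⟨y, hST (hYS hy)⟩
    rw [if_neg] at h1
    · exact h1
    · intro h2
      simp only [] at h2
      rw [h2] at hy
      exact (ξ a).2 hy
  · have h1 := der_alg ((D a).restrictScalars ℤ) (Subfield.closure (algebraMap ℂ M '' s))
      (der_closure _ _ fun x hx => by
        obtain ⟨c, hc, rfl⟩ := hx
        have h2 := hD a ⟨algebraMap ℂ M c, hsT c hc⟩
        have h3 : ((D a).restrictScalars ℤ) (algebraMap ℂ M c) = D a (algebraMap ℂ M c) := rfl
        rw [h3]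
        simp only [] at h2
        rw [h2]
        split_ifs
        · exact one_mem _
        · exact zero_mem _) (hscl' c)
    have h2 : Subfield.closure ((Subfield.closure (algebraMap ℂ M '' s) : Set M) ∪
        {algebraMap ℂ M c}) ≤ (algebraMap ℂ M).fieldRange := by
      rw [Subfield.closure_le]
      rintro x (hx | hx)
      · refine (Subfield.closure_le.2 ?_) hx
        rintro _ ⟨c, -, rfl⟩
        exact ⟨c, rfl⟩
      · rw [Set.mem_singleton_iff] at hx
        rw [hx]
        exact ⟨c, rfl⟩
    obtain ⟨c', hc'⟩ := h2 h1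
    exact ⟨c', hc'.symm⟩
  · have h1 := hD a ⟨algebraMap ℂ M (ξ b).1.1, hsT _ (ξ b).1.2⟩
    have h2 : ((D a).restrictScalars ℤ) (algebraMap ℂ M (ξ b).1.1) =
      D a (algebraMap ℂ M (ξ b).1.1) := rfl
    rw [h2]
    simp only [] at h1
    rw [h1]
    by_cases hab : a = b
    · subst hab
      simp
    · rw [if_neg hab, if_neg]
      intro h3
      exact hab (hξ (Subtype.ext (Subtype.ext ((algebraMap ℂ M).injective h3)))).symm

end Run7.h612.AB
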