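import Pool.Agent.Run7.h612.AB.CovForm

/-!
The sections on a covering are algebraic over the field of the sections on the variety.
-/

set_option autoImplicit false
set_option linter.overlappingInstances false
set_option linter.unusedSectionVars false

open FF Module Pool.Agent.W602.GT Pool.Agent.W603.LV Pool.Agent.W619.PQ
open Pool.Agent.Y172 Pool.Agent.Y191 Pool.Agent.R887
open Pool.Agent.N110 (affS)

namespace Run7.h612.AB

/-- zero, or order at least `q` -/
def GeQ {K : Type} [Field K] [Algebra ℂ K] (P : Place ℂ K) (q : ℚ) (z : K) : Prop :=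
  z = 0 ∨ q ≤ (P.ord z : ℚ)

section

variable {K : Type} [Field K] [Algebra ℂ K] {P : Place ℂ K} {q r : ℚ} {a b : K}

theorem GeQ.add (ha : GeQ P q a) (hb : GeQ P q b) : GeQ P q (a + b) := by
  by_cases h1 : a = 0
  · rwa [h1, zero_add]
  by_cases h2 : b = 0
  · rwa [h2, add_zero]
  by_cases h3 : a + b = 0
  · exact Or.inl h3
  right
  have h4 := P.ord_add h1 h2 h3
  have h5 := ha.resolve_left h1
  have h6 := hb.resolve_left h2
  rcases le_total (P.ord a) (P.ord b) with h | h
  · rw [min_eq_left h] at h4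
    exact h5.trans (by exact_mod_cast h4)
  · rw [min_eq_right h] at h4
    exact h6.trans (by exact_mod_cast h4)

theorem GeQ.neg (ha : GeQ P q a) : GeQ P q (-a) := by
  rcases ha with h | h
  · exact Or.inl (by rw [h, neg_zero])
  · exact Or.inr (by rwa [P.ord_neg])

theorem GeQ.mul (ha : GeQ P q a) (hb : GeQ P r b) : GeQ P (q + r) (a * b) := by
  by_cases h1 : a = 0
  · exact Or.inl (by rw [h1, zero_mul])
  by_cases h2 : b = 0
  · exact Or.inl (by rw [h2, mul_zero])
  right
  rw [P.ord_mul h1 h2]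
  push_cast
  exact add_le_add (ha.resolve_left h1) (hb.resolve_left h2)

theorem GeQ.sum {ι : Type} {s : Finset ι} {f : ι → K} (h : ∀ i ∈ s, GeQ P q (f i)) :
    GeQ P q (∑ i ∈ s, f i) := by
  classical
  induction s using Finset.induction_on with
  | empty => exact Or.inl rfl
  | insert a s ha ih =>
    rw [Finset.sum_insert ha]
    exact (h a (Finset.mem_insert_self _ _)).add (ih fun i hi => h i (Finset.mem_insert_of_mem hi))

/-- the coefficients of a product of linear polynomials -/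
theorem GeQ.prod {ι : Type} {s : Finset ι} {F : ι → Polynomial K} (h : ∀ i ∈ s, ∀ l,
    GeQ P q ((F i).coeff l)) : ∀ l, GeQ P (s.card * q) ((∏ i ∈ s, F i).coeff l) := by
  classical
  induction s using Finset.induction_on with
  | empty =>
    intro l
    rw [Finset.prod_empty, Finset.card_empty, Nat.cast_zero, zero_mul, Polynomial.coeff_one]
    split_ifs
    · right
      rw [P.ord_one]
      simp
    · exact Or.inl rfl
  | insert a s ha ih =>
    intro l
    rw [Finset.prod_insert ha, Finset.card_insert_of_notMem ha, Polynomial.coeff_mul]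
    have h1 : (((s.card + 1 : ℕ) : ℚ) * q) = q + s.card * q := by
      push_cast
      ring
    rw [h1]
    exact GeQ.sum fun x _ => (h a (Finset.mem_insert_self _ _) _).mul
      (ih (fun i hi => h i (Finset.mem_insert_of_mem hi)) _)

end

variable {K L : Type} [Field K] [Algebra ℂ K] [Field L] [Algebra ℂ L]
  [Algebra K L] [IsScalarTower ℂ K L] [FiniteDimensional K L] {N : ℕ} {y : Fin (N + 1) → K} {n : ℕ}

/-- the function `g` is a section of `m T` -/
def KSec (y : Fin (N + 1) → K) (T : Place ℂ K → ℚ) (m : ℕ) (g : K) : Prop :=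
  ∀ P, IsPrimeDivisor y P → GeQ P (-(m * T P)) g

/-- the quotients of the sections of the multiples of `T` -/
def ISet (y : Fin (N + 1) → K) (T : Place ℂ K → ℚ) : Set K :=
  {z | ∃ m : ℕ, 1 ≤ m ∧ ∃ g g' : K, g' ≠ 0 ∧ KSec y T m g ∧ KSec y T m g' ∧ z = g / g'}

/-- the equation of a quotient of sections, with a Galois extension -/
theorem equation_aux {Ω : Type} [Field Ω] [Algebra ℂ Ω] [Algebra K Ω] [Algebra L Ω]
    [IsScalarTower ℂ K Ω] [IsScalarTower ℂ L Ω] [IsScalarTower K L Ω] [FiniteDimensional K Ω]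
    [FiniteDimensional L Ω] [IsGalois K Ω] {T : Place ℂ K → ℚ} {m : ℕ} (hm : 1 ≤ m) {h0 h1 : L}
    (h00 : h0 ≠ 0) (hh0 : CSec y T m h0) (hh1 : h1 = 0 ∨ CSec y T m h1) :
    ∃ (M : ℕ) (F : Polynomial K), 1 ≤ M ∧ F ≠ 0 ∧ Polynomial.aeval (h1 / h0) F = 0 ∧
      ∀ l, KSec y T M (F.coeff l) := by
  classical
  have hcK : CharZero K := charZero_of_injective_algebraMap (algebraMap ℂ K).injective
  obtain ⟨i0, hi0⟩ : ∃ i0 : L →ₐ[K] Ω, i0 = IsScalarTower.toAlgHom K L Ω := ⟨_, rfl⟩
  obtain ⟨G, hG⟩ : ∃ G : (Ω ≃ₐ[K] Ω) → Polynomial Ω, G = fun g =>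
    Polynomial.C (g (i0 h0)) * Polynomial.X - Polynomial.C (g (i0 h1)) := ⟨_, rfl⟩
  obtain ⟨F, hF⟩ : ∃ F : Polynomial Ω, F = ∏ g : Ω ≃ₐ[K] Ω, G g := ⟨_, rfl⟩
  have hGcoeff : ∀ g l, (G g).coeff l = if l = 1 then g (i0 h0) else if l = 0 then
      -g (i0 h1) else 0 := by
    intro g l
    rw [hG]
    simp only [Polynomial.coeff_sub, Polynomial.coeff_C_mul, Polynomial.coeff_X, Polynomial.coeff_C]
    rcases l with - | - | l
    · simp
    · simp
    · simp
  have hGmap : ∀ σ g : Ω ≃ₐ[K] Ω, (G g).map (σ : Ω →+* Ω) = G (σ * g) := by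
    intro σ g
    rw [hG]
    simp only [Polynomial.map_sub, Polynomial.map_mul, Polynomial.map_C, Polynomial.map_X]
    rfl
  have hFmap : ∀ σ : Ω ≃ₐ[K] Ω, F.map (σ : Ω →+* Ω) = F := by
    intro σ
    rw [hF, Polynomial.map_prod]
    simp only [hGmap]
    exact Fintype.prod_equiv (Equiv.mulLeft σ) _ _ fun g => rfl
  have hFK : ∀ l, ∃ k : K, algebraMap K Ω k = F.coeff l := by
    intro l
    have h2 : F.coeff l ∈ (⊥ : IntermediateField K Ω) := by
      rw [← IsGalois.fixedField_top (F := K) (E := Ω)]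
      rintro ⟨σ, -⟩
      change σ (F.coeff l) = F.coeff l
      have h3 := congrArg (fun R : Polynomial Ω => R.coeff l) (hFmap σ)
      simp only [Polynomial.coeff_map] at h3
      exact h3
    rw [IntermediateField.mem_bot] at h2
    exact h2
  choose k hk using hFK
  have hG0 : ∀ g, G g ≠ 0 := by
    intro g h2
    have h3 := hGcoeff g 1
    rw [h2, if_pos rfl, Polynomial.coeff_zero] at h3
    have h4 : i0 h0 = 0 := (map_eq_zero g).1 h3.symm
    exact h00 ((map_eq_zero i0).1 h4)
  have hF0 : F ≠ 0 := by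
    rw [hF]
    exact Finset.prod_ne_zero_iff.2 fun g _ => hG0 g
  obtain ⟨FK, hFK⟩ : ∃ FK : Polynomial K, FK = ∑ l ∈ Finset.range (F.natDegree + 1),
    Polynomial.monomial l (k l) := ⟨_, rfl⟩
  have hFKmap : FK.map (algebraMap K Ω) = F := by
    rw [hFK, Polynomial.map_sum]
    conv_rhs => rw [F.as_sum_range]
    refine Finset.sum_congr rfl fun l _ => ?_
    rw [Polynomial.map_monomial, hk]
  have hFKc : ∀ l, algebraMap K Ω (FK.coeff l) = F.coeff l := by
    intro l
    rw [← Polynomial.coeff_map, hFKmap]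
  refine ⟨Fintype.card (Ω ≃ₐ[K] Ω) * m, FK, Nat.mul_pos Fintype.card_pos hm, ?_, ?_, ?_⟩
  · intro h2
    rw [h2, Polynomial.map_zero] at hFKmap
    exact hF0 hFKmap.symm
  · apply (i0 : L →+* Ω).injective
    have h2 : (i0 : L →+* Ω) (Polynomial.aeval (h1 / h0) FK) =
        Polynomial.eval (i0 (h1 / h0)) F := by
      rw [← hFKmap, Polynomial.eval_map, Polynomial.aeval_def]
      have h3 := Polynomial.hom_eval₂ FK (algebraMap K L) (i0 : L →+* Ω) (h1 / h0)
      rw [h3]
      congr 1
      ext x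
      exact i0.commutes x
    rw [h2, map_zero, hF, Polynomial.eval_prod]
    refine Finset.prod_eq_zero (Finset.mem_univ (1 : Ω ≃ₐ[K] Ω)) ?_
    rw [hG]
    simp only [Polynomial.eval_sub, Polynomial.eval_mul, Polynomial.eval_C, Polynomial.eval_X]
    change i0 h0 * i0 (h1 / h0) - i0 h1 = 0
    rw [← map_mul, mul_div_cancel₀ _ h00, sub_self]
  · intro l P hP
    obtain ⟨R, e, hR⟩ := exists_above (k := ℂ) (K := K) (L := Ω) P
    have he : (0 : ℚ) < e := by exact_mod_cast hR.1
    have hsec : ∀ (g : Ω ≃ₐ[K] Ω) (h : L), (h = 0 ∨ CSec y T m h) →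
        GeQ R (-(e * (m * T P))) (g (i0 h)) := by
      intro g h hh
      rcases hh with h2 | h2
      · exact Or.inl (by rw [h2, map_zero, map_zero])
      · right
        obtain ⟨Q, e', e1, hQ, he1, hee, hord⟩ := below_emb ((g : Ω →ₐ[K] Ω).comp i0) hR
        have h3 : R.ord (g (i0 h)) = e1 * Q.ord h := hord h
        have h4 := h2 Q P e' hQ hP
        have h5 := mul_nonneg (show (0 : ℚ) ≤ e1 from Nat.cast_nonneg _) h4
        rw [h3, hee]
        push_cast
        linarith
    have h2 : ∀ g ∈ (Finset.univ : Finset (Ω ≃ₐ[K] Ω)), ∀ l,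
        GeQ R (-(e * (m * T P))) ((G g).coeff l) := by
      intro g _ l
      rw [hGcoeff]
      split_ifs
      · exact hsec g h0 (Or.inr hh0)
      · exact (hsec g h1 hh1).neg
      · exact Or.inl rfl
    have h3 := GeQ.prod h2 l
    rw [← hF, ← hFKc] at h3
    rcases h3 with h4 | h4
    · exact Or.inl ((map_eq_zero _).1 h4)
    · right
      rw [hR.2] at h4
      rw [Finset.card_univ] at h4
      push_cast at h4 ⊢
      have h5 : (0 : ℚ) ≤ e * ((P.ord (FK.coeff l) : ℚ) +
          (Fintype.card (Ω ≃ₐ[K] Ω)) * m * T P) := by linarith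
      have h6 := nonneg_of_mul_nonneg_right h5 he
      linarith

/-- **The equation of a quotient of sections on a covering.** -/
theorem equation {T : Place ℂ K → ℚ} {m : ℕ} (hm : 1 ≤ m) {h0 h1 : L}
    (h00 : h0 ≠ 0) (hh0 : CSec y T m h0) (hh1 : h1 = 0 ∨ CSec y T m h1) :
    ∃ (M : ℕ) (F : Polynomial K), 1 ≤ M ∧ F ≠ 0 ∧ Polynomial.aeval (h1 / h0) F = 0 ∧
      ∀ l, KSec y T M (F.coeff l) := by
  have hcK : CharZero K := charZero_of_injective_algebraMap (algebraMap ℂ K).injective
  let Ω := IntermediateField.normalClosure K L (AlgebraicClosure L)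
  let ik : Algebra ℂ Ω := ((algebraMap K Ω).comp (algebraMap ℂ K)).toAlgebra
  have htow : IsScalarTower ℂ K Ω := IsScalarTower.of_algebraMap_eq fun _ => rfl
  have hfin : FiniteDimensional K Ω := inferInstance
  have hnorm : Normal K Ω := inferInstance
  have hgal : IsGalois K Ω := IsGalois.mk
  have htowL : IsScalarTower ℂ L Ω := IsScalarTower.of_algebraMap_eq fun c => by
    rw [IsScalarTower.algebraMap_apply ℂ K L, ← IsScalarTower.algebraMap_apply K L Ω]
    rfl
  have hfinL : FiniteDimensional L Ω := FiniteDimensional.right K L Ω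
  exact equation_aux (Ω := Ω) hm h00 hh0 hh1

/-- **The quotients of the sections on a covering are algebraic over the quotients of the
sections on the variety.** -/
theorem quot_alg {T : Place ℂ K → ℚ} {m : ℕ} (hm : 1 ≤ m) {h0 h1 : L}
    (h00 : h0 ≠ 0) (hh0 : CSec y T m h0) (hh1 : h1 = 0 ∨ CSec y T m h1) :
    IsAlgebraic (IntermediateField.adjoin ℂ (ISet y T)) (h1 / h0) := by
  obtain ⟨M, F, hM, hF0, hF, hFs⟩ := equation hm h00 hh0 hh1
  obtain ⟨a, ha⟩ : ∃ a, a = F.leadingCoeff := ⟨_, rfl⟩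
  have hlc : a ≠ 0 := by rwa [ha, Ne, Polynomial.leadingCoeff_eq_zero]
  have h2 : ∀ l, F.coeff l / a ∈ IntermediateField.adjoin ℂ (ISet y T) := fun l =>
    IntermediateField.subset_adjoin _ _ ⟨M, hM, _, _, hlc, hFs l, by rw [ha]; exact hFs _, rfl⟩
  obtain ⟨P, hP⟩ : ∃ P : Polynomial (IntermediateField.adjoin ℂ (ISet y T)),
    P = ∑ l ∈ Finset.range (F.natDegree + 1), Polynomial.monomial l
      (⟨F.coeff l / a, h2 l⟩ : IntermediateField.adjoin ℂ (ISet y T)) := ⟨_, rfl⟩
  have hPm : P.map (algebraMap (IntermediateField.adjoin ℂ (ISet y T)) K) =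
      Polynomial.C a⁻¹ * F := by
    rw [hP, Polynomial.map_sum]
    conv_rhs => rw [F.as_sum_range, Finset.mul_sum]
    refine Finset.sum_congr rfl fun l _ => ?_
    rw [Polynomial.map_monomial, Polynomial.C_mul_monomial, ← div_eq_inv_mul]
    rfl
  refine ⟨P, ?_, ?_⟩
  · intro h3
    rw [h3, Polynomial.map_zero] at hPm
    have h4 : Polynomial.C a⁻¹ * F ≠ 0 :=
      mul_ne_zero (by rwa [Ne, Polynomial.C_eq_zero, inv_eq_zero]) hF0
    exact h4 hPm.symm
  · have h3 : Polynomial.aeval (h1 / h0) (P.map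
        (algebraMap (IntermediateField.adjoin ℂ (ISet y T)) K)) = 0 := by
      rw [hPm, map_mul, hF, mul_zero]
    rw [Polynomial.aeval_map_algebraMap] at h3
    exact h3

end Run7.h612.AB
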