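import Pool.Agent.Run7.h612.AB.CovDeg
import Pool.Agent.Run7.h612.AB.Disj

/-!
**The number of sections on a covering and the degree of the fibres.**
-/

set_option autoImplicit false
set_option linter.overlappingInstances false
set_option linter.unusedSectionVars false

open FF Module Pool.Agent.W602.GT Pool.Agent.W603.LV Pool.Agent.W619.PQ
open Pool.Agent.Y172 Pool.Agent.Y191 Pool.Agent.R887
open Pool.Agent.N110 (affS)

namespace Run7.h612.AB

variable {K L : Type} [Field K] [Algebra ℂ K] [Field L] [Algebra ℂ L]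
  [Algebra K L] [IsScalarTower ℂ K L] [FiniteDimensional K L] {N : ℕ} {y : Fin (N + 1) → K} {n : ℕ}

/-- pencils which complete a transcendence basis of the covering -/
theorem exists_complete_cover (hy : NormalModel y) (hn : Algebra.trdeg ℂ K = n) {i : Fin (N + 1)}
    (hi : y i ≠ 0) {j : ℕ} {g : Fin j → L} (hg : AlgebraicIndependent ℂ g) :
    ∃ u : Fin (n - j) → K, (∀ a, u a ∈ affS y i) ∧
      0 < dg ℂ (Sum.elim (fun a => algebraMap K L (u a)) g) := by
  classical
  have hess := hy.ess
  have hnL : Algebra.trdeg ℂ L = n := trdeg_up (K := K) hn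
  have hessL : Algebra.EssFiniteType ℂ L := by
    have h1 : Algebra.EssFiniteType K L := inferInstance
    exact Algebra.EssFiniteType.comp ℂ K L
  obtain ⟨T, hT⟩ : ∃ T : Set L, T = algebraMap K L '' affS y i := ⟨_, rfl⟩
  have hKT : ∀ x : K, algebraMap K L x ∈ IntermediateField.adjoin ℂ (Set.range g ∪ T) := by
    intro x
    have h1 : x ∈ IntermediateField.adjoin ℂ (affS y i) := by
      have h2 := hy.field i hi
      unfold affS
      rw [h2]
      trivial
    have h2 : (IntermediateField.adjoin ℂ (affS y i)).map (IsScalarTower.toAlgHom ℂ K L) ≤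
        IntermediateField.adjoin ℂ (Set.range g ∪ T) := by
      rw [IntermediateField.adjoin_map, hT]
      exact IntermediateField.adjoin.mono _ _ _ Set.subset_union_right
    exact h2 ⟨x, h1, rfl⟩
  have halg : Algebra.IsAlgebraic (Algebra.adjoin ℂ (Set.range g ∪ T)) L := by
    have h1 : Algebra.IsAlgebraic (IntermediateField.adjoin ℂ (Set.range g ∪ T)) L := by
      constructor
      intro x
      obtain ⟨P, hP, hPx⟩ := Algebra.IsAlgebraic.isAlgebraic (R := K) x
      let φ : K →+* IntermediateField.adjoin ℂ (Set.range g ∪ T) :=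
        (algebraMap K L).codRestrict _ hKT
      refine ⟨P.map φ, ?_, ?_⟩
      · rwa [Ne, Polynomial.map_eq_zero_iff φ.injective]
      · rw [Polynomial.aeval_def, Polynomial.eval₂_map]
        exact hPx
    open scoped IntermediateField.algebraAdjoinAdjoin in
    exact Algebra.IsAlgebraic.trans _ (IntermediateField.adjoin ℂ (Set.range g ∪ T)) L
  obtain ⟨b, hb1, hb2, hb⟩ := exists_isTranscendenceBasis_between (R := ℂ) (Set.range g)
    (Set.range g ∪ T) Set.subset_union_left hg.coe_range
  have hcard := hb.cardinalMk_eq_trdeg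
  rw [hnL] at hcard
  have hbfin : b.Finite := by
    have : Cardinal.mk b < Cardinal.aleph0 := by
      rw [hcard]
      exact Cardinal.natCast_lt_aleph0
    exact Cardinal.lt_aleph0_iff_set_finite.1 this
  have hbn : b.ncard = n := by
    rw [Set.ncard, Set.encard, ENat.card, hcard]
    simp
  have hgn : (Set.range g).ncard = j := by
    rw [← Set.image_univ, Set.ncard_image_of_injective _ hg.injective, Set.ncard_univ,
      Nat.card_eq_fintype_card, Fintype.card_fin]
  have hdn : (b \ Set.range g).ncard = n - j := by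
    rw [Set.ncard_sdiff hb1 (Set.finite_range g), hbn, hgn]
  have hdf : (b \ Set.range g).Finite := hbfin.sdiff
  have : Fintype (b \ Set.range g : Set L) := hdf.fintype
  have hc : Fintype.card (b \ Set.range g : Set L) = n - j := by
    rw [← hdn, Set.ncard_eq_toFinset_card', Set.toFinset_card]
  let e := (Fintype.equivFinOfCardEq hc).symm
  have he : ∀ a, ∃ x ∈ affS y i, algebraMap K L x = (e a : L) := by
    intro a
    have h1 := (e a).2
    rcases hb2 h1.1 with h2 | h2
    · exact absurd h2 h1.2
    · rw [hT] at h2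
      exact h2
  choose u hu hue using he
  refine ⟨u, hu, dg_pos ?_⟩
  have h1 : Set.range (Sum.elim (fun a => algebraMap K L (u a)) g) = b := by
    rw [Set.Sum.elim_range]
    have h2 : Set.range (fun a => algebraMap K L (u a)) = b \ Set.range g := by
      ext x
      constructor
      · rintro ⟨a, rfl⟩
        simp only []
        rw [hue]
        exact (e a).2
      · intro hx
        refine ⟨e.symm ⟨x, hx⟩, ?_⟩
        simp only []
        rw [hue]
        simp
    rw [h2, Set.sdiff_union_of_subset hb1]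
  rw [h1]
  have h2 := hb.isAlgebraic_field
  rwa [Subtype.range_coe] at h2

/-- linear combinations of sections are sections -/
theorem CSec.lin {T : Place ℂ K → ℚ} {m : ℕ} {ι : Type} [Fintype ι] {h : ι → L}
    (hh : ∀ l, CSec y T m (h l)) (c : ι → ℂ) (h0 : ∑ l, c l • h l ≠ 0) :
    CSec y T m (∑ l, c l • h l) := by
  classical
  intro Q P e hov hP
  obtain ⟨r, hr⟩ : ∃ r : ℤ, r = ⌈-((e : ℚ) * (m * T P))⌉ := ⟨_, rfl⟩
  have h1 : ∑ l, c l • h l ∈ geSub ℂ Q r := by
    refine sum_mem fun l _ => Submodule.smul_mem _ _ ?_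
    rw [mem_geSub]
    right
    rw [hr, Int.ceil_le]
    have := hh l Q P e hov hP
    linarith
  have h2 := (mem_geSub.1 h1).resolve_left h0
  rw [hr, Int.ceil_le] at h2
  linarith

/-- **The number of sections on a covering and the degree of the fibres.** -/
theorem cover_ineq (hy : NormalModel y) (hn : Algebra.trdeg ℂ K = n) {i : Fin (N + 1)}
    (hi : y i ≠ 0) {T : Place ℂ K → ℚ} {m : ℕ} {B : ℝ} {j : ℕ} (hj : 1 ≤ j)
    (hB : j ≤ n → ∀ (u : Fin (n - j) → K),
      (∀ a, u a ∈ Submodule.span ℂ (affS y i)) → ∀ h : Fin (j + 1) → L, (∀ i, h i ≠ 0) →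
      (∀ i, CSec y T m (h i)) →
      (dg ℂ (Sum.elim (fun a => algebraMap K L (u a)) fun i : Fin j => h i.succ / h 0) : ℝ) ≤ B)
    {ι : Type} [Fintype ι] {h : ι → L} (hli : LinearIndependent ℂ h)
    (hh : ∀ l, CSec y T m (h l)) {o : ι} {R : Subfield L} (hKR : ∀ x, algebraMap K L x ∈ R)
    (hR : ∀ l, h l / h o ∈ R)
    (htr : Algebra.trdeg ℂ (IntermediateField.adjoin ℂ (Set.range fun l => h l / h o)) = j) :
    j ≤ n ∧ (((Fintype.card ι - j : ℕ) : ℝ) * finrank R L : ℝ) ≤ B := by
  classical
  have hnL : Algebra.trdeg ℂ L = n := trdeg_up (K := K) hn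
  have ho : h o ≠ 0 := hli.ne_zero o
  have hli' : LinearIndependent ℂ (fun l => h l / h o) := by
    rw [Fintype.linearIndependent_iff] at hli ⊢
    intro g hg
    refine hli g ?_
    have h1 : ∑ l, g l • h l = (∑ l, g l • (h l / h o)) * h o := by
      rw [Finset.sum_mul]
      refine Finset.sum_congr rfl fun l _ => ?_
      rw [smul_mul_assoc, div_mul_cancel₀ _ ho]
    rw [h1, hg, zero_mul]
  obtain ⟨f, c, β, hfc, hfi, hβM, hβf, hβ⟩ := min_deg_up (v := fun l => h l / h o) (o := o)
    (div_self ho) hj htr hli'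
  obtain ⟨g, hg⟩ : ∃ g : Fin j → L, g = fun a => ∑ l, c a l • h l := ⟨_, rfl⟩
  have hfg : ∀ a, f a = g a / h o := by
    intro a
    rw [hfc, hg]
    simp only []
    rw [Finset.sum_div]
    exact Finset.sum_congr rfl fun l _ => (smul_div_assoc _ _ _).symm
  have hg0 : ∀ a, g a ≠ 0 := by
    intro a h1
    have h2 := hfi.ne_zero a
    rw [hfg, h1, zero_div] at h2
    exact h2 rfl
  have hjn : j ≤ n := by
    have h1 := hfi.cardinalMk_le_trdeg
    rw [hnL, Cardinal.mk_fin] at h1
    exact_mod_cast h1
  refine ⟨hjn, ?_⟩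
  obtain ⟨u, hu, hdg⟩ := exists_complete_cover (L := L) hy hn hi hfi
  have hdg0 := hdg.ne'
  have hbas : AlgebraicIndependent ℂ (Sum.elim (fun a => algebraMap K L (u a)) f) :=
    (basis_of_dg (k := ℂ) (by
      rw [hnL, Nat.card_eq_fintype_card, Fintype.card_sum, Fintype.card_fin, Fintype.card_fin]
      congr 1
      omega) hdg0).1
  have hRM : ∀ x ∈ IntermediateField.adjoin ℂ (Set.range fun l => h l / h o), x ∈ R := by
    intro x hx
    have h1 : (IntermediateField.adjoin ℂ (Set.range fun l => h l / h o)).toSubfield ≤ R := by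
      refine Subfield.closure_le.2 ?_
      rintro x (⟨c, rfl⟩ | ⟨l, rfl⟩)
      · rw [IsScalarTower.algebraMap_apply ℂ K L]
        exact hKR _
      · exact hR l
    exact h1 hx
  have h1 := disj_bound (R := R) (f := f) (u := fun a => algebraMap K L (u a)) (fun a => by
      rw [hfc]
      refine sum_mem fun l _ => ?_
      rw [Algebra.smul_def]
      refine mul_mem ?_ (hR l)
      rw [IsScalarTower.algebraMap_apply ℂ K L]
      exact hKR _) (fun a => hKR _) (fun c => by
      rw [IsScalarTower.algebraMap_apply ℂ K L]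
      exact hKR _) hbas (fun a => hRM _ (hβM a)) hβf hβ hdg0
  have h2 := hB hjn u (fun a => Submodule.subset_span (hu a))
    (Fin.cons (h o) g : Fin (j + 1) → L) (fun a => by
      refine Fin.cases ?_ (fun a => ?_) a
      · exact ho
      · exact hg0 a) (fun a => by
      refine Fin.cases ?_ (fun a => ?_) a
      · exact hh o
      · rw [Fin.cons_succ, hg]
        refine CSec.lin hh _ ?_
        have := hg0 a
        rwa [hg] at this)
  have h3 : (fun a : Fin j => (Fin.cons (h o) g : Fin (j + 1) → L) a.succ /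
      (Fin.cons (h o) g : Fin (j + 1) → L) 0) = f := by
    funext a
    rw [Fin.cons_succ, Fin.cons_zero, hfg]
  rw [h3] at h2
  refine le_trans ?_ h2
  exact_mod_cast h1

end Run7.h612.AB
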