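import Pool.Agent.Run7.h612.AB.Iitaka
import Pool.Agent.N110.RK.Stat

/-!
The field of the Iitaka fibration.
-/

set_option autoImplicit false
set_option linter.overlappingInstances false
set_option linter.unusedSectionVars false

open FF Module Pool.Agent.W602.GT Pool.Agent.W603.LV Pool.Agent.W619.PQ
open Pool.Agent.Y172 Pool.Agent.Y191 Pool.Agent.R887 Pool.Agent.N110

namespace Run7.h612.AB

variable {K : Type} [Field K] [Algebra ℂ K] {N : ℕ} {y : Fin (N + 1) → K} {n : ℕ}

/-- the Kodaira dimension in terms of functions -/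
def KGe (y : Fin (N + 1) → K) (T : Place ℂ K → ℚ) (k : ℕ) : Prop :=
  ∃ m : ℕ, 1 ≤ m ∧ ∃ g : Fin (k + 1) → K, (∀ i, KSec y T m (g i)) ∧ g 0 ≠ 0 ∧
    AlgebraicIndependent ℂ (fun i : Fin k => g i.succ / g 0)

theorem kappa_iff {Δ : Place ℂ K → ℚ} {x : Fin n → K} {E : Fin n → Derivation ℂ K K}
    (hx : IsTranscendenceBasis ℂ x) (hE : ∀ i j, E i (x j) = if i = j then 1 else 0)
    {c : Place ℂ K → ℤ}
    (hc : ∀ P, IsPrimeDivisor y P → ∀ (m : ℕ)
      (ω : (Fin n → Derivation ℂ K K) → K), IsPluri m ω → ∀ r : ℚ, OrdGe P ω r ↔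
        (ω E = 0 ∨ r ≤ m * c P + P.ord (ω E))) (k : ℕ) :
    KappaGe y n Δ k ↔ KGe y (fun P => c P + Δ P) k := by
  have hfr : IsFrame E := fun F => ⟨fun j => F (x j),
    (Pool.Agent.W73.PG.PULL.expand x hx E hE F).symm⟩
  constructor
  · rintro ⟨m, hm, ω, E0, hω, h0, hind⟩
    refine ⟨m, hm, fun i => ω i E, fun i P hP => ?_, (Pool.Agent.R887.ratio_frame hfr (hω 0).1 (hω 0).1 h0).1, ?_⟩
    · have h1 := (hω i).2 P hP
      rw [hc P hP m _ (hω i).1] at h1
      rcases h1 with h2 | h2
      · exact Or.inl h2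
      · right
        rw [Pi.smul_apply, nsmul_eq_mul] at h2
        linarith
    · have h1 : (fun i : Fin k => ω i.succ E / ω 0 E) = fun i : Fin k => ω i.succ E0 / ω 0 E0 := by
        funext i
        exact (Pool.Agent.R887.ratio_frame hfr (hω 0).1 (hω i.succ).1 h0).2.symm
      rw [h1]
      exact hind
  · rintro ⟨m, hm, g, hg, h0, hind⟩
    refine ⟨m, hm, fun i => frm x m (g i), E, fun i => ⟨frm_pluri _ _ _, fun P hP => ?_⟩, ?_, ?_⟩
    · rw [hc P hP m _ (frm_pluri _ _ _), frm_self hE, Pi.smul_apply, nsmul_eq_mul]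
      rcases hg i P hP with h2 | h2
      · exact Or.inl h2
      · right
        linarith
    · change frm x m (g 0) E ≠ 0
      rwa [frm_self hE]
    · simp only [frm_self hE]
      exact hind

theorem KSec.mul {T : Place ℂ K → ℚ} {m m' : ℕ} {g g' : K} (hg : KSec y T m g)
    (hg' : KSec y T m' g') : KSec y T (m + m') (g * g') := by
  intro P hP
  have h1 := (hg P hP).mul (hg' P hP)
  have h2 : (-(((m + m' : ℕ) : ℚ) * T P)) = -(m * T P) + -(m' * T P) := by
    push_cast
    ring
  rw [h2]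
  exact h1

theorem KSec.one (T : Place ℂ K → ℚ) : KSec y T 0 (1 : K) := by
  intro P _
  right
  rw [P.ord_one]
  simp

theorem KSec.prod {T : Place ℂ K → ℚ} {ι : Type} {s : Finset ι} {m : ι → ℕ} {g : ι → K}
    (hg : ∀ i ∈ s, KSec y T (m i) (g i)) : KSec y T (∑ i ∈ s, m i) (∏ i ∈ s, g i) := by
  classical
  induction s using Finset.induction_on with
  | empty => exact KSec.one T
  | insert a s ha ih =>
    rw [Finset.sum_insert ha, Finset.prod_insert ha]
    exact (hg a (Finset.mem_insert_self _ _)).mul (ih fun i hi => hg i (Finset.mem_insert_of_mem hi))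

/-- algebraically independent quotients of sections -/
theorem kge_of_indep {T : Place ℂ K → ℚ} {k : ℕ} (hk : 1 ≤ k) {z : Fin k → K}
    (hz : ∀ i, z i ∈ ISet y T) (hind : AlgebraicIndependent ℂ z) : KGe y T k := by
  classical
  choose m hm g g' hg0 hg hg' hzg using hz
  refine ⟨∑ i, m i, ?_, Fin.cons (∏ i, g' i) fun i => g i * ∏ l ∈ Finset.univ.erase i, g' l,
    fun a => ?_, ?_, ?_⟩
  · have h1 : m ⟨0, hk⟩ ≤ ∑ i, m i := Finset.single_le_sum (fun _ _ => Nat.zero_le _)
      (Finset.mem_univ _)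
    exact (hm _).trans h1
  · refine Fin.cases ?_ (fun i => ?_) a
    · rw [Fin.cons_zero]
      exact KSec.prod fun i _ => hg' i
    · rw [Fin.cons_succ, ← Finset.add_sum_erase _ _ (Finset.mem_univ i)]
      exact (hg i).mul (KSec.prod fun l _ => hg' l)
  · rw [Fin.cons_zero]
    exact Finset.prod_ne_zero_iff.2 fun i _ => hg0 i
  · have h1 : (fun i : Fin k => (Fin.cons (∏ i, g' i) fun i => g i *
        ∏ l ∈ Finset.univ.erase i, g' l : Fin (k + 1) → K) i.succ / (Fin.cons (∏ i, g' i)
        fun i => g i * ∏ l ∈ Finset.univ.erase i, g' l : Fin (k + 1) → K) 0) = z := by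
      funext i
      rw [Fin.cons_succ, Fin.cons_zero, ← Finset.mul_prod_erase _ _ (Finset.mem_univ i), hzg i,
        mul_div_mul_right]
      exact Finset.prod_ne_zero_iff.2 fun l _ => hg0 l
    rw [h1]
    exact hind

/-- the field of the Iitaka fibration -/
noncomputable def IField (y : Fin (N + 1) → K) (T : Place ℂ K → ℚ) : IntermediateField ℂ K :=
  (algebraicClosure (IntermediateField.adjoin ℂ (ISet y T)) K).restrictScalars ℂ

theorem mem_IField {T : Place ℂ K → ℚ} {x : K} :
    x ∈ IField y T ↔ IsAlgebraic (IntermediateField.adjoin ℂ (ISet y T)) x :=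
  mem_algebraicClosure_iff

theorem adjoin_le_IField (T : Place ℂ K → ℚ) :
    IntermediateField.adjoin ℂ (ISet y T) ≤ IField y T := fun x hx =>
  mem_IField.2 (isAlgebraic_algebraMap (⟨x, hx⟩ : IntermediateField.adjoin ℂ (ISet y T)))

theorem IField_closed {T : Place ℂ K → ℚ} {x : K} (hx : IsAlgebraic (IField y T) x) :
    x ∈ IField y T := by
  rw [mem_IField]
  have h1 : IsAlgebraic (algebraicClosure (IntermediateField.adjoin ℂ (ISet y T)) K) x := hx
  exact h1.restrictScalars _

/-- the transcendence degree of the algebraic closure -/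
theorem trdeg_closure {L : Type} [Field L] [Algebra ℂ L] (S : Type) [Field S] [Algebra ℂ S]
    [Algebra S L] [IsScalarTower ℂ S L] :
    Algebra.trdeg ℂ (algebraicClosure S L) = Algebra.trdeg ℂ S := by
  have h1 := _root_.trdeg_add_eq ℂ S (A := algebraicClosure S L)
  have h2 : Algebra.trdeg S (algebraicClosure S L) = 0 := _root_.trdeg_eq_zero
  rw [h2, add_zero] at h1
  exact h1.symm

theorem trdeg_adjoin_le {T : Place ℂ K → ℚ} {k : ℕ} (hk : ¬ KGe y T (k + 1)) :
    Algebra.trdeg ℂ (IntermediateField.adjoin ℂ (ISet y T)) ≤ k := by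
  classical
  obtain ⟨S, hS⟩ : ∃ S, S = IntermediateField.adjoin ℂ (ISet y T) := ⟨_, rfl⟩
  rw [← hS]
  obtain ⟨s, hs⟩ : ∃ s : Set S, s = {x : S | (x : K) ∈ ISet y T} := ⟨_, rfl⟩
  have htop : IntermediateField.adjoin ℂ s = ⊤ := by
    apply IntermediateField.map_injective S.val
    rw [IntermediateField.adjoin_map, ← AlgHom.fieldRange_eq_map, IntermediateField.fieldRange_val]
    have h1 : (S.val : S → K) '' s = ISet y T := by
      rw [hs]
      ext x
      constructor
      · rintro ⟨z, hz, rfl⟩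
        exact hz
      · intro hx
        exact ⟨⟨x, by rw [hS]; exact IntermediateField.subset_adjoin _ _ hx⟩, hx, rfl⟩
    rw [h1, hS]
  have halg : Algebra.IsAlgebraic (Algebra.adjoin ℂ s) S := by
    have h1 : Algebra.IsAlgebraic (IntermediateField.adjoin ℂ s) S := by
      constructor
      intro x
      have hx : x ∈ IntermediateField.adjoin ℂ s := by
        rw [htop]
        trivial
      exact isAlgebraic_algebraMap (⟨x, hx⟩ : IntermediateField.adjoin ℂ s)
    open scoped IntermediateField.algebraAdjoinAdjoin in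
    exact Algebra.IsAlgebraic.trans _ (IntermediateField.adjoin ℂ s) S
  obtain ⟨t, ht, hb⟩ := exists_isTranscendenceBasis_subset (R := ℂ) s
  rw [← hb.cardinalMk_eq_trdeg]
  by_contra hcon
  push Not at hcon
  have h1 : ((k + 1 : ℕ) : Cardinal) ≤ Cardinal.mk t := by
    have h2 := Order.succ_le_of_lt hcon
    rw [Cardinal.succ_natCast] at h2
    push_cast
    exact h2
  rw [← Cardinal.mk_fin, Cardinal.le_def] at h1
  obtain ⟨e⟩ := h1
  apply hk
  refine kge_of_indep (Nat.succ_pos k) (z := fun i => ((e i : S) : K)) (fun i => ?_) ?_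
  · have h2 := ht (e i).2
    rw [hs] at h2
    exact h2
  · exact (hb.1.comp e e.injective).map' (f := S.val) S.val.injective

theorem le_trdeg_adjoin {T : Place ℂ K → ℚ} {k : ℕ} (hk : KGe y T k) :
    (k : Cardinal) ≤ Algebra.trdeg ℂ (IntermediateField.adjoin ℂ (ISet y T)) := by
  obtain ⟨m, hm, g, hg, h0, hind⟩ := hk
  have h1 : ∀ i : Fin k, g i.succ / g 0 ∈ IntermediateField.adjoin ℂ (ISet y T) := fun i =>
    IntermediateField.subset_adjoin _ _ ⟨m, hm, _, _, h0, hg _, hg _, rfl⟩
  have h2 : AlgebraicIndependent ℂ (fun i : Fin k =>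
      (⟨g i.succ / g 0, h1 i⟩ : IntermediateField.adjoin ℂ (ISet y T))) := by
    exact AlgebraicIndependent.of_comp (IntermediateField.adjoin ℂ (ISet y T)).val hind
  have h3 := h2.cardinalMk_le_trdeg
  rwa [Cardinal.mk_fin] at h3

end Run7.h612.AB
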