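import Pool.Agent.Run7.h612.AB.Plu2
import Pool.Agent.R887.CorG
import Pool.Agent.R887.GapC

/-!
**The bound for the plurigenera of the coverings.**
-/

set_option autoImplicit false
set_option linter.overlappingInstances false
set_option linter.unusedSectionVars false

open FF Module Pool.Agent.W602.GT Pool.Agent.W603.LV Pool.Agent.W619.PQ
open Pool.Agent.Y172 Pool.Agent.Y191 Pool.Agent.R887
open Pool.Agent.N110 (affS KappaGe Abundant bez dm)

namespace Run7.h612.AB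

section

variable {K : Type} [Field K] [Algebra ℂ K] {N : ℕ} {y : Fin (N + 1) → K} {n : ℕ}

theorem trdeg_IField {T : Place ℂ K → ℚ} {k : ℕ} (h1 : KGe y T k) (h2 : ¬ KGe y T (k + 1)) :
    Algebra.trdeg ℂ (IField y T) = k := by
  have h3 : Algebra.trdeg ℂ (IField y T) =
      Algebra.trdeg ℂ (IntermediateField.adjoin ℂ (ISet y T)) :=
    trdeg_closure (L := K) (IntermediateField.adjoin ℂ (ISet y T))
  rw [h3]
  exact le_antisymm (trdeg_adjoin_le h2) (le_trdeg_adjoin h1)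

theorem delta_exists (hy : NormalModel y) (hn : Algebra.trdeg ℂ K = n) {i : Fin (N + 1)}
    (hi : y i ≠ 0) :
    ∃ δ : ℕ, ∀ v : Fin n → K, (∀ a, v a ∈ Submodule.span ℂ (affS y i)) → dg ℂ v ≤ δ := by
  obtain ⟨C, hC⟩ := bez hy hn hi
  refine ⟨C, fun v hv => ?_⟩
  have h1 := hC (Finset.univ.val.map v) (by simp) (by
    intro x hx
    obtain ⟨a, -, rfl⟩ := Multiset.mem_map.1 hx
    exact hv a)
  have h2 : dm ℂ (Finset.univ.val.map v) = dg ℂ v := by
    have h3 : Pool.Agent.N110.gen ℂ (Finset.univ.val.map v) =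
        IntermediateField.adjoin ℂ (Set.range v) := by
      unfold Pool.Agent.N110.gen
      congr 1
      ext x
      simp
    unfold dm dg
    rw [h3]
  rwa [h2] at h1

theorem affS_eq (i : Fin (N + 1)) : affS y i = aff y i := rfl

theorem delta_of_degreeLe {i : Fin (N + 1)} (hi : y i ≠ 0) {δ : ℕ} (h : DegreeLe y n δ) :
    ∀ v : Fin n → K, (∀ a, v a ∈ Submodule.span ℂ (affS y i)) → dg ℂ v ≤ δ := fun v hv =>
  h v fun a => pencil_of_span hi (by rw [← affS_eq]; exact hv a)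

/-- the degree is at least one -/
theorem delta_pos (hy : NormalModel y) (hn : Algebra.trdeg ℂ K = n) {i : Fin (N + 1)}
    (hi : y i ≠ 0) {δ : ℕ}
    (h : ∀ v : Fin n → K, (∀ a, v a ∈ Submodule.span ℂ (affS y i)) → dg ℂ v ≤ δ) : 1 ≤ δ := by
  obtain ⟨u, hu, hd⟩ := exists_complete_cover (L := K) hy hn hi (j := 0) (g := Fin.elim0)
    (algebraicIndependent_empty_type)
  obtain ⟨v, hv⟩ : ∃ v : Fin n → K, v = fun a : Fin n => u ⟨a.1, by omega⟩ := ⟨_, rfl⟩
  have h1 := h v (fun a => by rw [hv]; exact Submodule.subset_span (hu _))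
  have h2 : dg ℂ v = dg ℂ (Sum.elim (fun a => algebraMap K K (u a)) (Fin.elim0 : Fin 0 → K)) := by
    apply dg_congr
    rw [hv]
    ext z
    constructor
    · rintro ⟨a, rfl⟩
      exact ⟨Sum.inl ⟨a.1, by omega⟩, rfl⟩
    · rintro ⟨a | a, rfl⟩
      · exact ⟨⟨a.1, by omega⟩, rfl⟩
      · exact a.elim0
  omega

end

variable {K L : Type} [Field K] [Algebra ℂ K] [Field L] [Algebra ℂ L]
  [Algebra K L] [IsScalarTower ℂ K L] [FiniteDimensional K L] {N : ℕ} {y : Fin (N + 1) → K} {n : ℕ}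

/-- the explicit bound -/
theorem bound_explicit (hy : NormalModel y) (hn : Algebra.trdeg ℂ K = n) (hn0 : 0 < n)
    {Δ : Place ℂ K → ℚ} (hΔ : Effective y Δ) {x : Fin n → K} {E : Fin n → Derivation ℂ K K}
    (hx : IsTranscendenceBasis ℂ x) (hE : ∀ i j, E i (x j) = if i = j then 1 else 0)
    {c : Place ℂ K → ℤ} (hcfin : {P | IsPrimeDivisor y P ∧ c P ≠ 0}.Finite)
    (hc : ∀ P, IsPrimeDivisor y P → ∀ (m : ℕ)
      (ω : (Fin n → Derivation ℂ K K) → K), IsPluri m ω → ∀ r : ℚ, OrdGe P ω r ↔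
        (ω E = 0 ∨ r ≤ m * c P + P.ord (ω E))) {δ : ℕ} (hδ : DegreeLe y n δ)
    {μ : ℝ} (hμ : 0 ≤ μ) (hpp : PositiveProductLe y n Δ 1 μ) {k : ℕ}
    (hk : ¬ KGe y (fun P => c P + Δ P) (k + 1)) {m : ℕ} (hm : 1 ≤ m) :
    Module.Finite ℂ (Submodule.span ℂ
      {ω : (Fin n → Derivation ℂ L L) → L | IsCoverSection y n Δ m ω}) ∧
    (coverPlurigenus L y n Δ m * fibreDegree L (IField y fun P => c P + Δ P) : ℝ) ≤
      finrank K L * (k + δ * max 1 (m * μ) ^ k) := by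
  obtain ⟨i, hi⟩ := hy.ne
  have hδ' := delta_of_degreeLe hi hδ
  have hδ1 : (1 : ℝ) ≤ δ := by exact_mod_cast delta_pos hy hn hi hδ'
  have hmax : (1 : ℝ) ≤ max 1 (m * μ) := le_max_left _ _
  have hd0 : (0 : ℝ) ≤ finrank K L := Nat.cast_nonneg _
  refine pluri_le hy hn hx hE hc hi hm (b := δ * max 1 (m * μ) ^ k) ?_ (trdeg_adjoin_le hk) ?_
  · exact one_le_mul_of_one_le_of_one_le hδ1 (one_le_pow₀ hmax)
  · intro j hj1 hjk hjn u hu h h0 hh
    have h1 := cover_deg (L := L) hy hn hn0 hΔ hμ hpp hE hcfin hc hi hδ' hm hjn hu h0 hh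
    refine h1.trans ?_
    rw [mul_assoc]
    refine mul_le_mul_of_nonneg_left ?_ hd0
    refine mul_le_mul_of_nonneg_left ?_ (by linarith)
    calc ((m : ℝ) * μ) ^ j ≤ max 1 (m * μ) ^ j :=
          pow_le_pow_left₀ (by positivity) (le_max_right _ _) j
      _ ≤ max 1 (m * μ) ^ k := pow_le_pow_right₀ hmax hjk

/-- the bound with a constant which does not depend on the covering -/
theorem bound_const (hy : NormalModel y) (hn : Algebra.trdeg ℂ K = n)
    {Δ : Place ℂ K → ℚ} (hΔ : Effective y Δ) {x : Fin n → K} {E : Fin n → Derivation ℂ K K}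
    (hx : IsTranscendenceBasis ℂ x) (hE : ∀ i j, E i (x j) = if i = j then 1 else 0)
    {c : Place ℂ K → ℤ} (hcfin : {P | IsPrimeDivisor y P ∧ c P ≠ 0}.Finite)
    (hc : ∀ P, IsPrimeDivisor y P → ∀ (m : ℕ)
      (ω : (Fin n → Derivation ℂ K K) → K), IsPluri m ω → ∀ r : ℚ, OrdGe P ω r ↔
        (ω E = 0 ∨ r ≤ m * c P + P.ord (ω E))) {k : ℕ}
    (hk : ¬ KGe y (fun P => c P + Δ P) (k + 1)) :
    ∃ C : ℝ, ∀ (L : Type) [Field L] [Algebra ℂ L] [Algebra K L] [IsScalarTower ℂ K L]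
      [FiniteDimensional K L] (m : ℕ), 1 ≤ m →
      Module.Finite ℂ (Submodule.span ℂ
        {ω : (Fin n → Derivation ℂ L L) → L | IsCoverSection y n Δ m ω}) ∧
      (coverPlurigenus L y n Δ m * fibreDegree L (IField y fun P => c P + Δ P) : ℝ) ≤
        C * (finrank K L * m ^ k) := by
  classical
  obtain ⟨i, hi⟩ := hy.ne
  obtain ⟨A, hA, hAP⟩ := exists_hyp hy hi
  obtain ⟨δ, hδ⟩ := delta_exists hy hn hi
  obtain ⟨T, hT⟩ : ∃ T : Place ℂ K → ℚ, T = fun P => c P + Δ P := ⟨_, rfl⟩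
  have hTfin : {P | IsPrimeDivisor y P ∧ T P ≠ 0}.Finite := by
    refine (hcfin.union hΔ.2).subset ?_
    rintro P ⟨hP, h0⟩
    by_cases h1 : c P = 0
    · right
      refine ⟨hP, fun h2 => h0 ?_⟩
      rw [hT]
      simp only []
      rw [h1, h2, Int.cast_zero, zero_add]
    · exact Or.inl ⟨hP, h1⟩
  have hTA : Effective y (fun P => |T P|) := by
    refine ⟨fun P _ => abs_nonneg _, hTfin.subset ?_⟩
    rintro P ⟨hP, h0⟩
    exact ⟨hP, fun h1 => h0 (by simp only []; rw [h1, abs_zero])⟩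
  obtain ⟨f, β, hf, hβ⟩ := dominate hy hTA hi hA hAP
  have hβ' : ∀ P, IsPrimeDivisor y P → T P ≤ P.ord f + β * A P := fun P hP =>
    (le_abs_self _).trans (hβ P hP)
  have hδ1 : (1 : ℝ) ≤ δ := by exact_mod_cast delta_pos hy hn hi hδ
  refine ⟨k + δ * (β + 1) ^ k, fun L _ _ _ _ _ m hm => ?_⟩
  have hm1 : (1 : ℝ) ≤ m := by exact_mod_cast hm
  have hmk : (1 : ℝ) ≤ (m : ℝ) ^ k := one_le_pow₀ hm1
  have hβ1 : (1 : ℝ) ≤ (β : ℝ) + 1 := by
    have : (0 : ℝ) ≤ β := Nat.cast_nonneg _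
    linarith
  have hd0 : (0 : ℝ) ≤ finrank K L := Nat.cast_nonneg _
  have h1 := pluri_le (L := L) hy hn hx hE hc hi hm (b := δ * (m * (β + 1)) ^ k) (by
    refine one_le_mul_of_one_le_of_one_le hδ1 (one_le_pow₀ ?_)
    exact one_le_mul_of_one_le_of_one_le hm1 hβ1) (trdeg_adjoin_le hk) (by
    intro j hj1 hjk hjn u hu h h0 hh
    rw [← hT] at hh
    have h1 := cover_deg0 (L := L) hy hn hi hAP hδ hf hβ' (m := m) hjn hu h0 hh
    have h2 : (dg ℂ (Sum.elim (fun a => algebraMap K L (u a)) fun i : Fin j => h i.succ / h 0) : ℝ)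
        ≤ ((m : ℝ) * β) ^ j * (δ * finrank K L) := by exact_mod_cast h1
    refine h2.trans ?_
    have h3 : ((m : ℝ) * β) ^ j ≤ (m * (β + 1)) ^ k := by
      have h4 : (m : ℝ) * β ≤ m * (β + 1) := mul_le_mul_of_nonneg_left (by linarith) (by linarith)
      calc ((m : ℝ) * β) ^ j ≤ (m * (β + 1)) ^ j := pow_le_pow_left₀ (by positivity) h4 j
        _ ≤ (m * (β + 1)) ^ k := pow_le_pow_right₀ (one_le_mul_of_one_le_of_one_le hm1 hβ1) hjk
    have h5 := mul_le_mul_of_nonneg_right h3 (show (0 : ℝ) ≤ δ * finrank K L by positivity)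
    refine h5.trans (le_of_eq ?_)
    ring)
  refine ⟨h1.1, h1.2.trans ?_⟩
  have h2 : (k : ℝ) ≤ k * (m : ℝ) ^ k := le_mul_of_one_le_right (Nat.cast_nonneg _) hmk
  have h3 : (k : ℝ) + δ * (m * (β + 1)) ^ k ≤ (k + δ * (β + 1) ^ k) * (m : ℝ) ^ k := by
    rw [mul_pow]
    linarith
  have h4 := mul_le_mul_of_nonneg_left h3 hd0
  linarith

end Run7.h612.AB
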