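import Pool.Agent.Run7.h612.AB.Main1

/-!
**Many sections on the variety, and the criterion.**
-/

set_option autoImplicit false
set_option linter.overlappingInstances false
set_option linter.unusedSectionVars false

open FF Module Pool.Agent.W602.GT Pool.Agent.W603.LV Pool.Agent.W619.PQ
open Pool.Agent.Y172 Pool.Agent.Y191 Pool.Agent.R887
open Pool.Agent.N110 (affS KappaGe Abundant bez dm)

namespace Run7.h612.AB

section

variable {K : Type} [Field K] [Algebra ℂ K] {N : ℕ} {y : Fin (N + 1) → K} {n : ℕ}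

theorem KSec.pow {T : Place ℂ K → ℚ} {m : ℕ} {g : K} (hg : KSec y T m g) (q : ℕ) :
    KSec y T (q * m) (g ^ q) := by
  have h1 := KSec.prod (y := y) (T := T) (s := (Finset.univ : Finset (Fin q))) (m := fun _ => m)
    (g := fun _ => g) fun _ _ => hg
  simpa using h1

/-- the sections as forms -/
theorem section_of_ksec {Δ : Place ℂ K → ℚ} {x : Fin n → K} {E : Fin n → Derivation ℂ K K}
    (hE : ∀ i j, E i (x j) = if i = j then 1 else 0)
    {c : Place ℂ K → ℤ}
    (hc : ∀ P, IsPrimeDivisor y P → ∀ (m : ℕ)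
      (ω : (Fin n → Derivation ℂ K K) → K), IsPluri m ω → ∀ r : ℚ, OrdGe P ω r ↔
        (ω E = 0 ∨ r ≤ m * c P + P.ord (ω E))) {m : ℕ} {g : K}
    (hg : KSec y (fun P => c P + Δ P) m g) : IsSection y n m (m • Δ) (frm x m g) := by
  refine ⟨frm_pluri _ _ _, fun P hP => ?_⟩
  rw [hc P hP m _ (frm_pluri _ _ _), frm_self hE, Pi.smul_apply, nsmul_eq_mul]
  rcases hg P hP with h2 | h2
  · exact Or.inl h2
  · right
    linarith

/-- **Many sections.** -/
theorem many_sections {Δ : Place ℂ K → ℚ} {x : Fin n → K} {E : Fin n → Derivation ℂ K K}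
    (hE : ∀ i j, E i (x j) = if i = j then 1 else 0)
    {c : Place ℂ K → ℤ}
    (hc : ∀ P, IsPrimeDivisor y P → ∀ (m : ℕ)
      (ω : (Fin n → Derivation ℂ K K) → K), IsPluri m ω → ∀ r : ℚ, OrdGe P ω r ↔
        (ω E = 0 ∨ r ≤ m * c P + P.ord (ω E))) {m0 ν : ℕ} {g : Fin (ν + 1) → K}
    (hg : ∀ i, KSec y (fun P => c P + Δ P) m0 (g i)) (hg0 : g 0 ≠ 0)
    (hind : AlgebraicIndependent ℂ (fun i : Fin ν => g i.succ / g 0)) (q : ℕ)
    (hfin : Module.Finite ℂ (Submodule.span ℂ
      {ω : (Fin n → Derivation ℂ K K) → K | IsCoverSection y n Δ (ν * q * m0) ω})) :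
    (q + 1) ^ ν ≤ coverPlurigenus K y n Δ (ν * q * m0) := by
  classical
  obtain ⟨e, he⟩ : ∃ e : (Fin ν → Fin (q + 1)) → Fin (ν + 1) → ℕ, e = fun a =>
    Fin.cons (ν * q - ∑ i, (a i : ℕ)) fun i => (a i : ℕ) := ⟨_, rfl⟩
  have hle : ∀ a : Fin ν → Fin (q + 1), ∑ i, (a i : ℕ) ≤ ν * q := by
    intro a
    have h1 : ∑ i, (a i : ℕ) ≤ ∑ _i : Fin ν, q := Finset.sum_le_sum fun i _ => by omega
    simpa using h1
  have hsum : ∀ a, ∑ i, e a i = ν * q := by
    intro a
    rw [he, Fin.sum_univ_succ]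
    simp only [Fin.cons_zero, Fin.cons_succ]
    have := hle a
    omega
  obtain ⟨G, hG⟩ : ∃ G : (Fin ν → Fin (q + 1)) → K, G = fun a => ∏ i, g i ^ e a i := ⟨_, rfl⟩
  have hGs : ∀ a, KSec y (fun P => c P + Δ P) (ν * q * m0) (G a) := by
    intro a
    have h1 := KSec.prod (s := Finset.univ) (fun i (_ : i ∈ Finset.univ) => (hg i).pow (e a i))
    rw [← Finset.sum_mul, hsum] at h1
    rw [hG]
    exact h1
  have hGe : ∀ a, G a = g 0 ^ (ν * q) * ∏ i : Fin ν, (g i.succ / g 0) ^ (a i : ℕ) := by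
    intro a
    have h2 : g 0 ^ (ν * q) = g 0 ^ (ν * q - ∑ i, (a i : ℕ)) * ∏ i : Fin ν, g 0 ^ (a i : ℕ) := by
      rw [Finset.prod_pow_eq_pow_sum, ← pow_add]
      congr 1
      have := hle a
      omega
    rw [hG, he]
    simp only []
    rw [Fin.prod_univ_succ]
    simp only [Fin.cons_zero, Fin.cons_succ]
    rw [h2, mul_assoc, ← Finset.prod_mul_distrib]
    congr 1
    refine Finset.prod_congr rfl fun i _ => ?_
    rw [div_pow, mul_div_cancel₀ _ (pow_ne_zero _ hg0)]
  have hmon : LinearIndependent ℂ fun a : Fin ν → Fin (q + 1) =>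
      ∏ i : Fin ν, (g i.succ / g 0) ^ (a i : ℕ) := by
    have h1 := (MvPolynomial.basisMonomials (Fin ν) ℂ).linearIndependent.map'
      (MvPolynomial.aeval (R := ℂ) (fun i : Fin ν => g i.succ / g 0)).toLinearMap
      (LinearMap.ker_eq_bot.2 hind)
    have h2 := h1.comp (fun a : Fin ν → Fin (q + 1) => Finsupp.equivFunOnFinite.symm
      (fun i => (a i : ℕ))) (by
      intro a b hab
      have h3 := Finsupp.equivFunOnFinite.symm.injective hab
      funext i
      exact Fin.ext (congrFun h3 i))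
    have h3 : (fun a : Fin ν → Fin (q + 1) => ∏ i : Fin ν, (g i.succ / g 0) ^ (a i : ℕ)) =
        ((MvPolynomial.aeval (R := ℂ) (fun i : Fin ν => g i.succ / g 0)).toLinearMap ∘
          (MvPolynomial.basisMonomials (Fin ν) ℂ)) ∘
            (fun a : Fin ν → Fin (q + 1) => Finsupp.equivFunOnFinite.symm
      (fun i => (a i : ℕ))) := by
      funext a
      simp only [Function.comp_apply, MvPolynomial.coe_basisMonomials, AlgHom.toLinearMap_apply,
        MvPolynomial.aeval_monomial, map_one, one_mul]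
      rw [Finsupp.prod_fintype _ _ fun i => pow_zero _]
      rfl
    rw [h3]
    exact h2
  have hGli : LinearIndependent ℂ G := by
    rw [Fintype.linearIndependent_iff] at hmon ⊢
    intro r hr
    refine hmon r ?_
    have h1 : ∑ a, r a • G a = g 0 ^ (ν * q) * ∑ a, r a •
        ∏ i : Fin ν, (g i.succ / g 0) ^ (a i : ℕ) := by
      rw [Finset.mul_sum]
      refine Finset.sum_congr rfl fun a _ => ?_
      rw [hGe, mul_smul_comm]
    rw [h1] at hr
    exact (mul_eq_zero.1 hr).resolve_left (pow_ne_zero _ hg0)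
  obtain ⟨W, hW⟩ : ∃ W, W = Submodule.span ℂ
      {ω : (Fin n → Derivation ℂ K K) → K | IsCoverSection y n Δ (ν * q * m0) ω} := ⟨_, rfl⟩
  unfold coverPlurigenus
  rw [← hW] at hfin ⊢
  have hmem : ∀ a, frm x (ν * q * m0) (G a) ∈ W := by
    intro a
    rw [hW]
    exact Submodule.subset_span (isCoverSection_self (section_of_ksec hE hc (hGs a)))
  have hli : LinearIndependent ℂ (fun a => (⟨frm x (ν * q * m0) (G a), hmem a⟩ : W)) := by
    refine LinearIndependent.of_comp W.subtype ?_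
    refine LinearIndependent.of_comp
      (LinearMap.proj (R := ℂ) (φ := fun _ : Fin n → Derivation ℂ K K => K) E) ?_
    have h1 : (LinearMap.proj (R := ℂ) (φ := fun _ : Fin n → Derivation ℂ K K => K) E) ∘
        (W.subtype ∘ fun a => (⟨frm x (ν * q * m0) (G a), hmem a⟩ : W)) = G := by
      funext a
      exact frm_self hE _ _
    rw [h1]
    exact hGli
  have h1 := hli.fintype_card_le_finrank
  simpa using h1

/-- the trivial covering is étale -/
theorem etale_self : EtaleInCodimOne K y := by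
  intro Q P e hP hov
  obtain ⟨s, hs0, hs⟩ := Q.surj
  have h2 : Q.ord s = e * P.ord s := hov.2 s
  rw [hs] at h2
  have h3 : (e : ℤ) ∣ 1 := ⟨_, h2⟩
  have h4 := Int.natCast_dvd_natCast.1 (by exact_mod_cast h3 : ((e : ℤ) ∣ ((1 : ℕ) : ℤ)))
  exact Nat.dvd_one.1 h4

end

end Run7.h612.AB
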