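import Pool.Agent.Run7.h612.AB.Main2

/-!
**The main theorem.**
-/

set_option autoImplicit false
set_option linter.overlappingInstances false
set_option linter.unusedSectionVars false

open FF Module Pool.Agent.W602.GT Pool.Agent.W603.LV Pool.Agent.W619.PQ
open Pool.Agent.Y172 Pool.Agent.Y191 Pool.Agent.R887
open Pool.Agent.N110 (affS KappaGe Abundant bez dm)

namespace Run7.h612.AB

variable {K : Type} [Field K] [Algebra ℂ K] {N : ℕ} {y : Fin (N + 1) → K} {n : ℕ}

theorem of_fibre {L : Type} [Field L] [Algebra ℂ L] [Algebra K L] [IsScalarTower ℂ K L]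
    [FiniteDimensional K L] {E : IntermediateField ℂ K} {p b : ℝ}
    (h : p * fibreDegree L E ≤ finrank K L * b) : p ≤ baseDegree L E * b := by
  have h1 : (0 : ℝ) < fibreDegree L E := by exact_mod_cast fibreDegree_pos E
  have h2 : (finrank K L : ℝ) = baseDegree L E * fibreDegree L E := by
    exact_mod_cast (base_mul_fibre (L := L) E).symm
  rw [h2] at h
  refine le_of_mul_le_mul_right (h.trans (le_of_eq ?_)) h1
  ring

/-- the quotients of the sections lie in the field of the Iitaka fibration -/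
theorem quot_mem_IField {Δ : Place ℂ K → ℚ} {x : Fin n → K} {E : Fin n → Derivation ℂ K K}
    (hx : IsTranscendenceBasis ℂ x) (hE : ∀ i j, E i (x j) = if i = j then 1 else 0)
    {c : Place ℂ K → ℤ}
    (hc : ∀ P, IsPrimeDivisor y P → ∀ (m : ℕ)
      (ω : (Fin n → Derivation ℂ K K) → K), IsPluri m ω → ∀ r : ℚ, OrdGe P ω r ↔
        (ω E = 0 ∨ r ≤ m * c P + P.ord (ω E))) {m : ℕ} (hm : 1 ≤ m)
    {ω ω' : (Fin n → Derivation ℂ K K) → K} (hω : IsSection y n m (m • Δ) ω)
    (hω' : IsSection y n m (m • Δ) ω') {D : Fin n → Derivation ℂ K K} (h0 : ω D ≠ 0) :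
    ω' D / ω D ∈ IField y fun P => c P + Δ P := by
  have hfr : IsFrame E := fun F => ⟨fun j => F (x j),
    (Pool.Agent.W73.PG.PULL.expand x hx E hE F).symm⟩
  have hsec : ∀ {η : (Fin n → Derivation ℂ K K) → K}, IsSection y n m (m • Δ) η →
      KSec y (fun P => c P + Δ P) m (η E) := by
    intro η hη P hP
    have h1 := hη.2 P hP
    rw [hc P hP m _ hη.1] at h1
    rcases h1 with h2 | h2
    · exact Or.inl h2
    · right
      rw [Pi.smul_apply, nsmul_eq_mul] at h2
      linarith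
  have h1 := Pool.Agent.R887.ratio_frame hfr hω.1 hω'.1 h0
  rw [h1.2]
  exact adjoin_le_IField _ (IntermediateField.subset_adjoin _ _
    ⟨m, hm, _, _, h1.1, hsec hω', hsec hω, rfl⟩)

/-- **The plurigenera of the coverings.** -/
theorem main_bound (hy : NormalModel y) (hn : Algebra.trdeg ℂ K = n) (hn0 : 0 < n)
    {Δ : Place ℂ K → ℚ} (hΔ : Effective y Δ) {k : ℕ} (hk : KappaGe y n Δ k)
    (hk' : ¬ KappaGe y n Δ (k + 1)) :
    ∃ E : IntermediateField ℂ K, IsIitaka y n Δ k E ∧
      ∀ (δ : ℕ) (μ : ℝ), DegreeLe y n δ → 0 ≤ μ → PositiveProductLe y n Δ 1 μ →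
        CoverPlurigeneraLe y n Δ E k δ μ := by
  have hess := hy.ess
  obtain ⟨x, E, hx, hE⟩ := exists_crd hn (k := ℂ) (K := K)
  obtain ⟨c, hcfin, hc⟩ := exists_ordc hy hn hx hE
  have hk1 := hk
  have hk1' := hk'
  rw [kappa_iff hx hE hc] at hk hk'
  refine ⟨IField y fun P => c P + Δ P, ⟨hk1, hk1', fun z hz => IField_closed hz,
    trdeg_IField hk hk',
    fun m ω ω' D hm hω hω' h0 => quot_mem_IField hx hE hc hm hω hω' h0⟩,
    fun δ μ hδ hμ hpp L _ _ _ _ _ m hm => ?_⟩
  exact of_fibre (bound_explicit hy hn hn0 hΔ hx hE hcfin hc hδ hμ hpp hk' hm).2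

/-- the finiteness of the plurigenera of the coverings, and their vanishing -/
theorem main_finite (hy : NormalModel y) (hn : Algebra.trdeg ℂ K = n)
    {Δ : Place ℂ K → ℚ} (hΔ : Effective y Δ)
    (L : Type) [Field L] [Algebra ℂ L] [Algebra K L] [IsScalarTower ℂ K L]
    [FiniteDimensional K L] {m : ℕ} (hm : 1 ≤ m) :
    Module.Finite ℂ (Submodule.span ℂ
      {ω : (Fin n → Derivation ℂ L L) → L | IsCoverSection y n Δ m ω}) ∧
      (¬ KappaGe y n Δ 0 → coverPlurigenus L y n Δ m = 0) := by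
  have hess := hy.ess
  obtain ⟨x, E, hx, hE⟩ := exists_crd hn (k := ℂ) (K := K)
  obtain ⟨c, hcfin, hc⟩ := exists_ordc hy hn hx hE
  constructor
  · have hk' : ¬ KGe y (fun P => c P + Δ P) (n + 1) := by
      rintro ⟨m, hm, g, -, -, hind⟩
      have h1 := hind.cardinalMk_le_trdeg
      rw [hn, Cardinal.mk_fin] at h1
      have h2 : n + 1 ≤ n := by exact_mod_cast h1
      omega
    obtain ⟨C, hC⟩ := bound_const hy hn hΔ hx hE hcfin hc hk'
    exact (hC L m hm).1
  · intro h0
    unfold coverPlurigenus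
    have h1 : {ω : (Fin n → Derivation ℂ L L) → L | IsCoverSection y n Δ m ω} ⊆ {0} := by
      intro ω hω
      exact no_sections hy hn hx hE hc h0 hm hω
    have h2 : Submodule.span ℂ {ω : (Fin n → Derivation ℂ L L) → L |
        IsCoverSection y n Δ m ω} = ⊥ := by
      rw [Submodule.span_eq_bot]
      exact fun ω hω => h1 hω
    rw [h2]
    exact finrank_bot ℂ _

/-- the Kodaira dimension is large if the plurigenera of the coverings grow -/
theorem kappa_of_growth (hy : NormalModel y) (hn : Algebra.trdeg ℂ K = n)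
    {Δ : Place ℂ K → ℚ} (hΔ : Effective y Δ) {ν : ℕ} (hν : 1 ≤ ν)
    (hg : CoverGrowth y n Δ ν) : KappaGe y n Δ ν := by
  classical
  have hess := hy.ess
  obtain ⟨x, E, hx, hE⟩ := exists_crd hn (k := ℂ) (K := K)
  obtain ⟨c, hcfin, hc⟩ := exists_ordc hy hn hx hE
  by_contra hcon
  by_cases h0 : KappaGe y n Δ 0
  · -- the Kodaira dimension
    obtain ⟨k, hk, hk'⟩ : ∃ k, KappaGe y n Δ k ∧ ¬ KappaGe y n Δ (k + 1) := by
      by_contra hne
      push Not at hne
      exact hcon (Nat.rec h0 (fun k hk => hne k hk) ν)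
    have hkν : k < ν := by
      by_contra h1
      push Not at h1
      apply hcon
      obtain ⟨m, hm, ω, D, hω, hω0, hind⟩ := hk
      refine ⟨m, hm, fun i => ω (Fin.castLE (by omega) i), D, fun i => hω _, hω0, ?_⟩
      exact hind.comp (Fin.castLE h1) (Fin.castLE_injective h1)
    rw [kappa_iff hx hE hc] at hk hk'
    obtain ⟨C, hC⟩ := bound_const hy hn hΔ hx hE hcfin hc hk'
    obtain ⟨L, _, _, _, _, _, m, hm, hlt⟩ := hg (IField y fun P => c P + Δ P) k C
      (fun z hz => IField_closed hz) (trdeg_IField hk hk') hkν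
    have h1 := of_fibre (L := L) (p := coverPlurigenus L y n Δ m)
      (E := IField y fun P => c P + Δ P) (b := C * (m : ℝ) ^ k) (by
      refine (hC L m hm).2.trans (le_of_eq ?_)
      ring)
    refine absurd (h1.trans (le_of_eq ?_)) (not_le.2 hlt)
    ring
  · obtain ⟨L, _, _, _, _, _, m, hm, hlt⟩ := hg ⊥ 0 0 (fun z hz => by
      rw [IntermediateField.mem_bot]
      have h1 : IsAlgebraic ℂ z := hz.restrictScalars ℂ
      exact minpoly.mem_range_of_degree_eq_one ℂ _ (IsAlgClosed.degree_eq_one_of_irreducible ℂ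
          (minpoly.irreducible h1.isIntegral))) (by
      have h1 : Algebra.trdeg ℂ (⊥ : IntermediateField ℂ K) = 0 := by
        have h2 := (IntermediateField.botEquiv ℂ K).trdeg_eq
        rw [h2]
        exact _root_.trdeg_eq_zero
      rw [h1, Nat.cast_zero]) hν
    rw [zero_mul, (main_finite hy hn hΔ L hm).2 h0, Nat.cast_zero] at hlt
    exact lt_irrefl _ hlt

/-- the plurigenera grow if the Kodaira dimension is large -/
theorem growth_of_kappa (hy : NormalModel y) (hn : Algebra.trdeg ℂ K = n)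
    {Δ : Place ℂ K → ℚ} (hΔ : Effective y Δ) {ν : ℕ}
    (hk : KappaGe y n Δ ν) : EtaleCoverGrowth y n Δ ν := by
  classical
  intro F j C _ _ hj
  have hess := hy.ess
  obtain ⟨x, E, hx, hE⟩ := exists_crd hn (k := ℂ) (K := K)
  obtain ⟨c, hcfin, hc⟩ := exists_ordc hy hn hx hE
  rw [kappa_iff hx hE hc] at hk
  obtain ⟨m0, hm0, g, hg, hg0, hind⟩ := hk
  obtain ⟨q, hq⟩ := exists_nat_gt (max 1 (C * ((ν * m0 : ℕ) : ℝ) ^ j))
  have hq1 : (1 : ℝ) < q := lt_of_le_of_lt (le_max_left _ _) hq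
  have hq2 := lt_of_le_of_lt (le_max_right _ _) hq
  have hq1' : 1 < q := by exact_mod_cast hq1
  have hm : 1 ≤ ν * q * m0 := Nat.mul_pos (Nat.mul_pos (by omega) (by omega)) hm0
  refine ⟨K, inferInstance, inferInstance, inferInstance, inferInstance, inferInstance,
    ν * q * m0, etale_self, hm, ?_⟩
  have h1 := many_sections hE hc hg hg0 hind q (main_finite hy hn hΔ K hm).1
  have h3 : ((q : ℝ) + 1) ^ ν ≤ coverPlurigenus K y n Δ (ν * q * m0) := by exact_mod_cast h1
  refine lt_of_lt_of_le ?_ h3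
  have h5 : baseDegree K F = 1 := by
    have h6 := base_mul_fibre (L := K) F
    rw [finrank_self] at h6
    exact Nat.eq_one_of_mul_eq_one_right h6
  rw [h5, Nat.cast_one, one_mul]
  have h6 : ((ν * q * m0 : ℕ) : ℝ) ^ j = ((ν * m0 : ℕ) : ℝ) ^ j * (q : ℝ) ^ j := by
    rw [← mul_pow]
    push_cast
    ring
  rw [h6, ← mul_assoc]
  have hqj : (0 : ℝ) < (q : ℝ) ^ j := by positivity
  calc C * ((ν * m0 : ℕ) : ℝ) ^ j * (q : ℝ) ^ j < q * (q : ℝ) ^ j :=
        mul_lt_mul_of_pos_right hq2 hqj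
    _ = (q : ℝ) ^ (j + 1) := by ring
    _ ≤ ((q : ℝ) + 1) ^ (j + 1) := pow_le_pow_left₀ (by positivity) (by linarith) _
    _ ≤ ((q : ℝ) + 1) ^ ν := pow_le_pow_right₀ (by linarith) hj

end Run7.h612.AB
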