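import Pool.Agent.Run7.h612.AB.Chain

/-!
**Varieties of minimal degree**: a function field of transcendence degree `j` which is generated by
`p` linearly independent functions has degree at least `p - j` over the field of `j` of their linear
combinations.
-/

set_option autoImplicit false

open Polynomial Set Module

namespace Run7.h612.AB

variable {M : Type} [Field M] [Algebra ℂ M]

theorem closed_range {x : M} (hx : IsAlgebraic (algebraMap ℂ M).fieldRange x) :
    x ∈ (algebraMap ℂ M).fieldRange := by
  obtain ⟨P, hP, hPx⟩ := hx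
  choose g hg using fun c : (algebraMap ℂ M).fieldRange => c.2
  have h1 : IsAlgebraic ℂ x := by
    let e : ℂ ≃+* (algebraMap ℂ M).fieldRange :=
      RingEquiv.ofBijective (algebraMap ℂ M).rangeRestrictField
        ⟨(algebraMap ℂ M).rangeRestrictField.injective,
          (algebraMap ℂ M).rangeRestrictField_bijective.2⟩
    refine ⟨P.map (e.symm : (algebraMap ℂ M).fieldRange →+* ℂ), ?_, ?_⟩
    · rwa [Ne, Polynomial.map_eq_zero_iff e.symm.injective]
    · rw [aeval_def, eval₂_map]
      have h2 : (algebraMap ℂ M).comp (e.symm : (algebraMap ℂ M).fieldRange →+* ℂ) =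
          algebraMap (algebraMap ℂ M).fieldRange M := by
        ext c
        have h3 : algebraMap ℂ M (e.symm c) = (e (e.symm c) : (algebraMap ℂ M).fieldRange) := rfl
        rw [RingHom.comp_apply]
        change algebraMap ℂ M (e.symm c) = _
        rw [h3, e.apply_symm_apply]
        rfl
      rw [h2]
      exact hPx
  exact minpoly.mem_range_of_degree_eq_one ℂ x (IsAlgClosed.degree_eq_one_of_irreducible ℂ
    (minpoly.irreducible h1.isIntegral))

/-- **Varieties of minimal degree.** -/
theorem min_deg {ι : Type} [Fintype ι] {v : ι → M} {o : ι} (ho : v o = 1)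
    (hgen : IntermediateField.adjoin ℂ (Set.range v) = ⊤) {j : ℕ} (hj : 1 ≤ j)
    (htr : Algebra.trdeg ℂ M = j) (hli : LinearIndependent ℂ v) :
    ∃ f : Fin j → M, (∀ a, ∃ c : ι → ℂ, f a = ∑ l, c l • v l) ∧ AlgebraicIndependent ℂ f ∧
      Fintype.card ι ≤ finrank (IntermediateField.adjoin ℂ (Set.range f)) M + j := by
  classical
  have hch : CharZero M := charZero_of_injective_algebraMap (algebraMap ℂ M).injective
  obtain ⟨ξ, P, hPv, hPC, hPξ⟩ := gen v (Fin j × ι)
  obtain ⟨fN, hfN⟩ : ∃ fN : ℕ → M, ∀ a (h : a < j), fN a =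
      ∑ l, algebraMap ℂ M (ξ (⟨a, h⟩, l)) * v l :=
    ⟨fun a => if h : a < j then ∑ l, algebraMap ℂ M (ξ (⟨a, h⟩, l)) * v l else 0,
      fun a h => dif_pos h⟩
  have hPf : ∀ (b : Fin j) l a, a < j → P (b, l) (fN a) = if (b : ℕ) = a then v l else 0 := by
    intro b l a ha
    rw [hfN a ha, map_sum]
    have h1 : ∀ l' ∈ Finset.univ, P (b, l) (algebraMap ℂ M (ξ (⟨a, ha⟩, l')) * v l') =
        if (b, l) = (⟨a, ha⟩, l') then v l' else 0 := by
      intro l' _
      rw [Derivation.leibniz, hPv, smul_zero, zero_add, hPξ, smul_eq_mul]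
      split_ifs
      · rw [mul_one]
      · rw [mul_zero]
    rw [Finset.sum_congr rfl h1]
    by_cases hba : (b : ℕ) = a
    · rw [if_pos hba, Finset.sum_eq_single l]
      · rw [if_pos]
        exact Prod.ext (Fin.ext hba) rfl
      · intro l' _ hl'
        rw [if_neg]
        exact fun h => hl' (congrArg Prod.snd h).symm
      · intro h
        exact absurd (Finset.mem_univ _) h
    · rw [if_neg hba]
      refine Finset.sum_eq_zero fun l' _ => ?_
      rw [if_neg]
      exact fun h => hba (congrArg (fun x : Fin j × ι => (x.1 : ℕ)) h)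
  -- the chain of fields
  obtain ⟨C, hC0, hCs⟩ : ∃ C : ℕ → Subfield M, C 0 = (algebraMap ℂ M).fieldRange ∧
      ∀ a, C (a + 1) = ext (C a) (fN a) :=
    ⟨fun a => Nat.rec (algebraMap ℂ M).fieldRange (fun a S => ext S (fN a)) a, rfl, fun a => rfl⟩
  have hCcl : ∀ a x, IsAlgebraic (C a) x → x ∈ C a := by
    intro a x hx
    rcases a with - | a
    · rw [hC0] at hx ⊢
      exact closed_range hx
    · rw [hCs] at hx ⊢
      exact ext_closed hx
  have hCmono : Monotone C := monotone_nat_of_le_succ fun a => by
    rw [hCs]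
    exact le_ext _ _
  have hCC : ∀ a c, algebraMap ℂ M c ∈ C a := fun a c => hCmono (Nat.zero_le a) (by
    rw [hC0]
    exact ⟨c, rfl⟩)
  have hCf : ∀ a b, b < a → fN b ∈ C a := fun a b hba => hCmono (Nat.succ_le_of_lt hba) (by
    rw [hCs]
    exact self_mem_ext _ _)
  have hCle : ∀ a, C a ≤ clC (fN '' {b | b < a}) := by
    intro a
    induction a with
    | zero =>
      rw [hC0]
      rintro x ⟨c, rfl⟩
      exact range_le_clC _ c
    | succ a ih =>
      rw [hCs]
      refine ext_le (fun _ => clC_closed) (ih.trans (clC_mono ?_)) (subset_clC _ ?_)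
      · exact Set.image_mono fun b (hb : b < a) => show b < a + 1 by omega
      · exact ⟨a, Nat.lt_succ_self a, rfl⟩
  have hCstab : ∀ a, a ≤ j → ∀ (b : Fin j) l, a ≤ b → ∀ x ∈ C a, P (b, l) x ∈ C a := by
    intro a
    induction a with
    | zero =>
      intro _ b l _ x hx
      rw [hC0] at hx ⊢
      obtain ⟨c, rfl⟩ := hx
      obtain ⟨c', hc'⟩ := hPC (b, l) c
      exact ⟨c', hc'.symm⟩
    | succ a ih =>
      intro haj b l hab x hx
      rw [hCs] at hx ⊢
      refine ext_stable _ (ih (by omega) b l (by omega)) ?_ hx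
      rw [hPf b l a (by omega), if_neg (by omega)]
      exact zero_mem _
  -- the sections are not in the fields of the chain
  have hout : ∀ a, a < j → ∃ l, v l ∉ C a := by
    intro a ha
    by_contra hcon
    push Not at hcon
    have h1 : (⊤ : IntermediateField ℂ M).toSubfield ≤ C a := by
      rw [← hgen]
      refine Subfield.closure_le.2 ?_
      rintro x (⟨c, rfl⟩ | ⟨l, rfl⟩)
      · exact hCC a c
      · exact hcon l
    have h2 : ∀ x : M, x ∈ clC (fN '' {b | b < a}) := fun x => hCle a (h1 (by trivial))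
    have h3 : Algebra.IsAlgebraic (Algebra.adjoin ℂ (fN '' {b | b < a})) M := ⟨fun x => by
      have h4 := h2 x
      rw [mem_clC', AlgebraicIndependent.matroid_closure_eq, SetLike.mem_coe,
        Subalgebra.mem_algebraicClosure] at h4
      exact h4⟩
    have h4 := Algebra.IsAlgebraic.trdeg_le_cardinalMk (R := ℂ) (A := M) (s := fN '' {b | b < a})
    rw [htr] at h4
    have h5 : Cardinal.mk (fN '' {b | b < a}) ≤ a := by
      refine Cardinal.mk_image_le.trans (le_of_eq ?_)
      have h6 : Cardinal.mk {b : ℕ | b < a} = Cardinal.mk (Fin a) :=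
        Cardinal.mk_congr ⟨fun b => ⟨b.1, b.2⟩, fun b => ⟨b.1, b.2⟩, fun b => rfl, fun b => rfl⟩
      rw [h6, Cardinal.mk_fin]
    have h6 := h4.trans h5
    have h7 : j ≤ a := by exact_mod_cast h6
    omega
  have hnot : ∀ a, a < j → fN a ∉ C a := by
    intro a ha h
    obtain ⟨l, hl⟩ := hout a ha
    apply hl
    have h1 := hCstab a ha.le ⟨a, ha⟩ l le_rfl _ h
    rwa [hPf ⟨a, ha⟩ l a ha, if_pos rfl] at h1
  -- the dimensions
  have hdim : ∀ a, a < j → finrank (C 0) (Submodule.span (C 0) (Set.range v)) ≤
      finrank (C a) (Submodule.span (C a) (Set.range v)) + a := by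
    intro a
    induction a with
    | zero => intro _; exact le_rfl
    | succ a ih =>
      intro ha
      obtain ⟨l, hl⟩ := hout (a + 1) ha
      rw [hCs] at hl
      have h1 := step_finrank (F := C a) (hCcl a) (hnot a (by omega)) (v := v)
        (ξ := fun l => algebraMap ℂ M (ξ (⟨a, by omega⟩, l))) (fun l => hCC a _)
        (hfN a (by omega)) ho (fun l => P (⟨a, by omega⟩, l)) (fun l i => hPv _ i)
        (fun l => hCstab a (by omega) ⟨a, by omega⟩ l le_rfl) (fun l => by
          rw [hPf _ l a (by omega), if_pos rfl]) hl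
      rw [← hCs] at h1
      have h2 := ih (by omega)
      omega
  have hcard : finrank (C 0) (Submodule.span (C 0) (Set.range v)) = Fintype.card ι := by
    refine finrank_span_eq_card ?_
    rw [Fintype.linearIndependent_iff]
    intro g hg
    have h0 : ∀ x, x ∈ C 0 → ∃ c : ℂ, algebraMap ℂ M c = x := fun x hx => by
      rw [hC0] at hx
      exact hx
    have h1 : ∀ i, ∃ c : ℂ, algebraMap ℂ M c = g i := fun i => h0 _ (g i).2
    choose c hc using h1
    have h2 := Fintype.linearIndependent_iff.1 hli c (by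
      rw [← hg]
      refine Finset.sum_congr rfl fun i _ => ?_
      rw [Algebra.smul_def, hc]
      rfl)
    intro i
    refine Subtype.ext ?_
    rw [← hc, h2, map_zero]
    rfl
  -- the last step
  obtain ⟨i, rfl⟩ : ∃ i, j = i + 1 := ⟨j - 1, by omega⟩
  have hfinj : AlgebraicIndependent ℂ (fun a : Fin (i + 1) => fN a) :=
    indep_of_notMem _ fun a h => hnot a a.2 (clC_le (hCcl a) (hCC a) (by
      rintro _ ⟨b, hb, rfl⟩
      exact hCf a b hb) h)
  have hbas : IsTranscendenceBasis ℂ (fun a : Fin (i + 1) => fN a) :=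
    hfinj.isTranscendenceBasis_of_trdeg_le_of_finite (by rw [htr, Cardinal.mk_fin])
  have hfinAny : ∀ (A : Subfield M), (∀ c, algebraMap ℂ M c ∈ A) → (∀ x : M, IsAlgebraic A x) →
      FiniteDimensional A M := by
    intro A hA1 hA2
    have h1 : IntermediateField.adjoin A (Set.range v) = ⊤ := by
      rw [eq_top_iff]
      intro x _
      have h2 : x ∈ (IntermediateField.adjoin ℂ (Set.range v)).toSubfield := by
        rw [hgen]
        trivial
      refine (Subfield.closure_le.2 ?_ :
        (IntermediateField.adjoin ℂ (Set.range v)).toSubfield ≤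
          (IntermediateField.adjoin A (Set.range v)).toSubfield) h2
      rintro x (⟨c, rfl⟩ | hx)
      · exact (IntermediateField.adjoin A (Set.range v)).algebraMap_mem ⟨_, hA1 c⟩
      · exact IntermediateField.subset_adjoin _ _ hx
    have h2 : FiniteDimensional A (IntermediateField.adjoin A (Set.range v)) :=
      IntermediateField.finiteDimensional_adjoin fun x _ => (hA2 x).isIntegral
    rw [h1] at h2
    exact IntermediateField.topEquiv.toLinearEquiv.finiteDimensional
  have hFF : FF.IsFF (C i) M := by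
    have h1 : Transcendental (C i) (fN i) := fun h => hnot i (by omega) (hCcl i _ h)
    refine FF.IsFF.of_finite h1 ?_
    have h2 : FiniteDimensional (IntermediateField.adjoin (C i) {fN i}).toSubfield M := by
      refine hfinAny _ (fun c => ?_) fun x => ?_
      · exact (IntermediateField.adjoin (C i) {fN i}).algebraMap_mem ⟨_, hCC i c⟩
      · have h3 := hbas.isAlgebraic_field.isAlgebraic x
        have h4 : x ∈ clC (Set.range fun a : Fin (i + 1) => fN a) := mem_clC.2 h3
        have h5 : clC (Set.range fun a : Fin (i + 1) => fN a) ≤ ext (C i) (fN i) := by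
          refine clC_le (fun _ => ext_closed) (fun c => le_ext _ _ (hCC i c)) ?_
          rintro _ ⟨a, rfl⟩
          rcases Nat.lt_succ_iff_lt_or_eq.1 a.2 with h | h
          · exact le_ext _ _ (hCf i a h)
          · change fN a ∈ ext (C i) (fN i)
            rw [h]
            exact self_mem_ext _ _
        exact mem_ext.1 (h5 h4)
    exact h2
  obtain ⟨l0, hl0⟩ := hout i (by omega)
  obtain ⟨c, hc1, hc2⟩ := curve_bound (F := C i) (M := M)
    (fun x hx => ⟨⟨x, hCcl i x hx⟩, rfl⟩) (k := ℂ) (fun c => ⟨⟨_, hCC i c⟩, rfl⟩) (v := v) ho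
    (l0 := l0) (by
      rintro ⟨a, ha⟩
      apply hl0
      rw [← ha]
      exact a.2)
  obtain ⟨g, hg⟩ : ∃ g, g = ∑ l, c l • v l := ⟨_, rfl⟩
  rw [← hg] at hc1 hc2
  obtain ⟨f, hf⟩ : ∃ f : Fin (i + 1) → M, f = fun a : Fin (i + 1) =>
      if (a : ℕ) < i then fN a else g := ⟨_, rfl⟩
  have hf1 : ∀ a : Fin (i + 1), (a : ℕ) < i → f a = fN a := fun a ha => by
    rw [hf]
    exact if_pos ha
  have hf2 : ∀ a : Fin (i + 1), ¬ (a : ℕ) < i → f a = g := fun a ha => by
    rw [hf]
    exact if_neg ha
  have hfind : AlgebraicIndependent ℂ f := by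
    refine indep_of_notMem _ fun a h => ?_
    have h1 : clC (f '' {b | b < a}) ≤ C a := clC_le (hCcl a) (hCC a) (by
      rintro _ ⟨b, hb, rfl⟩
      have hb' : (b : ℕ) < a := hb
      have := a.2
      rw [hf1 b (by omega)]
      exact hCf a b hb)
    have h2 := h1 h
    by_cases ha : (a : ℕ) < i
    · rw [hf1 a ha] at h2
      exact hnot a (by omega) h2
    · rw [hf2 a ha] at h2
      have h3 : (a : ℕ) = i := by have := a.2; omega
      rw [h3] at h2
      exact hc1 (isAlgebraic_algebraMap (⟨g, h2⟩ : C i))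
  refine ⟨f, fun a => ?_, hfind, ?_⟩
  · by_cases ha : (a : ℕ) < i
    · refine ⟨fun l => ξ (a, l), ?_⟩
      rw [hf1 a ha, hfN a a.2]
      exact Finset.sum_congr rfl fun l _ => (Algebra.smul_def _ _).symm
    · exact ⟨c, by rw [hf2 a ha, hg]⟩
  · have h1 := hdim i (by omega)
    rw [hcard] at h1
    have hbasf : IsTranscendenceBasis ℂ f :=
      hfind.isTranscendenceBasis_of_trdeg_le_of_finite (by rw [htr, Cardinal.mk_fin])
    have h2 : FiniteDimensional (IntermediateField.adjoin ℂ (Set.range f)).toSubfield M :=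
      hfinAny _ (fun c => (IntermediateField.adjoin ℂ (Set.range f)).algebraMap_mem c)
        fun x => hbasf.isAlgebraic_field.isAlgebraic x
    have h3 : (IntermediateField.adjoin ℂ (Set.range f)).toSubfield ≤
        (IntermediateField.adjoin (C i) {g}).toSubfield := by
      refine Subfield.closure_le.2 ?_
      rintro x (⟨c, rfl⟩ | ⟨a, rfl⟩)
      · exact (IntermediateField.adjoin (C i) {g}).algebraMap_mem ⟨_, hCC i c⟩
      · by_cases ha : (a : ℕ) < i
        · rw [hf1 a ha]
          exact (IntermediateField.adjoin (C i) {g}).algebraMap_mem ⟨_, hCf i a ha⟩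
        · rw [hf2 a ha]
          exact IntermediateField.mem_adjoin_simple_self _ _
    have h4 : finrank (IntermediateField.adjoin (C i) {g}) M ≤
        finrank (IntermediateField.adjoin ℂ (Set.range f)) M := finrank_le_of_le h3 h2
    omega

end Run7.h612.AB
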