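import Pool.Agent.Run7.h612.AB.Pluri
import Pool.Agent.R887.CorD

/-!
**The plurigenera of the coverings, II.**
-/

set_option autoImplicit false
set_option linter.overlappingInstances false
set_option linter.unusedSectionVars false

open FF Module Pool.Agent.W602.GT Pool.Agent.W603.LV Pool.Agent.W619.PQ
open Pool.Agent.Y172 Pool.Agent.Y191 Pool.Agent.R887
open Pool.Agent.N110 (affS KappaGe Abundant)

namespace Run7.h612.AB

/-- bounded independent families in the spanning set give a bound for the dimension -/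
theorem finrank_bound {V : Type} [AddCommGroup V] [Module ℂ V] {S : Set V} {e : ℕ} (he : 0 < e)
    {B : ℝ}
    (h : ∀ (r : ℕ) (v : Fin r → V), (∀ l, v l ∈ S) → LinearIndependent ℂ v → (r * e : ℝ) ≤ B) :
    Module.Finite ℂ (Submodule.span ℂ S) ∧
      (finrank ℂ (Submodule.span ℂ S) * e : ℝ) ≤ B := by
  classical
  obtain ⟨b, hbS, hspan, hli⟩ := exists_linearIndependent ℂ S
  have hfin : b.Finite := by
    by_contra hinf
    have hinf' : b.Infinite := hinf
    obtain ⟨r, hr⟩ := exists_nat_gt B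
    obtain ⟨t, htb, htc⟩ := hinf'.exists_subset_card_eq r
    let en := t.equivFinOfCardEq htc
    have h1 := h r (fun l => ((en.symm l : t) : V)) (fun l => hbS (htb (en.symm l).2)) (by
      have h2 : LinearIndependent ℂ (fun l : t => (l : V)) := by
        exact hli.comp (fun l : t => (⟨l, htb l.2⟩ : b)) (fun x y hxy => by
          have h3 := congrArg Subtype.val hxy
          exact Subtype.ext h3)
      exact h2.comp _ en.symm.injective)
    have he1 : (1 : ℝ) ≤ e := by exact_mod_cast he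
    have h2 : (r : ℝ) * 1 ≤ r * e := mul_le_mul_of_nonneg_left he1 (Nat.cast_nonneg _)
    linarith
  have hfb : Fintype b := hfin.fintype
  have h1 : Module.Finite ℂ (Submodule.span ℂ S) := by
    rw [← hspan]
    exact Module.Finite.span_of_finite ℂ hfin
  refine ⟨h1, ?_⟩
  have h2 : finrank ℂ (Submodule.span ℂ S) = Fintype.card b := by
    rw [← hspan]
    have h3 := finrank_span_set_eq_card hli
    rw [h3, Set.toFinset_card]
  rw [h2]
  let en := Fintype.equivFin b
  exact h (Fintype.card b) (fun l => ((en.symm l : b) : V)) (fun l => hbS (en.symm l).2)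
    (hli.comp _ en.symm.injective)

variable {K L : Type} [Field K] [Algebra ℂ K] [Field L] [Algebra ℂ L]
  [Algebra K L] [IsScalarTower ℂ K L] [FiniteDimensional K L] {N : ℕ} {y : Fin (N + 1) → K} {n : ℕ}

/-- the bound for the plurigenera, from a bound for the degrees -/
theorem pluri_le (hy : NormalModel y) (hn : Algebra.trdeg ℂ K = n) {Δ : Place ℂ K → ℚ}
    {x : Fin n → K} {E : Fin n → Derivation ℂ K K} (hx : IsTranscendenceBasis ℂ x)
    (hE : ∀ i j, E i (x j) = if i = j then 1 else 0) {c : Place ℂ K → ℤ}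
    (hc : ∀ P, IsPrimeDivisor y P → ∀ (m : ℕ)
      (ω : (Fin n → Derivation ℂ K K) → K), IsPluri m ω → ∀ r : ℚ, OrdGe P ω r ↔
        (ω E = 0 ∨ r ≤ m * c P + P.ord (ω E))) {i : Fin (N + 1)}
    (hi : y i ≠ 0) {m : ℕ} (hm : 1 ≤ m) {b : ℝ} (hb1 : 1 ≤ b) {k : ℕ}
    (hk : Algebra.trdeg ℂ (IntermediateField.adjoin ℂ (ISet y fun P => c P + Δ P)) ≤ k)
    (hB : ∀ j, 1 ≤ j → j ≤ k → j ≤ n → ∀ (u : Fin (n - j) → K),
      (∀ a, u a ∈ Submodule.span ℂ (affS y i)) → ∀ h : Fin (j + 1) → L, (∀ i, h i ≠ 0) →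
      (∀ i, CSec y (fun P => c P + Δ P) m (h i)) →
      (dg ℂ (Sum.elim (fun a => algebraMap K L (u a)) fun i : Fin j => h i.succ / h 0) : ℝ) ≤
        finrank K L * b) :
    Module.Finite ℂ (Submodule.span ℂ
      {ω : (Fin n → Derivation ℂ L L) → L | IsCoverSection y n Δ m ω}) ∧
    (coverPlurigenus L y n Δ m * fibreDegree L (IField y fun P => c P + Δ P) : ℝ) ≤
      finrank K L * (k + b) := by
  unfold coverPlurigenus
  refine finrank_bound (fibreDegree_pos _) fun r v hv hli => ?_
  have h1 := card_le hy hn hx hE hc hi hm hb1 hk hB hv hli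
  rwa [Fintype.card_fin] at h1

/-- there are no sections on the coverings if there are none on the variety -/
theorem no_sections (hy : NormalModel y) (hn : Algebra.trdeg ℂ K = n) {Δ : Place ℂ K → ℚ}
    {x : Fin n → K} {E : Fin n → Derivation ℂ K K} (hx : IsTranscendenceBasis ℂ x)
    (hE : ∀ i j, E i (x j) = if i = j then 1 else 0) {c : Place ℂ K → ℤ}
    (hc : ∀ P, IsPrimeDivisor y P → ∀ (m : ℕ)
      (ω : (Fin n → Derivation ℂ K K) → K), IsPluri m ω → ∀ r : ℚ, OrdGe P ω r ↔
        (ω E = 0 ∨ r ≤ m * c P + P.ord (ω E))) (h0 : ¬ KappaGe y n Δ 0) {m : ℕ} (hm : 1 ≤ m)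
    {ω : (Fin n → Derivation ℂ L L) → L} (hω : IsCoverSection y n Δ m ω) : ω = 0 := by
  classical
  have hess := hy.ess
  have hessL : Algebra.EssFiniteType ℂ L := by
    have h1 : Algebra.EssFiniteType K L := inferInstance
    exact Algebra.EssFiniteType.comp ℂ K L
  have hnL : Algebra.trdeg ℂ L = n := trdeg_up (K := K) hn
  choose D hD using fun i => exists_lift (L := L) hn (E i)
  have hDfr : IsFrame D := fun F => ⟨fun j => F (algebraMap K L (x j)),
    (Pool.Agent.W73.PG.PULL.expand _ (hx.algebraMap_comp (A := L)) D (lift_dual hE hD) F).symm⟩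
  by_contra hne
  have h1 : ω D ≠ 0 := fun h2 => hne (pluri_zero hDfr hω.1 h2)
  have h2 := cover_form hy hn hx hE hc hD hω h1
  obtain ⟨M, F, hM, hF0, -, hF⟩ := equation hm h1 h2 (Or.inr h2)
  rw [kappa_iff hx hE hc] at h0
  refine h0 ⟨M, hM, fun _ => F.leadingCoeff, fun _ => hF _,
    Polynomial.leadingCoeff_ne_zero.2 hF0, ?_⟩
  exact (algebraicIndependent_empty_type)

end Run7.h612.AB
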