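import Pool.Agent.Run7.h612.AB.Kappa

/-!
**The plurigenera of the coverings.**
-/

set_option autoImplicit false
set_option linter.overlappingInstances false
set_option linter.unusedSectionVars false

open FF Module Pool.Agent.W602.GT Pool.Agent.W603.LV Pool.Agent.W619.PQ
open Pool.Agent.Y172 Pool.Agent.Y191 Pool.Agent.R887
open Pool.Agent.N110 (affS KappaGe Abundant)

namespace Run7.h612.AB

variable {K L : Type} [Field K] [Algebra ℂ K] [Field L] [Algebra ℂ L]
  [Algebra K L] [IsScalarTower ℂ K L] [FiniteDimensional K L] {N : ℕ} {y : Fin (N + 1) → K} {n : ℕ}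

theorem pluri_lin {ι : Type} [Fintype ι] {m : ℕ} {ω : ι → (Fin n → Derivation ℂ L L) → L}
    (hω : ∀ l, IsPluri m (ω l)) (c : ι → ℂ) : IsPluri m (∑ l, c l • ω l) := by
  intro A D
  rw [Finset.sum_apply, Finset.sum_apply, Finset.mul_sum]
  refine Finset.sum_congr rfl fun l _ => ?_
  rw [Pi.smul_apply, Pi.smul_apply, hω l A D, mul_smul_comm]

/-- the degree of the fibres of `X' ⇢ B` over the fibres of `X ⇢ B` -/
noncomputable def fibreDegree (L : Type) [Field L] [Algebra ℂ L] [Algebra K L]
    [IsScalarTower ℂ K L] (E : IntermediateField ℂ K) : ℕ :=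
  Module.finrank (IntermediateField.adjoin K {z : L | IsAlgebraic E z}) L

theorem base_mul_fibre (E : IntermediateField ℂ K) :
    baseDegree L E * fibreDegree L E = finrank K L :=
  finrank_mul_finrank K (IntermediateField.adjoin K {z : L | IsAlgebraic E z}) L

theorem fibreDegree_le (E : IntermediateField ℂ K) : fibreDegree L E ≤ finrank K L := by
  unfold fibreDegree
  have h1 := finrank_mul_finrank K (IntermediateField.adjoin K {z : L | IsAlgebraic E z}) L
  rw [← h1]
  exact Nat.le_mul_of_pos_left _ finrank_pos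

theorem fibreDegree_pos (E : IntermediateField ℂ K) : 0 < fibreDegree L E := by
  unfold fibreDegree
  have h1 : FiniteDimensional (IntermediateField.adjoin K {z : L | IsAlgebraic E z}) L :=
    FiniteDimensional.right K _ L
  exact finrank_pos

/-- the inequality for independent sections -/
theorem card_le (hy : NormalModel y) (hn : Algebra.trdeg ℂ K = n) {Δ : Place ℂ K → ℚ}
    {x : Fin n → K} {E : Fin n → Derivation ℂ K K} (hx : IsTranscendenceBasis ℂ x)
    (hE : ∀ i j, E i (x j) = if i = j then 1 else 0) {c : Place ℂ K → ℤ}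
    (hc : ∀ P, IsPrimeDivisor y P → ∀ (m : ℕ)
      (ω : (Fin n → Derivation ℂ K K) → K), IsPluri m ω → ∀ r : ℚ, OrdGe P ω r ↔
        (ω E = 0 ∨ r ≤ m * c P + P.ord (ω E))) {i : Fin (N + 1)}
    (hi : y i ≠ 0) {m : ℕ} (hm : 1 ≤ m) {b : ℝ} (hb1 : 1 ≤ b) {k : ℕ}
    (hk : Algebra.trdeg ℂ (IntermediateField.adjoin ℂ (ISet y fun P => c P + Δ P)) ≤ k)
    (hB : ∀ j, 1 ≤ j → j ≤ k → j ≤ n → ∀ (u : Fin (n - j) → K),
      (∀ a, u a ∈ Submodule.span ℂ (affS y i)) → ∀ h : Fin (j + 1) → L, (∀ i, h i ≠ 0) →
      (∀ i, CSec y (fun P => c P + Δ P) m (h i)) →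
      (dg ℂ (Sum.elim (fun a => algebraMap K L (u a)) fun i : Fin j => h i.succ / h 0) : ℝ) ≤
        finrank K L * b)
    {ι : Type} [Fintype ι] {ω : ι → (Fin n → Derivation ℂ L L) → L}
    (hω : ∀ l, IsCoverSection y n Δ m (ω l)) (hli : LinearIndependent ℂ ω) :
    (Fintype.card ι * fibreDegree L (IField y fun P => c P + Δ P) : ℝ) ≤
      finrank K L * (k + b) := by
  classical
  have hess := hy.ess
  have hessL : Algebra.EssFiniteType ℂ L := by
    have h1 : Algebra.EssFiniteType K L := inferInstance
    exact Algebra.EssFiniteType.comp ℂ K L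
  have hnL : Algebra.trdeg ℂ L = n := trdeg_up (K := K) hn
  obtain ⟨T, hT⟩ : ∃ T : Place ℂ K → ℚ, T = fun P => c P + Δ P := ⟨_, rfl⟩
  rw [← hT] at hk hB ⊢
  choose D hD using fun i => exists_lift (L := L) hn (E i)
  have hDfr : IsFrame D := fun F => ⟨fun j => F (algebraMap K L (x j)),
    (Pool.Agent.W73.PG.PULL.expand _ (hx.algebraMap_comp (A := L)) D (lift_dual hE hD) F).symm⟩
  obtain ⟨h, hh⟩ : ∃ h : ι → L, h = fun l => ω l D := ⟨_, rfl⟩
  have hh0 : ∀ l, h l ≠ 0 := by
    intro l h1
    rw [hh] at h1
    exact hli.ne_zero l (pluri_zero hDfr (hω l).1 h1)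
  have hhC : ∀ l, CSec y T m (h l) := by
    intro l
    rw [hT, hh]
    refine cover_form hy hn hx hE hc hD (hω l) ?_
    have h1 := hh0 l
    rwa [hh] at h1
  have hhli : LinearIndependent ℂ h := by
    rw [Fintype.linearIndependent_iff] at hli ⊢
    intro g hg
    refine hli g (pluri_zero hDfr (pluri_lin (fun l => (hω l).1) g) ?_)
    rw [Finset.sum_apply, ← hg]
    refine Finset.sum_congr rfl fun l _ => ?_
    rw [hh]
    rfl
  have hd1 : (1 : ℝ) ≤ finrank K L := by exact_mod_cast finrank_pos
  have hd0 : (0 : ℝ) ≤ finrank K L := by linarith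
  have hed : (fibreDegree L (IField y T) : ℝ) ≤ finrank K L := by exact_mod_cast fibreDegree_le _
  have he0 : (0 : ℝ) ≤ fibreDegree L (IField y T) := Nat.cast_nonneg _
  have hk0 : (0 : ℝ) ≤ k := Nat.cast_nonneg _
  rcases isEmpty_or_nonempty ι with hemp | ⟨⟨o⟩⟩
  · rw [Fintype.card_eq_zero, Nat.cast_zero, zero_mul]
    positivity
  -- the field of the quotients
  have halg : ∀ l, IsAlgebraic (IntermediateField.adjoin ℂ (ISet y T)) (h l / h o) := fun l =>
    quot_alg hm (hh0 o) (hhC o) (Or.inr (hhC l))
  obtain ⟨M, hM⟩ : ∃ M, M = IntermediateField.adjoin ℂ (Set.range fun l => h l / h o) := ⟨_, rfl⟩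
  have hMle : M ≤ (algebraicClosure (IntermediateField.adjoin ℂ (ISet y T)) L).restrictScalars ℂ := by
    rw [hM, IntermediateField.adjoin_le_iff]
    rintro _ ⟨l, rfl⟩
    exact mem_algebraicClosure_iff.2 (halg l)
  have htrM : Algebra.trdeg ℂ M ≤ k := by
    have h1 := trdeg_le_of_injective (R := ℂ) (IntermediateField.inclusion hMle)
      (IntermediateField.inclusion hMle).injective
    have h2 : Algebra.trdeg ℂ ((algebraicClosure (IntermediateField.adjoin ℂ (ISet y T))
        L).restrictScalars ℂ) = Algebra.trdeg ℂ (IntermediateField.adjoin ℂ (ISet y T)) :=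
      trdeg_closure (L := L) (IntermediateField.adjoin ℂ (ISet y T))
    rw [h2] at h1
    exact h1.trans hk
  obtain ⟨j, hj⟩ : ∃ j : ℕ, Algebra.trdeg ℂ M = j := by
    have h1 : Algebra.trdeg ℂ M < Cardinal.aleph0 := lt_of_le_of_lt htrM Cardinal.natCast_lt_aleph0
    obtain ⟨j, hj⟩ := Cardinal.lt_aleph0.1 h1
    exact ⟨j, hj⟩
  have hjk : j ≤ k := by
    rw [hj] at htrM
    exact_mod_cast htrM
  rcases Nat.eq_zero_or_pos j with hj0 | hj1
  · -- all quotients are constant
    have hcard : Fintype.card ι ≤ 1 := by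
      rw [Fintype.card_le_one_iff]
      intro a a'
      by_contra hne
      have halgM : Algebra.IsAlgebraic ℂ M := by
        have h1 : Algebra.trdeg ℂ M = 0 := by rw [hj, hj0, Nat.cast_zero]
        exact trdeg_eq_zero_iff.1 h1
      have hcon : ∀ l, ∃ z : ℂ, algebraMap ℂ L z = h l / h o := by
        intro l
        have h1 : h l / h o ∈ M := by
          rw [hM]
          exact IntermediateField.subset_adjoin _ _ ⟨l, rfl⟩
        have h2 := halgM.isAlgebraic (⟨h l / h o, h1⟩ : M)
        have h3 : IsAlgebraic ℂ (h l / h o) := by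
          have h4 := h2.algHom M.val
          exact h4
        exact minpoly.mem_range_of_degree_eq_one ℂ _ (IsAlgClosed.degree_eq_one_of_irreducible ℂ
          (minpoly.irreducible h3.isIntegral))
      choose z hz using hcon
      have h1 : z a' • h a + (-z a) • h a' = 0 := by
        rw [Algebra.smul_def, Algebra.smul_def, map_neg, hz, hz]
        field_simp
        ring
      have h2 := Fintype.linearIndependent_iff.1 hhli
        (fun l => if l = a then z a' else if l = a' then -z a else 0) (by
        have h3 : ∀ l, (if l = a then z a' else if l = a' then -z a else 0) • h l =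
            (if l = a then z a' • h a else 0) + (if l = a' then (-z a) • h a' else 0) := by
          intro l
          by_cases h4 : l = a
          · subst h4
            rw [if_pos rfl, if_pos rfl, if_neg hne, add_zero]
          · rw [if_neg h4, if_neg h4, zero_add]
            by_cases h5 : l = a'
            · subst h5
              rw [if_pos rfl, if_pos rfl]
            · rw [if_neg h5, if_neg h5, zero_smul]
        simp_rw [h3]
        rw [Finset.sum_add_distrib, Finset.sum_ite_eq' Finset.univ a, Finset.sum_ite_eq' Finset.univ a',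
          if_pos (Finset.mem_univ _), if_pos (Finset.mem_univ _)]
        exact h1) a
      rw [if_pos rfl] at h2
      have h3 := hz a'
      rw [h2, map_zero] at h3
      exact div_ne_zero (hh0 a') (hh0 o) h3.symm
    have h1 : (Fintype.card ι : ℝ) ≤ 1 := by exact_mod_cast hcard
    calc (Fintype.card ι * fibreDegree L (IField y T) : ℝ) ≤ 1 * finrank K L :=
          mul_le_mul h1 hed he0 zero_le_one
      _ ≤ finrank K L * (k + b) := by
          rw [one_mul]
          exact le_mul_of_one_le_right hd0 (by linarith)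
  · -- the main case
    obtain ⟨Rf, hRf⟩ : ∃ Rf : IntermediateField K L,
      Rf = IntermediateField.adjoin K {z : L | IsAlgebraic (IField y T) z} := ⟨_, rfl⟩
    have hRq : ∀ l, h l / h o ∈ Rf.toSubfield := by
      intro l
      rw [hRf]
      refine IntermediateField.subset_adjoin _ _ ?_
      have h3 := halg l
      obtain ⟨P, hP, hPx⟩ := h3
      refine ⟨P.map (IntermediateField.inclusion (adjoin_le_IField T)).toRingHom, ?_, ?_⟩
      · rwa [Ne, Polynomial.map_eq_zero_iff
          (IntermediateField.inclusion (adjoin_le_IField T)).injective]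
      · rw [Polynomial.aeval_def, Polynomial.eval₂_map]
        exact hPx
    have h1 := cover_ineq (L := L) hy hn hi (T := T) (m := m) (B := finrank K L * b) hj1
      (fun h1 u hu g hg0 hg => hB j hj1 hjk h1 u hu g hg0 hg) hhli hhC (o := o)
      (R := Rf.toSubfield) (fun x => Rf.algebraMap_mem x) hRq (by rw [← hM]; exact hj)
    have h2 : finrank Rf.toSubfield L = fibreDegree L (IField y T) := by
      unfold fibreDegree
      rw [← hRf]
      rfl
    rw [h2] at h1
    have h3 : (Fintype.card ι : ℝ) ≤ ((Fintype.card ι - j : ℕ) : ℝ) + k := by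
      have h4 : Fintype.card ι ≤ (Fintype.card ι - j) + k := by omega
      exact_mod_cast h4
    calc (Fintype.card ι * fibreDegree L (IField y T) : ℝ)
        ≤ (((Fintype.card ι - j : ℕ) : ℝ) + k) * fibreDegree L (IField y T) :=
          mul_le_mul_of_nonneg_right h3 he0
      _ = ((Fintype.card ι - j : ℕ) : ℝ) * fibreDegree L (IField y T) +
          k * fibreDegree L (IField y T) := by ring
      _ ≤ finrank K L * b + k * finrank K L :=
          add_le_add h1.2 (mul_le_mul_of_nonneg_left hed hk0)
      _ = finrank K L * (k + b) := by ring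

end Run7.h612.AB
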