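import Pool.Agent.Run7.h612.AB.Der

/-!
The relations between the sections over the field of a generic hyperplane.
-/

set_option autoImplicit false

open Polynomial

namespace Run7.h612.AB

variable {M : Type} [Field M]

/-- a nonzero space of vectors which is stable under a derivation contains a nonzero vector of
constants -/
theorem exists_const {k : Subfield M} {I : Type} [Fintype I] (D : Derivation ℤ M M)
    (R : (I → M) → Prop) (hRk : ∀ A, R A → ∀ i, A i ∈ k)
    (hRs : ∀ A, R A → ∀ c ∈ k, R fun i => c * A i) (hRD : ∀ A, R A → R fun i => D (A i)) {A : I → M}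
    (hA : R A) (hA0 : A ≠ 0) : ∃ B, R B ∧ B ≠ 0 ∧ ∀ i, D (B i) = 0 := by
  classical
  obtain ⟨s, hs⟩ : ∃ s : ℕ, s = (Finset.univ.filter fun i => A i ≠ 0).card := ⟨_, rfl⟩
  induction s using Nat.strong_induction_on generalizing A with
  | _ s ih =>
    obtain ⟨i0, hi0⟩ : ∃ i, A i ≠ 0 := by
      by_contra hc
      push Not at hc
      exact hA0 (funext hc)
    obtain ⟨B, hB⟩ : ∃ B : I → M, B = fun i => (A i0)⁻¹ * A i := ⟨_, rfl⟩
    have hRB : R B := by
      rw [hB]
      exact hRs A hA _ (inv_mem (hRk A hA i0))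
    have hB0 : B i0 = 1 := by
      rw [hB]
      exact inv_mul_cancel₀ hi0
    by_cases h : ∀ i, D (B i) = 0
    · refine ⟨B, hRB, fun h0 => ?_, h⟩
      rw [h0] at hB0
      exact zero_ne_one hB0
    · push Not at h
      obtain ⟨i1, hi1⟩ := h
      refine ih _ ?_ (A := fun i => D (B i)) (hRD B hRB) (fun h0 => hi1 (congrFun h0 i1)) rfl
      rw [hs]
      refine Finset.card_lt_card ⟨fun i hi => ?_, fun hsub => ?_⟩
      · rw [Finset.mem_filter] at hi ⊢
        refine ⟨hi.1, fun h0 => hi.2 ?_⟩
        have : B i = 0 := by rw [hB]; simp only []; rw [h0, mul_zero]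
        rw [this, map_zero]
      · have h1 := hsub (Finset.mem_filter.2 ⟨Finset.mem_univ i0, hi0⟩)
        rw [Finset.mem_filter] at h1
        apply h1.2
        rw [hB0]
        exact Derivation.map_one_eq_zero D

/-- **The relations between the sections over the field of a generic hyperplane.** -/
theorem step_core {F k : Subfield M} (hk : ∀ a, IsAlgebraic k a → a ∈ k) {ι I : Type}
    [Fintype I] {v : ι → M} {w : I → M} (e : I → ι) (he : ∀ i, w i = v (e i))
    (hw : ∀ c : I → M, (∀ i, c i ∈ F) → ∑ i, c i * w i = 0 → c = 0)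
    (D : Derivation ℤ M M) (hDk : ∀ a ∈ k, D a ∈ k) (hDc : ∀ a ∈ k, D a = 0 → a ∈ F)
    (P : ι → Derivation ℤ M M) (hP : ∀ l i, P l (w i) = 0)
    (hPk : ∀ l, ∀ a ∈ k, P l a - v l * D a ∈ k)
    (hPD : ∀ l, ∀ a ∈ k, D (P l a - v l * D a) = P l (D a) - v l * D (D a))
    {τ : I → M} (hτk : ∀ i, τ i ∈ k) (hτ : ∑ i, τ i * w i = 0) (hτD : ∑ i, D (τ i) * w i = 1)
    {l0 : ι} (hl0 : v l0 ∉ k) {A : I → M} (hAk : ∀ i, A i ∈ k) (hA : ∑ i, A i * w i = 0) :
    ∃ c ∈ k, A = fun i => c * τ i := by
  classical
  -- the action of the derivations on relations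
  have h1 : ∀ A : I → M, ∑ i, A i * w i = 0 → ∀ l, v l * ∑ i, D (A i) * w i =
      -∑ i, (P l (A i) - v l * D (A i)) * w i := by
    intro A hA l
    have h2 := congrArg (P l) hA
    rw [map_sum, map_zero] at h2
    have h3 : ∀ i ∈ Finset.univ, P l (A i * w i) = P l (A i) * w i := by
      intro i _
      rw [Derivation.leibniz, hP, smul_zero, zero_add, smul_eq_mul, mul_comm]
    rw [Finset.sum_congr rfl h3] at h2
    rw [Finset.mul_sum, ← Finset.sum_neg_distrib, ← sub_eq_zero, ← Finset.sum_sub_distrib, ← h2]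
    refine Finset.sum_congr rfl fun i _ => ?_
    ring
  -- the values are in `k`
  have h2 : ∀ A : I → M, (∀ i, A i ∈ k) → ∑ i, A i * w i = 0 → ∑ i, D (A i) * w i ∈ k := by
    intro A hAk hA
    obtain ⟨g, hg⟩ : ∃ g, g = ∑ i, D (A i) * w i := ⟨_, rfl⟩
    rw [← hg]
    have hmem : ∀ c : I → M, (∀ i, c i ∈ k) → ∑ i, c i * w i ∈ Submodule.span k (Set.range w) := by
      intro c hc
      refine sum_mem fun i _ => ?_
      have h3 : c i * w i = (⟨c i, hc i⟩ : k) • w i := rfl
      rw [h3]
      exact Submodule.smul_mem _ _ (Submodule.subset_span ⟨i, rfl⟩)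
    have h1m : (1 : M) ∈ Submodule.span k (Set.range w) := by
      rw [← hτD]
      exact hmem _ fun i => hDk _ (hτk i)
    have hint : IsIntegral k g := by
      refine isIntegral_of_smul_mem_submodule (Submodule.span k (Set.range w)) ?_ ?_ g ?_
      · intro h0
        rw [h0, Submodule.mem_bot] at h1m
        exact one_ne_zero h1m
      · exact Submodule.fg_span (Set.finite_range w)
      · intro n hn
        induction hn using Submodule.span_induction with
        | mem x hx =>
          obtain ⟨i, rfl⟩ := hx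
          rw [smul_eq_mul, mul_comm, he i, hg, h1 A hA (e i)]
          exact neg_mem (hmem _ fun j => hPk _ _ (hAk j))
        | zero => rw [smul_zero]; exact zero_mem _
        | add x y _ _ hx hy => rw [smul_add]; exact add_mem hx hy
        | smul c x _ hx => rw [smul_comm]; exact Submodule.smul_mem _ _ hx
    exact hk g hint.isAlgebraic
  -- the relations whose derivatives are relations
  obtain ⟨R, hR⟩ : ∃ R : (I → M) → Prop, R = fun A => (∀ i, A i ∈ k) ∧ ∑ i, A i * w i = 0 ∧
      ∑ i, D (A i) * w i = 0 := ⟨_, rfl⟩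
  have hR0 : ∀ A, R A → A = 0 := by
    intro A hA
    by_contra hA0
    obtain ⟨B, hB, hB0, hBD⟩ := exists_const (k := k) D R (fun A hA => by
        rw [hR] at hA
        exact hA.1) (fun A hA c hc => by
        rw [hR] at hA ⊢
        refine ⟨fun i => mul_mem hc (hA.1 i), ?_, ?_⟩
        · rw [← mul_zero c, ← hA.2.1, Finset.mul_sum]
          exact Finset.sum_congr rfl fun i _ => by ring
        · have h3 : ∀ i ∈ Finset.univ, D (c * A i) * w i = c * (D (A i) * w i) +
              D c * (A i * w i) := by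
            intro i _
            rw [Derivation.leibniz, smul_eq_mul, smul_eq_mul]
            ring
          rw [Finset.sum_congr rfl h3, Finset.sum_add_distrib, ← Finset.mul_sum, ← Finset.mul_sum,
            hA.2.1, hA.2.2, mul_zero, mul_zero, add_zero]) (fun A hA => by
        rw [hR] at hA ⊢
        obtain ⟨hAk, hA1, hA2⟩ := hA
        refine ⟨fun i => hDk _ (hAk i), hA2, ?_⟩
        by_contra hg
        -- `g' ∈ k` and `v l g' ∈ k`
        have h4 := h2 (fun i => D (A i)) (fun i => hDk _ (hAk i)) hA2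
        have h5 := h1 (fun i => D (A i)) hA2 l0
        have h6 := h1 A hA1 l0
        rw [hA2, mul_zero] at h6
        have h7 : ∑ i, (P l0 (A i) - v l0 * D (A i)) * w i = 0 := by
          rw [← neg_eq_zero, ← h6]
        have h8 := h2 (fun i => P l0 (A i) - v l0 * D (A i)) (fun i => hPk _ _ (hAk i)) h7
        have h9 : ∑ i, D (P l0 (A i) - v l0 * D (A i)) * w i =
            -(v l0 * ∑ i, D (D (A i)) * w i) := by
          rw [h5, neg_neg]
          exact Finset.sum_congr rfl fun i _ => by rw [hPD l0 _ (hAk i)]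
        rw [h9] at h8
        have h10 := neg_mem h8
        rw [neg_neg] at h10
        apply hl0
        have h11 : v l0 = (v l0 * ∑ i, D (D (A i)) * w i) * (∑ i, D (D (A i)) * w i)⁻¹ := by
          field_simp
        rw [h11]
        exact mul_mem h10 (inv_mem h4)) hA hA0
    rw [hR] at hB
    exact hB0 (hw B (fun i => hDc _ (hB.1 i) (hBD i)) hB.2.1)
  obtain ⟨g, hg⟩ : ∃ g, g = ∑ i, D (A i) * w i := ⟨_, rfl⟩
  have hgk : g ∈ k := by
    rw [hg]
    exact h2 A hAk hA
  refine ⟨g, hgk, ?_⟩
  have h3 := hR0 (fun i => A i - g * τ i) (by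
    rw [hR]
    refine ⟨fun i => sub_mem (hAk i) (mul_mem hgk (hτk i)), ?_, ?_⟩
    · have h4 : ∀ i ∈ Finset.univ, (A i - g * τ i) * w i = A i * w i - g * (τ i * w i) := by
        intro i _
        ring
      rw [Finset.sum_congr rfl h4, Finset.sum_sub_distrib, ← Finset.mul_sum, hA, hτ, mul_zero,
        sub_zero]
    · have h4 : ∀ i ∈ Finset.univ, D (A i - g * τ i) * w i = D (A i) * w i -
          (g * (D (τ i) * w i) + D g * (τ i * w i)) := by
        intro i _
        rw [map_sub, Derivation.leibniz, smul_eq_mul, smul_eq_mul]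
        ring
      rw [Finset.sum_congr rfl h4, Finset.sum_sub_distrib, Finset.sum_add_distrib,
        ← Finset.mul_sum, ← Finset.mul_sum, hτD, hτ, ← hg]
      ring)
  funext i
  exact sub_eq_zero.1 (congrFun h3 i)

end Run7.h612.AB
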